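import Pool.Agent.NH82.MS.Stm

set_option autoImplicit false

/-!
# Project MS: from lines to averages over balls of segments (MS-9)

Copy of the second half of `Pool/Agent/TH539/GMax.lean` with the estimate for lines as a hypothesis.
-/

open MeasureTheory Set ENNReal NNReal Metric
open scoped Pointwise

namespace Pool.Agent.NH82.MS

open Pool.Agent.TH539

variable {d : ℕ}

/-- Half shells. -/
lemma ch_half_shell {F : EuclideanSpace ℝ (Fin (d + 1)) → ℝ≥0∞} (hF : Measurable F)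
    {p : ℝ} {K : ℝ≥0∞} (hp : 1 < p) (hL : LineBound d F p K)
    {b : EuclideanSpace ℝ (Fin (d + 1)) → EuclideanSpace ℝ (Fin (d + 1))} (hb : Measurable b)
    {τ ε : ℝ} (hτ : 0 < τ) (hε : ε = 1 ∨ ε = -1) :
    ∫⁻ e in {e : sphere (0 : EuclideanSpace ℝ (Fin (d + 1))) 1 |
      0 < ε * (e : EuclideanSpace ℝ (Fin (d + 1))) 0 ∧
      |(e : EuclideanSpace ℝ (Fin (d + 1))) 0| ≤ τ},
        ({x : EuclideanSpace ℝ (Fin (d + 1)) | τ / 2 ≤ |x 0|}.indicator
          (fun x => (∫⁻ s in Icc (-(1 / 2) : ℝ) (1 / 2), F (b x + s • x)) ^ p) e)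
        ∂(surf (d + 1)) ≤
      2 * (d + 1) * 2 ^ p * K := by
  have hp0 : 0 < p := by linarith
  set H : EuclideanSpace ℝ (Fin (d + 1)) → ℝ≥0∞ :=
    {x : EuclideanSpace ℝ (Fin (d + 1)) | τ / 2 ≤ |x 0| ∧ |x 0| ≤ τ}.indicator
          (fun x => (∫⁻ s in Icc (-(1 / 2) : ℝ) (1 / 2), F (b x + s • x)) ^ p) with hH
  have hHm : Measurable H := by
    refine Measurable.indicator ?_ ?_
    · have h1 : Measurable fun z : EuclideanSpace ℝ (Fin (d + 1)) × ℝ =>
          F (b z.1 + z.2 • z.1) :=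
        hF.comp ((hb.comp measurable_fst).add (measurable_snd.smul measurable_fst))
      exact (h1.lintegral_prod_right' (ν := volume.restrict (Icc (-(1 / 2) : ℝ) (1 / 2)))).pow_const p
    · have e1 : Measurable fun x : EuclideanSpace ℝ (Fin (d + 1)) => |x 0| := by fun_prop
      exact (measurableSet_le measurable_const e1).inter (measurableSet_le e1 measurable_const)
  -- the rescaled function
  set fτ : ℝ × (Fin d → ℝ) → ℝ≥0∞ := fun z => F (pt (τ * z.1, z.2)) with hfτ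
  have hfτm : Measurable fτ := hF.comp (volume_preserving_pt.measurable.comp (by fun_prop))
  set c : (Fin d → ℝ) → ℝ := fun w => (b (dir τ ε w)) 0 / τ with hc
  have hbd : Measurable fun w : Fin d → ℝ => b (dir τ ε w) := hb.comp (measurable_dir τ ε)
  have hcm : Measurable c := by
    have : Measurable fun x : EuclideanSpace ℝ (Fin (d + 1)) => x 0 := by fun_prop
    exact (this.comp hbd).div_const τ
  set B : (Fin d → ℝ) → (Fin d → ℝ) := fun w => (fun i => (b (dir τ ε w)) i.succ) - c w • w with hB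
  have hBm : Measurable B := by
    refine Measurable.sub ?_ (hcm.smul measurable_id)
    refine measurable_pi_lambda _ fun i => ?_
    have : Measurable fun x : EuclideanSpace ℝ (Fin (d + 1)) => x i.succ := by fun_prop
    exact this.comp hbd
  set S : Set (Fin d → ℝ) := {v | ∀ i, |v i| ≤ 2} with hS
  have hSm : MeasurableSet S := by
    have : S = ⋂ i, {v : Fin d → ℝ | |v i| ≤ 2} := by
      ext v
      simp [hS]
    rw [this]
    refine MeasurableSet.iInter fun i => ?_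
    exact measurableSet_le (by fun_prop) measurable_const
  have hpoint : ∀ w : Fin d → ℝ, H (dir τ ε w) ≤ S.indicator (fun w =>
      2 ^ p * (∫⁻ t in Icc (c w - 1 / 2) (c w + 1 / 2), fτ (t, B w + t • w)) ^ p) w := by
    intro w
    by_cases hw : dir τ ε w ∈ {x : EuclideanSpace ℝ (Fin (d + 1)) | τ / 2 ≤ |x 0| ∧ |x 0| ≤ τ}
    swap
    · simp only [hH]
      rw [indicator_of_notMem hw]; exact zero_le
    · simp only [hH]
      set ρ : ℝ := ε * ‖pt (τ, w)‖⁻¹ with hρ
      have hd0 : (dir τ ε w) 0 = ρ * τ := rfl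
      have hds : ∀ i : Fin d, (dir τ ε w) i.succ = ρ * w i := fun i => rfl
      have habs : |(dir τ ε w) 0| = |ρ| * τ := by rw [hd0, abs_mul, abs_of_pos hτ]
      have hρ1 : 1 / 2 ≤ |ρ| := by
        have := hw.1
        rw [habs] at this
        by_contra hcon
        push Not at hcon
        nlinarith
      have hρ2 : |ρ| ≤ 1 := by
        have := hw.2
        rw [habs] at this
        by_contra hcon
        push Not at hcon
        nlinarith
      have hfm : Measurable fun t : ℝ => fτ (t, B w + t • w) :=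
        hfτm.comp (by fun_prop)
      have hnn : ‖pt (τ, w)‖ ≤ 2 := by
        have h0 : 0 < ‖pt (τ, w)‖⁻¹ := by
          rcases (inv_nonneg.2 (norm_nonneg (pt (τ, w)))).eq_or_lt with h | h
          · rw [hρ, ← h, mul_zero, abs_zero] at hρ1
            linarith
          · exact h
        have h1 : |ρ| = ‖pt (τ, w)‖⁻¹ := by
          rw [hρ, abs_mul, abs_of_pos h0]
          rcases hε with h | h <;> rw [h] <;> simp
        rw [h1] at hρ1
        have h2 : 0 < ‖pt (τ, w)‖ := inv_pos.1 h0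
        rw [← one_div, div_le_div_iff₀ (by norm_num) h2] at hρ1
        linarith
      have hwS : w ∈ S := by
        intro i
        have h3 := PiLp.norm_apply_le (pt (τ, w)) i.succ
        rw [pt_succ, Real.norm_eq_abs] at h3
        exact h3.trans hnn
      rw [indicator_of_mem hw, indicator_of_mem hwS, ← ENNReal.mul_rpow_of_nonneg _ _ hp0.le]
      refine ENNReal.rpow_le_rpow ?_ hp0.le
      refine le_trans (le_of_eq ?_) (cov_le (c := c w) hρ1 hρ2 hfm)
      refine lintegral_congr fun s => ?_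
      simp only [hfτ]
      congr 1
      refine ext_pt ?_ ?_
      · simp only [PiLp.add_apply, PiLp.smul_apply, smul_eq_mul, pt_zero, hd0, hc]
        field_simp
      · intro i
        simp only [PiLp.add_apply, PiLp.smul_apply, smul_eq_mul, pt_succ, hds, hB, Pi.add_apply,
          Pi.sub_apply, Pi.smul_apply]
        ring
  calc ∫⁻ e in {e : sphere (0 : EuclideanSpace ℝ (Fin (d + 1))) 1 |
      0 < ε * (e : EuclideanSpace ℝ (Fin (d + 1))) 0 ∧
      |(e : EuclideanSpace ℝ (Fin (d + 1))) 0| ≤ τ},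
        ({x : EuclideanSpace ℝ (Fin (d + 1)) | τ / 2 ≤ |x 0|}.indicator
          (fun x => (∫⁻ s in Icc (-(1 / 2) : ℝ) (1 / 2), F (b x + s • x)) ^ p) e)
        ∂(surf (d + 1))
      = ∫⁻ e in {e : sphere (0 : EuclideanSpace ℝ (Fin (d + 1))) 1 |
      0 < ε * (e : EuclideanSpace ℝ (Fin (d + 1))) 0 ∧
      |(e : EuclideanSpace ℝ (Fin (d + 1))) 0| ≤ τ}, H e ∂(surf (d + 1)) := by
        have e1 : Measurable fun e : sphere (0 : EuclideanSpace ℝ (Fin (d + 1))) 1 =>
            |(e : EuclideanSpace ℝ (Fin (d + 1))) 0| := by fun_prop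
        have e2 : Measurable fun e : sphere (0 : EuclideanSpace ℝ (Fin (d + 1))) 1 =>
            ε * (e : EuclideanSpace ℝ (Fin (d + 1))) 0 := by fun_prop
        refine setLIntegral_congr_fun (MeasurableSet.inter (measurableSet_lt measurable_const e2)
          (measurableSet_le e1 measurable_const)) fun e he => ?_
        simp only [hH]
        by_cases h : τ / 2 ≤ |(e : EuclideanSpace ℝ (Fin (d + 1))) 0|
        · rw [indicator_of_mem (show (e : EuclideanSpace ℝ (Fin (d + 1))) ∈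
              {x : EuclideanSpace ℝ (Fin (d + 1)) | τ / 2 ≤ |x 0|} from h),
            indicator_of_mem (show (e : EuclideanSpace ℝ (Fin (d + 1))) ∈
              {x : EuclideanSpace ℝ (Fin (d + 1)) | τ / 2 ≤ |x 0| ∧ |x 0| ≤ τ} from ⟨h, he.2⟩)]
        · rw [indicator_of_notMem (show (e : EuclideanSpace ℝ (Fin (d + 1))) ∉
              {x : EuclideanSpace ℝ (Fin (d + 1)) | τ / 2 ≤ |x 0|} from h),
            indicator_of_notMem (show (e : EuclideanSpace ℝ (Fin (d + 1))) ∉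
              {x : EuclideanSpace ℝ (Fin (d + 1)) | τ / 2 ≤ |x 0| ∧ |x 0| ≤ τ} from
                fun h' => h h'.1)]
    _ ≤ (d + 1) * ENNReal.ofReal (2 * τ) * ∫⁻ w : Fin d → ℝ, H (dir τ ε w) :=
        lintegral_sphere_le hτ hε hHm
    _ ≤ (d + 1) * ENNReal.ofReal (2 * τ) * ∫⁻ w : Fin d → ℝ, S.indicator (fun w => 2 ^ p *
          (∫⁻ t in Icc (c w - 1 / 2) (c w + 1 / 2), fτ (t, B w + t • w)) ^ p) w := by
        gcongr with w
        exact hpoint w
    _ ≤ (d + 1) * ENNReal.ofReal (2 * τ) * (2 ^ p * (K * ENNReal.ofReal τ⁻¹)) := by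
        rw [lintegral_indicator hSm,
          lintegral_const_mul' _ _ (ENNReal.rpow_ne_top_of_nonneg hp0.le (by norm_num))]
        gcongr
        exact hL τ hτ B c hBm hcm
    _ = _ := by
        have e1 : ENNReal.ofReal (2 * τ) * ENNReal.ofReal τ⁻¹ = 2 := by
          rw [← ENNReal.ofReal_mul (by positivity), mul_assoc, mul_inv_cancel₀ hτ.ne']
          norm_num
        calc _ = (d + 1) * 2 ^ p * K * (ENNReal.ofReal (2 * τ) * ENNReal.ofReal τ⁻¹) := by
              ring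
          _ = _ := by rw [e1]; ring

/-- Both half shells. -/
lemma ch_full_shell {F : EuclideanSpace ℝ (Fin (d + 1)) → ℝ≥0∞} (hF : Measurable F)
    {p : ℝ} {K : ℝ≥0∞} (hp : 1 < p) (hL : LineBound d F p K)
    {b : EuclideanSpace ℝ (Fin (d + 1)) → EuclideanSpace ℝ (Fin (d + 1))} (hb : Measurable b)
    {τ : ℝ} (hτ : 0 < τ) :
    ∫⁻ e in {e : sphere (0 : EuclideanSpace ℝ (Fin (d + 1))) 1 |
      τ / 2 ≤ |(e : EuclideanSpace ℝ (Fin (d + 1))) 0| ∧
      |(e : EuclideanSpace ℝ (Fin (d + 1))) 0| ≤ τ},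
        (∫⁻ s in Icc (-(1 / 2) : ℝ) (1 / 2),
          F (b e + s • (e : EuclideanSpace ℝ (Fin (d + 1))))) ^ p
        ∂(surf (d + 1)) ≤
      4 * (d + 1) * 2 ^ p * K := by
  set G : sphere (0 : EuclideanSpace ℝ (Fin (d + 1))) 1 → ℝ≥0∞ := fun e =>
    ({x : EuclideanSpace ℝ (Fin (d + 1)) | τ / 2 ≤ |x 0|}.indicator
          (fun x => (∫⁻ s in Icc (-(1 / 2) : ℝ) (1 / 2), F (b x + s • x)) ^ p)
          (e : EuclideanSpace ℝ (Fin (d + 1)))) with hG
  set T : ℝ → Set (sphere (0 : EuclideanSpace ℝ (Fin (d + 1))) 1) := fun ε =>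
    {e | 0 < ε * (e : EuclideanSpace ℝ (Fin (d + 1))) 0 ∧
      |(e : EuclideanSpace ℝ (Fin (d + 1))) 0| ≤ τ} with hT
  have e1 : Measurable fun e : sphere (0 : EuclideanSpace ℝ (Fin (d + 1))) 1 =>
      |(e : EuclideanSpace ℝ (Fin (d + 1))) 0| := by fun_prop
  have hSm : MeasurableSet {e : sphere (0 : EuclideanSpace ℝ (Fin (d + 1))) 1 |
      τ / 2 ≤ |(e : EuclideanSpace ℝ (Fin (d + 1))) 0| ∧
      |(e : EuclideanSpace ℝ (Fin (d + 1))) 0| ≤ τ} :=
    (measurableSet_le measurable_const e1).inter (measurableSet_le e1 measurable_const)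
  have hsub : {e : sphere (0 : EuclideanSpace ℝ (Fin (d + 1))) 1 |
      τ / 2 ≤ |(e : EuclideanSpace ℝ (Fin (d + 1))) 0| ∧
      |(e : EuclideanSpace ℝ (Fin (d + 1))) 0| ≤ τ} ⊆ T 1 ∪ T (-1) := by
    rintro e ⟨he1, he2⟩
    have h0 : 0 < |(e : EuclideanSpace ℝ (Fin (d + 1))) 0| := by linarith
    rcases lt_or_gt_of_ne (abs_pos.1 h0) with h | h
    · right; exact ⟨by linarith, he2⟩
    · left; exact ⟨by linarith, he2⟩
  calc ∫⁻ e in {e : sphere (0 : EuclideanSpace ℝ (Fin (d + 1))) 1 |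
      τ / 2 ≤ |(e : EuclideanSpace ℝ (Fin (d + 1))) 0| ∧
      |(e : EuclideanSpace ℝ (Fin (d + 1))) 0| ≤ τ},
        (∫⁻ s in Icc (-(1 / 2) : ℝ) (1 / 2),
          F (b e + s • (e : EuclideanSpace ℝ (Fin (d + 1))))) ^ p
        ∂(surf (d + 1))
      = ∫⁻ e in {e : sphere (0 : EuclideanSpace ℝ (Fin (d + 1))) 1 |
      τ / 2 ≤ |(e : EuclideanSpace ℝ (Fin (d + 1))) 0| ∧
      |(e : EuclideanSpace ℝ (Fin (d + 1))) 0| ≤ τ}, G e ∂(surf (d + 1)) := by
        refine setLIntegral_congr_fun hSm fun e he => ?_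
        simp only [hG]
        rw [indicator_of_mem (show (e : EuclideanSpace ℝ (Fin (d + 1))) ∈
              {x : EuclideanSpace ℝ (Fin (d + 1)) | τ / 2 ≤ |x 0|} from he.1)]
    _ ≤ ∫⁻ e in T 1 ∪ T (-1), G e ∂(surf (d + 1)) := lintegral_mono_set hsub
    _ ≤ (∫⁻ e in T 1, G e ∂(surf (d + 1))) + ∫⁻ e in T (-1), G e ∂(surf (d + 1)) :=
        lintegral_union_le _ _ _
    _ ≤ 2 * (d + 1) * 2 ^ p * K +
        2 * (d + 1) * 2 ^ p * K :=
        add_le_add (ch_half_shell hF hp hL hb hτ (Or.inl rfl))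
          (ch_half_shell hF hp hL hb hτ (Or.inr rfl))
    _ = _ := by ring

/-- All directions with `κ ≤ |e 0|`. -/
lemma ch_steep_seg {F : EuclideanSpace ℝ (Fin (d + 1)) → ℝ≥0∞} (hF : Measurable F)
    {p : ℝ} {K : ℝ≥0∞} (hp : 1 < p) (hL : LineBound d F p K)
    {b : EuclideanSpace ℝ (Fin (d + 1)) → EuclideanSpace ℝ (Fin (d + 1))} (hb : Measurable b)
    {κ : ℝ} (hκ : 0 < κ) :
    ∫⁻ e in {e : sphere (0 : EuclideanSpace ℝ (Fin (d + 1))) 1 |
      κ ≤ |(e : EuclideanSpace ℝ (Fin (d + 1))) 0|},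
        (∫⁻ s in Icc (-(1 / 2) : ℝ) (1 / 2),
          F (b e + s • (e : EuclideanSpace ℝ (Fin (d + 1))))) ^ p
        ∂(surf (d + 1)) ≤
      (nsh κ : ℝ≥0∞) * (4 * (d + 1) * 2 ^ p *
        K) := by
  set T : ℕ → Set (sphere (0 : EuclideanSpace ℝ (Fin (d + 1))) 1) := fun j =>
    {e | (1 / 2 : ℝ) ^ j / 2 ≤ |(e : EuclideanSpace ℝ (Fin (d + 1))) 0| ∧
      |(e : EuclideanSpace ℝ (Fin (d + 1))) 0| ≤ (1 / 2 : ℝ) ^ j} with hT
  have hsub : {e : sphere (0 : EuclideanSpace ℝ (Fin (d + 1))) 1 |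
      κ ≤ |(e : EuclideanSpace ℝ (Fin (d + 1))) 0|} ⊆ ⋃ j ∈ Finset.range (nsh κ), T j := by
    intro e he
    have hnorm : ‖(e : EuclideanSpace ℝ (Fin (d + 1)))‖ = 1 := by simp
    have he1 : |(e : EuclideanSpace ℝ (Fin (d + 1))) 0| ≤ 1 := by
      have := PiLp.norm_apply_le (e : EuclideanSpace ℝ (Fin (d + 1))) 0
      rw [hnorm] at this
      simpa using this
    obtain ⟨j, hj, h1, h2⟩ := exists_shell hκ he he1
    exact mem_biUnion hj ⟨h1, h2⟩
  calc _ ≤ ∫⁻ e in ⋃ j ∈ Finset.range (nsh κ), T j,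
        (∫⁻ s in Icc (-(1 / 2) : ℝ) (1 / 2),
          F (b e + s • (e : EuclideanSpace ℝ (Fin (d + 1))))) ^ p
        ∂(surf (d + 1)) := lintegral_mono_set hsub
    _ ≤ ∑ j ∈ Finset.range (nsh κ), ∫⁻ e in T j,
        (∫⁻ s in Icc (-(1 / 2) : ℝ) (1 / 2),
          F (b e + s • (e : EuclideanSpace ℝ (Fin (d + 1))))) ^ p
        ∂(surf (d + 1)) := lintegral_biUnion_le' _ _ _ _
    _ ≤ ∑ _j ∈ Finset.range (nsh κ), (4 * (d + 1) * 2 ^ p *
        K) :=
        Finset.sum_le_sum fun j _ => ch_full_shell hF hp hL hb (by positivity)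
    _ = _ := by
        rw [Finset.sum_const, Finset.card_range, nsmul_eq_mul]

/-- Longer segments. -/
lemma ch_steep_long {F : EuclideanSpace ℝ (Fin (d + 1)) → ℝ≥0∞} (hF : Measurable F)
    {p : ℝ} {K : ℝ≥0∞} (hp : 1 < p) (hL : LineBound d F p K)
    {b : EuclideanSpace ℝ (Fin (d + 1)) → EuclideanSpace ℝ (Fin (d + 1))} (hb : Measurable b)
    {κ : ℝ} (hκ : 0 < κ) :
    ∫⁻ e in {e : sphere (0 : EuclideanSpace ℝ (Fin (d + 1))) 1 |
      κ ≤ |(e : EuclideanSpace ℝ (Fin (d + 1))) 0|},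
        (∫⁻ s in Icc (-(3 / 2) : ℝ) (3 / 2),
          F (b e + s • (e : EuclideanSpace ℝ (Fin (d + 1))))) ^ p
        ∂(surf (d + 1)) ≤
      3 ^ p * (3 * ((nsh κ : ℝ≥0∞) * (4 * (d + 1) * 2 ^ p *
        K))) := by
  have hp0 : 0 < p := by linarith
  set W : ℝ → sphere (0 : EuclideanSpace ℝ (Fin (d + 1))) 1 → ℝ≥0∞ := fun j e =>
    ∫⁻ s in Icc (-(1 / 2) : ℝ) (1 / 2),
      F ((b e + j • (e : EuclideanSpace ℝ (Fin (d + 1)))) +
        s • (e : EuclideanSpace ℝ (Fin (d + 1)))) with hW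
  have hWm : ∀ j, Measurable (W j) := by
    intro j
    have h1 : Measurable fun z : sphere (0 : EuclideanSpace ℝ (Fin (d + 1))) 1 × ℝ =>
        F ((b z.1 + j • (z.1 : EuclideanSpace ℝ (Fin (d + 1)))) +
          z.2 • (z.1 : EuclideanSpace ℝ (Fin (d + 1)))) := by
      have hc : Measurable fun z : sphere (0 : EuclideanSpace ℝ (Fin (d + 1))) 1 × ℝ =>
        (z.1 : EuclideanSpace ℝ (Fin (d + 1))) := measurable_subtype_coe.comp measurable_fst
      exact hF.comp (((hb.comp hc).add (hc.const_smul j)).add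
        (measurable_snd.smul hc))
    exact h1.lintegral_prod_right' (ν := volume.restrict (Icc (-(1 / 2) : ℝ) (1 / 2)))
  have hshift : ∀ (j : ℝ) (e : sphere (0 : EuclideanSpace ℝ (Fin (d + 1))) 1),
      ∫⁻ s in Icc (j - 1 / 2) (j + 1 / 2),
        F (b e + s • (e : EuclideanSpace ℝ (Fin (d + 1)))) = W j e := by
    intro j e
    have h1 := (measurePreserving_add_left (volume : Measure ℝ) j).setLIntegral_comp_preimage
      (measurableSet_Icc (a := j - 1 / 2) (b := j + 1 / 2))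
      (f := fun s => F (b e + s • (e : EuclideanSpace ℝ (Fin (d + 1)))))
      (hF.comp (by fun_prop))
    rw [← h1]
    simp only [hW]
    have h2 : (j + ·) ⁻¹' Icc (j - 1 / 2) (j + 1 / 2) = Icc (-(1 / 2) : ℝ) (1 / 2) := by
      ext s
      simp only [mem_preimage, mem_Icc]
      constructor
      · rintro ⟨h, h'⟩; constructor <;> linarith
      · rintro ⟨h, h'⟩; constructor <;> linarith
    rw [h2]
    refine lintegral_congr fun s => ?_
    rw [add_smul, add_assoc]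
  have hpt : ∀ e : sphere (0 : EuclideanSpace ℝ (Fin (d + 1))) 1,
      (∫⁻ s in Icc (-(3 / 2) : ℝ) (3 / 2),
          F (b e + s • (e : EuclideanSpace ℝ (Fin (d + 1))))) ^ p ≤
        3 ^ p * (W (-1) e ^ p + W 0 e ^ p + W 1 e ^ p) := by
    intro e
    refine le_trans (ENNReal.rpow_le_rpow ?_ hp0.le) (add_three_rpow hp0.le _ _ _)
    rw [← hshift, ← hshift, ← hshift]
    have hun : Icc (-(3 / 2) : ℝ) (3 / 2) ⊆ (Icc ((-1:ℝ) - 1 / 2) (-1 + 1 / 2) ∪
        Icc ((0:ℝ) - 1 / 2) (0 + 1 / 2)) ∪ Icc ((1:ℝ) - 1 / 2) (1 + 1 / 2) := by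
      intro s hs
      simp only [mem_union, mem_Icc] at hs ⊢
      by_cases h1 : s ≤ -1 / 2
      · left; left; constructor <;> linarith [hs.1]
      · by_cases h2 : s ≤ 1 / 2
        · left; right; constructor <;> linarith
        · right; constructor <;> linarith [hs.2]
    calc _ ≤ _ := lintegral_mono_set hun
      _ ≤ _ := lintegral_union_le _ _ _
      _ ≤ _ := add_le_add (lintegral_union_le _ _ _) le_rfl
  have hone : ∀ j : ℝ, ∫⁻ e in {e : sphere (0 : EuclideanSpace ℝ (Fin (d + 1))) 1 |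
      κ ≤ |(e : EuclideanSpace ℝ (Fin (d + 1))) 0|}, W j e ^ p ∂(surf (d + 1)) ≤
      (nsh κ : ℝ≥0∞) * (4 * (d + 1) * 2 ^ p *
        K) := by
    intro j
    exact ch_steep_seg hF hp hL (b := fun x => b x + j • x) (hb.add (measurable_id.const_smul j))
      hκ
  calc _ ≤ ∫⁻ e in {e : sphere (0 : EuclideanSpace ℝ (Fin (d + 1))) 1 |
      κ ≤ |(e : EuclideanSpace ℝ (Fin (d + 1))) 0|},
        3 ^ p * (W (-1) e ^ p + W 0 e ^ p + W 1 e ^ p) ∂(surf (d + 1)) :=
        lintegral_mono hpt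
    _ = 3 ^ p * ((∫⁻ e in {e : sphere (0 : EuclideanSpace ℝ (Fin (d + 1))) 1 |
      κ ≤ |(e : EuclideanSpace ℝ (Fin (d + 1))) 0|}, W (-1) e ^ p ∂(surf (d + 1))) +
        (∫⁻ e in {e : sphere (0 : EuclideanSpace ℝ (Fin (d + 1))) 1 |
      κ ≤ |(e : EuclideanSpace ℝ (Fin (d + 1))) 0|}, W 0 e ^ p ∂(surf (d + 1))) +
        ∫⁻ e in {e : sphere (0 : EuclideanSpace ℝ (Fin (d + 1))) 1 |
      κ ≤ |(e : EuclideanSpace ℝ (Fin (d + 1))) 0|}, W 1 e ^ p ∂(surf (d + 1))) := by
        have m1 : Measurable fun e => W (-1) e ^ p := (hWm (-1)).pow_const p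
        have m2 : Measurable fun e => W 0 e ^ p := (hWm 0).pow_const p
        have m3 : Measurable fun e => W 1 e ^ p := (hWm 1).pow_const p
        have m12 : Measurable fun e => W (-1) e ^ p + W 0 e ^ p := m1.add m2
        have m123 : Measurable fun e => W (-1) e ^ p + W 0 e ^ p + W 1 e ^ p := m12.add m3
        rw [lintegral_const_mul _ m123, lintegral_add_left m12, lintegral_add_left m1]
    _ ≤ _ := by
        gcongr
        calc _ ≤ _ := add_le_add (add_le_add (hone (-1)) (hone 0)) (hone 1)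
          _ = _ := by ring

/-- Bound for selections. -/
lemma ch_steep_ballAvg {F : EuclideanSpace ℝ (Fin (d + 1)) → ℝ≥0∞} (hF : Measurable F)
    {p : ℝ} {K : ℝ≥0∞} (hp : 1 < p) (hL : LineBound d F p K)
    {b : EuclideanSpace ℝ (Fin (d + 1)) → EuclideanSpace ℝ (Fin (d + 1))} (hb : Measurable b)
    {κ : ℝ} (hκ : 0 < κ) {ρ : ℝ} (hρ : 0 < ρ) :
    ∫⁻ e in {e : sphere (0 : EuclideanSpace ℝ (Fin (d + 1))) 1 |
      κ ≤ |(e : EuclideanSpace ℝ (Fin (d + 1))) 0|},
        ballAvg ρ F (b e) e ^ p ∂(surf (d + 1)) ≤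
      3 ^ p * (3 * ((nsh κ : ℝ≥0∞) * (4 * (d + 1) * 2 ^ p *
        K))) := by
  have hp1 : 1 < p := hp
  have hp0 : 0 < p := by linarith
  set B := closedBall (0 : EuclideanSpace ℝ (Fin (d + 1))) ρ with hB
  set μ := (volume : Measure (EuclideanSpace ℝ (Fin (d + 1)))).restrict B with hμ
  have hμu : μ univ = volume B := by rw [hμ, Measure.restrict_apply_univ]
  have h0 : volume B ≠ 0 := (measure_closedBall_pos _ _ hρ).ne'
  have ht : volume B ≠ ∞ := measure_closedBall_lt_top.ne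
  set K' : ℝ≥0∞ := 3 ^ p * (3 * ((nsh κ : ℝ≥0∞) * (4 * (d + 1) * 2 ^ p *
        K))) with hK
  set S : Set (sphere (0 : EuclideanSpace ℝ (Fin (d + 1))) 1) :=
    {e | κ ≤ |(e : EuclideanSpace ℝ (Fin (d + 1))) 0|} with hS
  have hc : Measurable fun z : sphere (0 : EuclideanSpace ℝ (Fin (d + 1))) 1 ×
      EuclideanSpace ℝ (Fin (d + 1)) => (z.1 : EuclideanSpace ℝ (Fin (d + 1))) :=
    measurable_subtype_coe.comp measurable_fst
  set I : sphere (0 : EuclideanSpace ℝ (Fin (d + 1))) 1 → EuclideanSpace ℝ (Fin (d + 1)) → ℝ≥0∞ :=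
    fun e x => ∫⁻ s in Icc (-(3 / 2) : ℝ) (3 / 2),
      F (b e + x + s • (e : EuclideanSpace ℝ (Fin (d + 1)))) with hI
  have hIm : Measurable (Function.uncurry I) := by
    have hc2 : Measurable fun z : (sphere (0 : EuclideanSpace ℝ (Fin (d + 1))) 1 ×
      EuclideanSpace ℝ (Fin (d + 1))) × ℝ => (z.1.1 : EuclideanSpace ℝ (Fin (d + 1))) :=
      hc.comp measurable_fst
    have h1 : Measurable fun z : (sphere (0 : EuclideanSpace ℝ (Fin (d + 1))) 1 ×
      EuclideanSpace ℝ (Fin (d + 1))) × ℝ =>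
        F (b z.1.1 + z.1.2 + z.2 • (z.1.1 : EuclideanSpace ℝ (Fin (d + 1)))) :=
      hF.comp (((hb.comp hc2).add (measurable_snd.comp measurable_fst)).add
        (measurable_snd.smul hc2))
    exact h1.lintegral_prod_right' (ν := volume.restrict (Icc (-(3 / 2) : ℝ) (3 / 2)))
  calc ∫⁻ e in S, ballAvg ρ F (b e) e ^ p ∂(surf (d + 1))
      ≤ ∫⁻ e in S, (volume B)⁻¹ * ∫⁻ x, I e x ^ p ∂μ ∂(surf (d + 1)) := by
        refine lintegral_mono fun e => ?_
        have h := jensen μ hp1 (g := I e)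
          (hIm.comp (measurable_prodMk_left (x := e))).aemeasurable (by rw [hμu]; exact h0)
          (by rw [hμu]; exact ht)
        rw [hμu] at h
        exact h
    _ = (volume B)⁻¹ * ∫⁻ e in S, ∫⁻ x, I e x ^ p ∂μ ∂(surf (d + 1)) :=
        lintegral_const_mul' _ _ (ENNReal.inv_ne_top.2 h0)
    _ = (volume B)⁻¹ * ∫⁻ x, ∫⁻ e in S, I e x ^ p ∂(surf (d + 1)) ∂μ := by
        have : IsFiniteMeasure (surf (d + 1)) := by unfold surf; infer_instance
        rw [lintegral_lintegral_swap (hIm.pow_const p).aemeasurable]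
    _ ≤ (volume B)⁻¹ * ∫⁻ _x, K' ∂μ := by
        gcongr with x
        exact ch_steep_long hF hp hL (b := fun y => b y + x) (hb.add measurable_const) hκ
    _ = K' := by
        rw [lintegral_const, hμu, mul_comm K', ← mul_assoc, ENNReal.inv_mul_cancel h0 ht, one_mul]

/-- The supremum over a sequence of centres. -/
lemma ch_steep_iSup {F : EuclideanSpace ℝ (Fin (d + 1)) → ℝ≥0∞} (hF : Measurable F)
    {p : ℝ} {K : ℝ≥0∞} (hp : 1 < p) (hL : LineBound d F p K)
    {κ : ℝ} (hκ : 0 < κ) {ρ : ℝ} (hρ : 0 < ρ)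
    (q : ℕ → EuclideanSpace ℝ (Fin (d + 1))) :
    ∫⁻ e in {e : sphere (0 : EuclideanSpace ℝ (Fin (d + 1))) 1 |
      κ ≤ |(e : EuclideanSpace ℝ (Fin (d + 1))) 0|},
        (⨆ k, ballAvg ρ F (q k) e) ^ p ∂(surf (d + 1)) ≤
      3 ^ p * (3 * ((nsh κ : ℝ≥0∞) * (4 * (d + 1) * 2 ^ p *
        K))) := by
  have hp0 : 0 < p := by linarith
  have hBm := measurable_ballAvg (ρ := ρ) hF
  have hc : Measurable fun e : sphere (0 : EuclideanSpace ℝ (Fin (d + 1))) 1 =>
    (e : EuclideanSpace ℝ (Fin (d + 1))) := measurable_subtype_coe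
  set Q : ℕ → sphere (0 : EuclideanSpace ℝ (Fin (d + 1))) 1 → ℝ≥0∞ := fun n e =>
    (⨆ k ∈ Iic n, ballAvg ρ F (q k) e) ^ p with hQ
  have hkm : ∀ k, Measurable fun e : sphere (0 : EuclideanSpace ℝ (Fin (d + 1))) 1 =>
      ballAvg ρ F (q k) (e : EuclideanSpace ℝ (Fin (d + 1))) := by
    intro k
    have h1 : Measurable fun e : sphere (0 : EuclideanSpace ℝ (Fin (d + 1))) 1 =>
      ((q k, (e : EuclideanSpace ℝ (Fin (d + 1)))) :
        EuclideanSpace ℝ (Fin (d + 1)) × EuclideanSpace ℝ (Fin (d + 1))) :=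
      measurable_const.prodMk hc
    have h2 := hBm.comp h1
    simp only [Function.comp_def] at h2
    exact h2
  have hQm : ∀ n, Measurable (Q n) := by
    intro n
    exact (Measurable.biSup (Iic n) (to_countable _) (fun k _ => hkm k)).pow_const p
  have hmono : Monotone Q := by
    intro n m hnm e
    refine ENNReal.rpow_le_rpow ?_ hp0.le
    exact biSup_mono fun k hk => le_trans hk hnm
  have hsup : ∀ e : sphere (0 : EuclideanSpace ℝ (Fin (d + 1))) 1, (⨆ k, ballAvg ρ F (q k)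
      (e : EuclideanSpace ℝ (Fin (d + 1)))) ^ p = ⨆ n, Q n e := by
    intro e
    have h1 : (⨆ k, ballAvg ρ F (q k)
      (e : EuclideanSpace ℝ (Fin (d + 1)))) = ⨆ n, ⨆ k ∈ Iic n,
        ballAvg ρ F (q k) (e : EuclideanSpace ℝ (Fin (d + 1))) := by
      refine le_antisymm ?_ ?_
      · exact iSup_le fun k => le_iSup_of_le k (le_iSup₂_of_le k (mem_Iic.2 le_rfl) le_rfl)
      · exact iSup_le fun n => iSup₂_le fun k _ => le_iSup (fun k =>
          ballAvg ρ F (q k) (e : EuclideanSpace ℝ (Fin (d + 1)))) k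
    rw [h1]
    exact (ENNReal.orderIsoRpow p hp0).map_iSup _
  simp_rw [hsup]
  rw [lintegral_iSup hQm hmono]
  refine iSup_le fun n => ?_
  obtain ⟨b, hb, hbk⟩ := exists_selection hBm q n
  refine le_trans (lintegral_mono fun e => ?_) (ch_steep_ballAvg hF hp hL hb hκ hρ)
  refine ENNReal.rpow_le_rpow ?_ hp0.le
  exact iSup₂_le fun k hk => hbk e k hk

theorem s_chain : S_chain := by
  intro m H p K hH hp hL κ ρ hκ hρ q
  exact ch_steep_iSup hH hp hL hκ hρ q

end Pool.Agent.NH82.MS
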