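import Pool.Agent.NH82.MS.Stm

set_option autoImplicit false

/-!
MS-16: from sets to functions at the critical exponent.
-/

open MeasureTheory Set ENNReal NNReal Metric
open scoped Pointwise

namespace Pool.Agent.NH82.MS

open Pool.Agent.TH539 (ker phi qq ballAvg kakeyaMax nsh surf pt tube)
open Pool.Agent.TH539.SA (Vel)

/-! ## Measurability of the maximal function -/

lemma fc_convex_tube {m : ℕ} {δ : ℝ} (e b : EuclideanSpace ℝ (Fin (m + 1))) :
    Convex ℝ (tube δ e b) := by
  intro x hx y hy s t hs ht hst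
  have hb : s • x + t • y - b = s • (x - b) + t • (y - b) := by
    have h0 : b = s • b + t • b := by rw [← add_smul, hst, one_smul]
    conv_lhs => rw [h0]
    rw [smul_sub, smul_sub]
    abel
  have hin : inner ℝ (s • x + t • y - b) e = s * inner ℝ (x - b) e + t * inner ℝ (y - b) e := by
    rw [hb, inner_add_left, inner_smul_left, inner_smul_left]
    simp
  constructor
  · rw [hin]
    have h1 := abs_le.1 hx.1
    have h2 := abs_le.1 hy.1
    rw [abs_le]
    constructor <;> nlinarith
  · have h3 : (s • x + t • y - b) - (inner ℝ (s • x + t • y - b) e : ℝ) • e =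
        s • ((x - b) - (inner ℝ (x - b) e : ℝ) • e) +
        t • ((y - b) - (inner ℝ (y - b) e : ℝ) • e) := by
      rw [hin, hb]
      simp only [smul_sub, smul_smul, add_smul]
      abel
    rw [h3]
    have h1 := hx.2
    have h2 := hy.2
    calc ‖s • ((x - b) - (inner ℝ (x - b) e : ℝ) • e) +
        t • ((y - b) - (inner ℝ (y - b) e : ℝ) • e)‖
        ≤ ‖s • ((x - b) - (inner ℝ (x - b) e : ℝ) • e)‖ +
        ‖t • ((y - b) - (inner ℝ (y - b) e : ℝ) • e)‖ := norm_add_le _ _
      _ ≤ s * δ + t * δ := by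
          rw [norm_smul, norm_smul, Real.norm_eq_abs, Real.norm_eq_abs, abs_of_nonneg hs,
            abs_of_nonneg ht]
          gcongr
      _ = δ := by rw [← add_mul, hst, one_mul]

lemma fc_tube_shift {m : ℕ} {δ : ℝ} (e b : EuclideanSpace ℝ (Fin (m + 1))) :
    tube δ e b = (fun y => y - b) ⁻¹' (tube δ e 0) := by
  ext y
  simp [tube]

lemma fc_volume_tube {m : ℕ} {δ : ℝ} (e b : EuclideanSpace ℝ (Fin (m + 1))) :
    volume (tube δ e b) = volume (tube δ e 0) := by
  rw [fc_tube_shift e b]
  exact (measurePreserving_sub_right volume b).measure_preimage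
    (Pool.Agent.TH539.measurableSet_tube δ e 0).nullMeasurableSet

lemma fc_iSup {m : ℕ} (δ : ℝ) (e : EuclideanSpace ℝ (Fin (m + 1)))
    {F : EuclideanSpace ℝ (Fin (m + 1)) → ℝ≥0∞} (hF : Measurable F) :
    ⨆ a, (volume (tube δ e a))⁻¹ * ∫⁻ y in tube δ e a, F y =
      ⨆ k : ℕ, (volume (tube δ e (TopologicalSpace.denseSeq (EuclideanSpace ℝ (Fin (m + 1))) k)))⁻¹ *
        ∫⁻ y in tube δ e (TopologicalSpace.denseSeq (EuclideanSpace ℝ (Fin (m + 1))) k), F y := by
  set q := TopologicalSpace.denseSeq (EuclideanSpace ℝ (Fin (m + 1))) with hq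
  refine le_antisymm ?_ (iSup_le fun k => le_iSup (fun a => (volume (tube δ e a))⁻¹ *
    ∫⁻ y in tube δ e a, F y) (q k))
  refine iSup_le fun a => ?_
  have hV : ∀ b, volume (tube δ e b) = volume (tube δ e 0) := fc_volume_tube e
  simp_rw [hV]
  rw [← ENNReal.mul_iSup]
  gcongr
  set T := tube δ e (0 : EuclideanSpace ℝ (Fin (m + 1))) with hT
  have hTm : ∀ b, MeasurableSet (tube δ e b) := fun b => Pool.Agent.TH539.measurableSet_tube δ e b
  have hex : ∀ n : ℕ, ∃ k, dist a (q k) < 1 / ((n : ℝ) + 1) := fun n =>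
    (TopologicalSpace.denseRange_denseSeq (EuclideanSpace ℝ (Fin (m + 1)))).exists_dist_lt a
      (by positivity)
  choose k hk using hex
  have hlim : Filter.Tendsto (fun n => q (k n)) Filter.atTop (nhds a) := by
    rw [tendsto_iff_dist_tendsto_zero]
    refine squeeze_zero (fun _ => dist_nonneg) (fun n => ?_) tendsto_one_div_add_atTop_nhds_zero_nat
    rw [dist_comm]
    exact (hk n).le
  have hnull : volume (frontier (tube δ e a)) = 0 := (fc_convex_tube e a).addHaar_frontier volume
  calc ∫⁻ y in tube δ e a, F y = ∫⁻ y, (tube δ e a).indicator F y :=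
        (lintegral_indicator (hTm a) F).symm
    _ ≤ ∫⁻ y, Filter.liminf (fun n => (tube δ e (q (k n))).indicator F y) Filter.atTop := by
        refine lintegral_mono_ae ?_
        have : ∀ᵐ y, y ∉ frontier (tube δ e a) := by
          rw [ae_iff]
          simpa using hnull
        filter_upwards [this] with y hy
        by_cases hya : y ∈ tube δ e a
        · have hint : y ∈ interior (tube δ e a) := by
            by_contra h
            exact hy ⟨subset_closure hya, h⟩
          have hsub : (fun z => y - z) ⁻¹' interior T ∈ nhds a := by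
            have hcont : Continuous fun z : EuclideanSpace ℝ (Fin (m + 1)) => y - z := by fun_prop
            refine (isOpen_interior.preimage hcont).mem_nhds ?_
            show y - a ∈ interior T
            have h4 : interior (tube δ e a) = (fun y => y - a) ⁻¹' interior T := by
              rw [fc_tube_shift e a]
              exact (Homeomorph.subRight a).preimage_interior T |>.symm
            rw [h4] at hint
            exact hint
          have hev : ∀ᶠ n in Filter.atTop, (tube δ e (q (k n))).indicator F y = F y := by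
            filter_upwards [hlim hsub] with n hn
            refine indicator_of_mem ?_ _
            rw [fc_tube_shift e (q (k n))]
            exact (interior_subset (show y - q (k n) ∈ interior T from hn) : y - q (k n) ∈ T)
          rw [indicator_of_mem hya]
          refine le_of_eq ?_
          have : Filter.Tendsto (fun n => (tube δ e (q (k n))).indicator F y) Filter.atTop
              (nhds (F y)) :=
            tendsto_const_nhds.congr' (by filter_upwards [hev] with n hn using hn.symm)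
          exact this.liminf_eq.symm
        · rw [indicator_of_notMem hya]
          exact zero_le
    _ ≤ Filter.liminf (fun n => ∫⁻ y, (tube δ e (q (k n))).indicator F y) Filter.atTop :=
        lintegral_liminf_le fun n => hF.indicator (hTm _)
    _ ≤ ⨆ n, ∫⁻ y, (tube δ e (q (k n))).indicator F y :=
        le_trans Filter.liminf_le_limsup Filter.limsup_le_iSup
    _ ≤ _ := by
        refine iSup_le fun n => ?_
        rw [lintegral_indicator (hTm _)]
        exact le_iSup (fun k => ∫⁻ y in tube δ e (q k), F y) (k n)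

lemma fc_measurable {m : ℕ} (δ : ℝ) {f : EuclideanSpace ℝ (Fin (m + 1)) → ℝ} (hf : Measurable f) :
    Measurable fun e : EuclideanSpace ℝ (Fin (m + 1)) => kakeyaMax δ f e := by
  unfold kakeyaMax
  simp_rw [fc_iSup δ _ hf.enorm]
  refine Measurable.iSup fun k => ?_
  set b := TopologicalSpace.denseSeq (EuclideanSpace ℝ (Fin (m + 1))) k
  set S : Set (EuclideanSpace ℝ (Fin (m + 1)) × EuclideanSpace ℝ (Fin (m + 1))) :=
    {p | p.2 ∈ tube δ p.1 b} with hS
  have hSm : MeasurableSet S := by
    have h1 : Continuous fun p : EuclideanSpace ℝ (Fin (m + 1)) × EuclideanSpace ℝ (Fin (m + 1)) =>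
      |inner ℝ (p.2 - b) p.1| := by fun_prop
    have h2 : Continuous fun p : EuclideanSpace ℝ (Fin (m + 1)) × EuclideanSpace ℝ (Fin (m + 1)) =>
      ‖(p.2 - b) - (inner ℝ (p.2 - b) p.1 : ℝ) • p.1‖ := by fun_prop
    exact ((isClosed_le h1 continuous_const).inter (isClosed_le h2 continuous_const)).measurableSet
  have h1 : Measurable fun e => volume (tube δ e b) := measurable_measure_prodMk_left hSm
  have h2 : Measurable fun e => ∫⁻ y in tube δ e b, ‖f y‖ₑ := by
    have h3 : ∀ e, ∫⁻ y in tube δ e b, ‖f y‖ₑ =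
        ∫⁻ y, S.indicator (fun p => ‖f p.2‖ₑ) (e, y) := by
      intro e
      rw [← lintegral_indicator (Pool.Agent.TH539.measurableSet_tube δ e b)]
      refine lintegral_congr fun y => ?_
      by_cases hy : y ∈ tube δ e b
      · rw [indicator_of_mem hy, indicator_of_mem (show (e, y) ∈ S from hy)]
      · rw [indicator_of_notMem hy, indicator_of_notMem (show (e, y) ∉ S from hy)]
    simp_rw [h3]
    exact ((hf.comp measurable_snd).enorm.indicator hSm).lintegral_prod_right'
  exact h1.inv.mul h2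

/-! ## Dyadic layers -/

lemma fc_layer {A y : ℝ} (hA : 0 < A) (J : ℕ) :
    min y (A * 2 ^ J) ≤ A + ∑ j ∈ Finset.range J, A * 2 ^ j * (if A * 2 ^ j < y then 1 else 0) := by
  induction J with
  | zero => simp
  | succ J ih =>
    rw [Finset.sum_range_succ, ← add_assoc]
    have h2 : 0 < A * 2 ^ J := by positivity
    refine le_trans ?_ (add_le_add_left ih _)
    split_ifs with h
    · rw [min_eq_right h.le, mul_one]
      refine (min_le_right _ _).trans (le_of_eq ?_)
      rw [pow_succ]; ring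
    · rw [min_eq_left (not_lt.1 h), mul_zero, add_zero]
      exact min_le_left _ _

lemma fc_full {A : ℝ} (hA : 0 < A) {n : ℕ} (hn : 1 ≤ n) (J : ℕ) :
    ∑ j ∈ Finset.range J, (A * 2 ^ j) ^ n ≤ (A * 2 ^ J) ^ n := by
  induction J with
  | zero => simp; positivity
  | succ J ih =>
    rw [Finset.sum_range_succ]
    have h2 : 0 < A * 2 ^ J := by positivity
    have h3 : (A * 2 ^ (J + 1)) ^ n = 2 ^ n * (A * 2 ^ J) ^ n := by
      rw [← mul_pow]; congr 1; rw [pow_succ]; ring
    rw [h3]
    have h4 : (2:ℝ) ≤ 2 ^ n := by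
      calc (2:ℝ) = 2 ^ 1 := (pow_one _).symm
        _ ≤ 2 ^ n := pow_le_pow_right₀ (by norm_num) hn
    have h5 : 0 < (A * 2 ^ J) ^ n := by positivity
    nlinarith

lemma fc_pow {A y : ℝ} (hA : 0 < A) (hy : 0 ≤ y) {n : ℕ} (hn : 1 ≤ n) (J : ℕ) :
    ∑ j ∈ Finset.range J, (A * 2 ^ j) ^ n * (if A * 2 ^ j < y then 1 else 0) ≤ 2 * y ^ n := by
  induction J with
  | zero => simp; positivity
  | succ J ih =>
    by_cases h : A * 2 ^ J < y
    · calc ∑ j ∈ Finset.range (J + 1), (A * 2 ^ j) ^ n * (if A * 2 ^ j < y then (1:ℝ) else 0)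
          ≤ ∑ j ∈ Finset.range (J + 1), (A * 2 ^ j) ^ n := by
            refine Finset.sum_le_sum fun j _ => ?_
            have : 0 < (A * 2 ^ j) ^ n := by positivity
            split_ifs
            · rw [mul_one]
            · rw [mul_zero]; exact this.le
        _ ≤ (A * 2 ^ J) ^ n + (A * 2 ^ J) ^ n := by
            rw [Finset.sum_range_succ]
            exact add_le_add_left (fc_full hA hn J) _
        _ ≤ y ^ n + y ^ n := by
            have : (A * 2 ^ J) ^ n ≤ y ^ n := by gcongr
            linarith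
        _ = _ := by ring
    · rw [Finset.sum_range_succ, if_neg h, mul_zero, add_zero]
      exact ih

/-- The maximal function of a function bounded by a sum of layers. -/
lemma fc_sub {m : ℕ} {δ : ℝ} {e : EuclideanSpace ℝ (Fin (m + 1))}
    {g : EuclideanSpace ℝ (Fin (m + 1)) → ℝ} {ι : Type} (s : Finset ι) (c0 : ℝ≥0∞) (c : ι → ℝ≥0∞)
    (F : ι → EuclideanSpace ℝ (Fin (m + 1)) → ℝ) (hF : ∀ i, Measurable (F i))
    (hg : ∀ y, ‖g y‖ₑ ≤ c0 + ∑ i ∈ s, c i * ‖F i y‖ₑ) :
    kakeyaMax δ g e ≤ c0 + ∑ i ∈ s, c i * kakeyaMax δ (F i) e := by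
  unfold kakeyaMax
  refine iSup_le fun a => ?_
  calc (volume (tube δ e a))⁻¹ * ∫⁻ y in tube δ e a, ‖g y‖ₑ
      ≤ (volume (tube δ e a))⁻¹ * ∫⁻ y in tube δ e a, (c0 + ∑ i ∈ s, c i * ‖F i y‖ₑ) := by
        gcongr with y
        exact hg y
    _ = (volume (tube δ e a))⁻¹ * (c0 * volume (tube δ e a) +
          ∑ i ∈ s, c i * ∫⁻ y in tube δ e a, ‖F i y‖ₑ) := by
        rw [lintegral_add_left measurable_const, setLIntegral_const,
          lintegral_finsetSum s fun i _ => ((hF i).enorm.const_mul _)]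
        congr 2
        refine Finset.sum_congr rfl fun i _ => ?_
        rw [lintegral_const_mul _ (hF i).enorm]
    _ = c0 * ((volume (tube δ e a))⁻¹ * volume (tube δ e a)) +
          ∑ i ∈ s, c i * ((volume (tube δ e a))⁻¹ * ∫⁻ y in tube δ e a, ‖F i y‖ₑ) := by
        rw [mul_add, Finset.mul_sum]
        congr 1
        · ring
        · refine Finset.sum_congr rfl fun i _ => ?_
          ring
    _ ≤ c0 * 1 + ∑ i ∈ s, c i * ⨆ a, ((volume (tube δ e a))⁻¹ * ∫⁻ y in tube δ e a, ‖F i y‖ₑ) := by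
        gcongr with i _
        · exact ENNReal.inv_mul_le_one _
        · exact le_iSup (fun a => (volume (tube δ e a))⁻¹ * ∫⁻ y in tube δ e a, ‖F i y‖ₑ) a
    _ = _ := by rw [mul_one]

/-- **MS-16.** -/
theorem s_funCrit (h13 : S_rot) (h15 : S_setCrit) : S_funCrit := by
  intro d hd
  obtain ⟨C1, hC1, hset⟩ := h15 d hd
  obtain ⟨c, hc, htriv⟩ := Pool.Agent.TH539.kakeya_trivial (d := d + 1) (by omega)
  have hfin : IsFiniteMeasure (surf (d + 2)) := by unfold surf; infer_instance
  set σ : ℝ := (surf (d + 2) univ).toReal with hσ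
  have hσ0 : 0 ≤ σ := ENNReal.toReal_nonneg
  have hσeq : surf (d + 2) univ = ENNReal.ofReal σ :=
    (ENNReal.ofReal_toReal (measure_ne_top _ _)).symm
  refine ⟨3 ^ (d + 1) * ((c + 1) ^ (d + 2) * σ + C1 * 2), by positivity, ?_⟩
  intro Cv Λ hV hmono hvol hΛ f K M hf hK hM hfun δ hδ hδ1
  have hlog : 0 ≤ Real.log (1 / δ) := Real.log_nonneg (by rw [le_div_iff₀ hδ]; linarith)
  set L : ℝ := 1 + Real.log (1 / δ) with hL
  have hL1 : 1 ≤ L := by linarith
  have hL0 : 0 < L := by linarith
  set I0 : ℝ≥0∞ := ∫⁻ x, ‖f x‖ₑ ^ (d + 2) with hI0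
  have hKe : (1:ℝ≥0∞) ≤ (K:ℝ≥0∞) := by exact_mod_cast hK
  have hKp : (1:ℝ≥0∞) ≤ (K:ℝ≥0∞) ^ (d + 1) := one_le_pow₀ hKe
  have hNM : 1 ≤ Λ * M := by
    calc (1:ℝ≥0∞) = 1 * 1 := (one_mul 1).symm
      _ ≤ _ := mul_le_mul' hΛ hM
  have hNM2 : 1 ≤ (K:ℝ≥0∞) ^ (d + 1) * Λ * M := by
    calc (1:ℝ≥0∞) = 1 * 1 := (one_mul 1).symm
      _ ≤ (K:ℝ≥0∞) ^ (d + 1) * (Λ * M) := mul_le_mul' hKp hNM
      _ = _ := by ring
  have hCpos : 0 < 3 ^ (d + 1) * ((c + 1) ^ (d + 2) * σ + C1 * 2) := by positivity
  by_cases hItop : I0 = ∞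
  · rw [hItop, ENNReal.mul_top (by intro h; rw [h] at hNM2; simp at hNM2), ENNReal.mul_top]
    · exact le_top
    · simp only [ne_eq, ENNReal.ofReal_eq_zero, not_le]; positivity
  by_cases hI00 : I0 = 0
  · have hae : (fun x => ‖f x‖ₑ ^ (d + 2)) =ᵐ[volume] 0 :=
      (lintegral_eq_zero_iff (hf.enorm.pow_const _)).1 hI00
    have hae2 : (fun x => ‖f x‖ₑ) =ᵐ[volume] 0 := by
      filter_upwards [hae] with x hx
      exact pow_eq_zero_iff (by omega) |>.1 hx
    have h0 : ∀ e, kakeyaMax δ f e = 0 := by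
      intro e
      unfold kakeyaMax
      refine le_antisymm (iSup_le fun a => ?_) zero_le
      have : ∫⁻ y in tube δ e a, ‖f y‖ₑ = 0 := by
        refine le_antisymm ((setLIntegral_le_lintegral _ _).trans ?_) zero_le
        rw [lintegral_congr_ae hae2]; simp
      rw [this, mul_zero]
    simp [h0]
  -- the main case
  set A : ℝ := I0.toReal ^ (1 / ((d:ℝ) + 2)) with hA
  have hIpos : 0 < I0.toReal := ENNReal.toReal_pos hI00 hItop
  have hApos : 0 < A := by positivity
  have hAI : A ^ (d + 2) = I0.toReal := by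
    rw [hA, ← Real.rpow_natCast, ← Real.rpow_mul hIpos.le]
    push_cast
    rw [one_div_mul_cancel (by positivity), Real.rpow_one]
  have hAIe : ENNReal.ofReal (A ^ (d + 2)) = I0 := by rw [hAI, ENNReal.ofReal_toReal hItop]
  set g : EuclideanSpace ℝ (Fin (d + 2)) → ℝ := fun x => min |f x| (A / δ) with hg
  -- the number of layers
  set J : ℕ := ⌈Real.logb 2 (1 / δ)⌉₊ with hJ
  have hJ1 : 1 / δ ≤ 2 ^ J := by
    have h1 : Real.logb 2 (1 / δ) ≤ J := Nat.le_ceil _
    have h2 := (Real.logb_le_iff_le_rpow (by norm_num) (by positivity)).1 h1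
    rwa [Real.rpow_natCast] at h2
  have hJ2 : (J:ℝ) ≤ 2 * L := by
    have h0 : 0 ≤ Real.logb 2 (1 / δ) :=
      Real.logb_nonneg (by norm_num) (by rw [le_div_iff₀ hδ]; linarith)
    have h1 := (Nat.ceil_lt_add_one h0).le
    have h2 : Real.logb 2 (1 / δ) ≤ 2 * Real.log (1 / δ) := by
      unfold Real.logb
      rw [div_le_iff₀ (Real.log_pos (by norm_num))]
      have := Real.log_two_gt_d9
      nlinarith
    calc (J:ℝ) ≤ Real.logb 2 (1 / δ) + 1 := h1
      _ ≤ 2 * Real.log (1 / δ) + 1 := by linarith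
      _ ≤ _ := by rw [hL]; linarith
  -- the layers
  have hch := fun j : ℕ => hfun (A * 2 ^ j) (by positivity)
  choose E R m hM1 hsub hsum using hch
  set F : ℕ × Fin K → EuclideanSpace ℝ (Fin (d + 2)) → ℝ :=
    fun p x => (E p.1 p.2).indicator 1 (R p.1 p.2 x) with hF
  have hFm : ∀ p, Measurable (F p) := fun p =>
    (measurable_one.indicator (hM1 p.1 p.2).1).comp (R p.1 p.2).continuous.measurable
  set s : Finset (ℕ × Fin K) := Finset.range J ×ˢ Finset.univ with hs
  have hgle : ∀ y, ‖g y‖ₑ ≤ ENNReal.ofReal A +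
      ∑ p ∈ s, ENNReal.ofReal (A * 2 ^ p.1) * ‖F p y‖ₑ := by
    intro y
    have hg0 : 0 ≤ g y := le_min (abs_nonneg _) (by positivity)
    have h1 : g y ≤ A + ∑ j ∈ Finset.range J, A * 2 ^ j * (if A * 2 ^ j < |f y| then 1 else 0) := by
      refine le_trans ?_ (fc_layer hApos J)
      refine min_le_min le_rfl ?_
      rw [div_eq_mul_one_div]
      gcongr
    rw [Real.enorm_of_nonneg hg0]
    calc ENNReal.ofReal (g y) ≤ ENNReal.ofReal (A + ∑ j ∈ Finset.range J,
          A * 2 ^ j * (if A * 2 ^ j < |f y| then 1 else 0)) := ENNReal.ofReal_le_ofReal h1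
      _ = ENNReal.ofReal A + ∑ j ∈ Finset.range J,
          ENNReal.ofReal (A * 2 ^ j * (if A * 2 ^ j < |f y| then 1 else 0)) := by
          have hnn : ∀ j, 0 ≤ A * 2 ^ j * (if A * 2 ^ j < |f y| then (1:ℝ) else 0) := by
            intro j
            split_ifs <;> positivity
          rw [ENNReal.ofReal_add hApos.le (Finset.sum_nonneg fun j _ => hnn j),
            ENNReal.ofReal_sum_of_nonneg fun j _ => hnn j]
      _ ≤ ENNReal.ofReal A + ∑ j ∈ Finset.range J, ∑ k : Fin K,
          ENNReal.ofReal (A * 2 ^ j) * ‖F (j, k) y‖ₑ := by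
          gcongr with j _
          split_ifs with h
          · obtain ⟨k, hk⟩ := mem_iUnion.1 (hsub j h)
            refine le_trans ?_ (Finset.single_le_sum (f := fun k =>
              ENNReal.ofReal (A * 2 ^ j) * ‖F (j, k) y‖ₑ) (fun _ _ => zero_le) (Finset.mem_univ k))
            have : F (j, k) y = 1 := by
              simp only [hF]
              rw [indicator_of_mem (show R j k y ∈ E j k from hk)]
              rfl
            simp [this]
          · simp
      _ = _ := by rw [hs, Finset.sum_product]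
  -- pointwise bound for the maximal function
  have hpt : ∀ e : sphere (0 : EuclideanSpace ℝ (Fin (d + 2))) 1,
      kakeyaMax δ f e ^ (d + 2) ≤ ((3 * L * K : ℝ).toNNReal : ℝ≥0∞) ^ (d + 1) *
        (ENNReal.ofReal ((c + 1) * A) ^ (d + 2) +
          ∑ p ∈ s, (ENNReal.ofReal (A * 2 ^ p.1) * kakeyaMax δ (F p) e) ^ (d + 2)) := by
    intro e
    have h1 := Pool.Agent.TH539.split_le hc hδ (htriv δ e f hδ (by simp) hf).1 hf hApos hAIe.ge
    have h2 := fc_sub (e := (e : EuclideanSpace ℝ (Fin (d + 2)))) (δ := δ) s _ _ F hFm hgle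
    have h3 : kakeyaMax δ f e ≤ ENNReal.ofReal ((c + 1) * A) +
        ∑ p ∈ s, ENNReal.ofReal (A * 2 ^ p.1) * kakeyaMax δ (F p) e := by
      calc kakeyaMax δ f e ≤ _ := h1
        _ ≤ (ENNReal.ofReal A + ∑ p ∈ s, ENNReal.ofReal (A * 2 ^ p.1) * kakeyaMax δ (F p) e) +
            ENNReal.ofReal (c * A) := add_le_add_left h2 _
        _ = _ := by
            rw [add_mul, one_mul, ENNReal.ofReal_add (by positivity) hApos.le]
            ring
    set Y : Option (ℕ × Fin K) → ℝ≥0∞ := fun o => o.elim (ENNReal.ofReal ((c + 1) * A))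
      (fun p => ENNReal.ofReal (A * 2 ^ p.1) * kakeyaMax δ (F p) e) with hY
    have h4 : kakeyaMax δ f e ≤ ∑ o ∈ Finset.insertNone s, Y o := by
      rw [Finset.sum_insertNone]
      exact h3
    have h5 := ENNReal.rpow_sum_le_const_mul_sum_rpow (Finset.insertNone s) Y
      (p := ((d + 2 : ℕ) : ℝ)) (by push_cast; linarith [(Nat.cast_nonneg d : (0:ℝ) ≤ d)])
    have hcard : ((Finset.insertNone s).card : ℝ≥0∞) ≤ ((3 * L * K : ℝ).toNNReal : ℝ≥0∞) := by
      rw [Finset.card_insertNone, hs, Finset.card_product, Finset.card_range, Finset.card_univ,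
        Fintype.card_fin]
      change ((J * K + 1 : ℕ) : ℝ≥0∞) ≤ ENNReal.ofReal (3 * L * K)
      rw [← ENNReal.ofReal_natCast]
      refine ENNReal.ofReal_le_ofReal ?_
      push_cast
      have hK1 : (1:ℝ) ≤ K := by exact_mod_cast hK
      nlinarith
    calc kakeyaMax δ f e ^ (d + 2) ≤ (∑ o ∈ Finset.insertNone s, Y o) ^ (d + 2) := by gcongr
      _ = (∑ o ∈ Finset.insertNone s, Y o) ^ ((d + 2 : ℕ) : ℝ) := (ENNReal.rpow_natCast _ _).symm
      _ ≤ _ := h5
      _ = ((Finset.insertNone s).card : ℝ≥0∞) ^ (d + 1) *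
          ∑ o ∈ Finset.insertNone s, Y o ^ (d + 2) := by
          rw [show (((d + 2 : ℕ) : ℝ) - 1) = ((d + 1 : ℕ) : ℝ) by push_cast; ring,
            ENNReal.rpow_natCast]
          simp_rw [ENNReal.rpow_natCast]
      _ ≤ _ := by
          rw [Finset.sum_insertNone]
          exact mul_le_mul' (by gcongr) le_rfl
  -- integration
  have hint : ∀ p : ℕ × Fin K, ∫⁻ e : sphere (0 : EuclideanSpace ℝ (Fin (d + 2))) 1,
      (ENNReal.ofReal (A * 2 ^ p.1) * kakeyaMax δ (F p) e) ^ (d + 2) ∂(surf (d + 2)) ≤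
      ENNReal.ofReal (C1 * L ^ (d + 3)) * Λ * (ENNReal.ofReal ((A * 2 ^ p.1) ^ (d + 2)) *
        m p.1 p.2) := by
    intro p
    calc ∫⁻ e : sphere (0 : EuclideanSpace ℝ (Fin (d + 2))) 1,
      (ENNReal.ofReal (A * 2 ^ p.1) * kakeyaMax δ (F p) e) ^ (d + 2) ∂(surf (d + 2))
        = ENNReal.ofReal ((A * 2 ^ p.1) ^ (d + 2)) *
          ∫⁻ e : sphere (0 : EuclideanSpace ℝ (Fin (d + 2))) 1,
            kakeyaMax δ (F p) e ^ (d + 2) ∂(surf (d + 2)) := by
          simp_rw [mul_pow]
          rw [lintegral_const_mul' _ _ (by finiteness), ← mul_pow,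
            ENNReal.ofReal_pow (by positivity)]
      _ = ENNReal.ofReal ((A * 2 ^ p.1) ^ (d + 2)) *
          ∫⁻ e : sphere (0 : EuclideanSpace ℝ (Fin (d + 2))) 1,
            kakeyaMax δ ((E p.1 p.2).indicator 1) e ^ (d + 2) ∂(surf (d + 2)) := by
          congr 1
          exact h13 (d + 1) (R p.1 p.2) ((E p.1 p.2).indicator 1) δ (d + 2)
      _ ≤ ENNReal.ofReal ((A * 2 ^ p.1) ^ (d + 2)) *
          (ENNReal.ofReal (C1 * L ^ (d + 3)) * (Λ * m p.1 p.2)) := by
          gcongr
          exact hset Cv Λ hV hmono hvol hΛ (E p.1 p.2) (m p.1 p.2) (hM1 p.1 p.2) δ hδ hδ1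
      _ = _ := by ring
  have hmeas : ∀ p : ℕ × Fin K, Measurable fun e : sphere (0 : EuclideanSpace ℝ (Fin (d + 2))) 1 =>
      (ENNReal.ofReal (A * 2 ^ p.1) * kakeyaMax δ (F p) e) ^ (d + 2) := fun p =>
    (((fc_measurable δ (hFm p)).comp measurable_subtype_coe).const_mul _).pow_const _
  have hlay : ∑ p ∈ s, ENNReal.ofReal ((A * 2 ^ p.1) ^ (d + 2)) * m p.1 p.2 ≤ M * (2 * I0) := by
    calc ∑ p ∈ s, ENNReal.ofReal ((A * 2 ^ p.1) ^ (d + 2)) * m p.1 p.2
        = ∑ j ∈ Finset.range J, ENNReal.ofReal ((A * 2 ^ j) ^ (d + 2)) * ∑ k, m j k := by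
          rw [hs, Finset.sum_product]
          refine Finset.sum_congr rfl fun j _ => ?_
          rw [Finset.mul_sum]
      _ ≤ ∑ j ∈ Finset.range J, ENNReal.ofReal ((A * 2 ^ j) ^ (d + 2)) *
            (M * volume {x | A * 2 ^ j < |f x|}) := by
          gcongr with j _
          exact hsum j
      _ = M * ∑ j ∈ Finset.range J, ENNReal.ofReal ((A * 2 ^ j) ^ (d + 2)) *
            volume {x | A * 2 ^ j < |f x|} := by
          rw [Finset.mul_sum]
          refine Finset.sum_congr rfl fun j _ => ?_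
          ring
      _ ≤ M * (2 * I0) := by
          gcongr
          have hms : ∀ j : ℕ, MeasurableSet {x | A * 2 ^ j < |f x|} := fun j =>
            measurableSet_lt measurable_const (measurable_norm.comp hf)
          calc ∑ j ∈ Finset.range J, ENNReal.ofReal ((A * 2 ^ j) ^ (d + 2)) *
                volume {x | A * 2 ^ j < |f x|}
              = ∫⁻ x, ∑ j ∈ Finset.range J, ENNReal.ofReal ((A * 2 ^ j) ^ (d + 2)) *
                  {x | A * 2 ^ j < |f x|}.indicator 1 x := by
                rw [lintegral_finsetSum _ fun j _ =>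
                  (measurable_one.indicator (hms j)).const_mul _]
                refine Finset.sum_congr rfl fun j _ => ?_
                rw [lintegral_const_mul _ (measurable_one.indicator (hms j)),
                  lintegral_indicator_one (hms j)]
            _ ≤ ∫⁻ x, 2 * ‖f x‖ₑ ^ (d + 2) := by
                refine lintegral_mono fun x => ?_
                have h1 := fc_pow hApos (abs_nonneg (f x)) (n := d + 2) (by omega) J
                calc ∑ j ∈ Finset.range J, ENNReal.ofReal ((A * 2 ^ j) ^ (d + 2)) *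
                      {x | A * 2 ^ j < |f x|}.indicator 1 x
                    = ENNReal.ofReal (∑ j ∈ Finset.range J,
                      (A * 2 ^ j) ^ (d + 2) * (if A * 2 ^ j < |f x| then 1 else 0)) := by
                      rw [ENNReal.ofReal_sum_of_nonneg]
                      · refine Finset.sum_congr rfl fun j _ => ?_
                        split_ifs with h
                        · rw [indicator_of_mem (show x ∈ {x | A * 2 ^ j < |f x|} from h)]
                          simp
                        · rw [indicator_of_notMem (show x ∉ {x | A * 2 ^ j < |f x|} from h)]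
                          simp
                      · intro j _
                        split_ifs <;> positivity
                  _ ≤ ENNReal.ofReal (2 * |f x| ^ (d + 2)) := ENNReal.ofReal_le_ofReal h1
                  _ = _ := by
                      rw [ENNReal.ofReal_mul (by norm_num), Real.enorm_eq_ofReal_abs,
                        ENNReal.ofReal_pow (abs_nonneg _)]
                      norm_num
            _ = 2 * I0 := by rw [lintegral_const_mul _ (hf.enorm.pow_const _)]
  have hLK : ((3 * L * K : ℝ).toNNReal : ℝ≥0∞) ^ (d + 1) =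
      ENNReal.ofReal (3 ^ (d + 1) * L ^ (d + 1)) * (K:ℝ≥0∞) ^ (d + 1) := by
    change ENNReal.ofReal (3 * L * K) ^ (d + 1) = _
    rw [ENNReal.ofReal_mul (by positivity), ENNReal.ofReal_natCast, mul_pow,
      ← ENNReal.ofReal_pow (by positivity), mul_pow]
  calc ∫⁻ e : sphere (0 : EuclideanSpace ℝ (Fin (d + 2))) 1, kakeyaMax δ f e ^ (d + 2)
      ∂(surf (d + 2))
      ≤ ∫⁻ e : sphere (0 : EuclideanSpace ℝ (Fin (d + 2))) 1,
        ((3 * L * K : ℝ).toNNReal : ℝ≥0∞) ^ (d + 1) *
        (ENNReal.ofReal ((c + 1) * A) ^ (d + 2) +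
          ∑ p ∈ s, (ENNReal.ofReal (A * 2 ^ p.1) * kakeyaMax δ (F p) e) ^ (d + 2))
            ∂(surf (d + 2)) := lintegral_mono hpt
    _ = ((3 * L * K : ℝ).toNNReal : ℝ≥0∞) ^ (d + 1) *
        (ENNReal.ofReal ((c + 1) * A) ^ (d + 2) * ENNReal.ofReal σ +
          ∑ p ∈ s, ∫⁻ e : sphere (0 : EuclideanSpace ℝ (Fin (d + 2))) 1,
            (ENNReal.ofReal (A * 2 ^ p.1) * kakeyaMax δ (F p) e) ^ (d + 2) ∂(surf (d + 2))) := by
        rw [lintegral_const_mul' _ _ (by finiteness), lintegral_add_left measurable_const,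
          lintegral_const, hσeq, lintegral_finsetSum _ fun p _ => hmeas p]
    _ ≤ ((3 * L * K : ℝ).toNNReal : ℝ≥0∞) ^ (d + 1) *
        (ENNReal.ofReal ((c + 1) * A) ^ (d + 2) * ENNReal.ofReal σ +
          ∑ p ∈ s, ENNReal.ofReal (C1 * L ^ (d + 3)) * Λ *
            (ENNReal.ofReal ((A * 2 ^ p.1) ^ (d + 2)) * m p.1 p.2)) := by
        gcongr with p _
        exact hint p
    _ ≤ ((3 * L * K : ℝ).toNNReal : ℝ≥0∞) ^ (d + 1) *
        (ENNReal.ofReal ((c + 1) ^ (d + 2) * σ) * I0 +
          ENNReal.ofReal (C1 * L ^ (d + 3)) * Λ * (M * (2 * I0))) := by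
        rw [← Finset.mul_sum]
        refine mul_le_mul' le_rfl (add_le_add (le_of_eq ?_) (mul_le_mul' le_rfl hlay))
        rw [← ENNReal.ofReal_pow (by positivity), mul_pow, ENNReal.ofReal_mul (by positivity),
          hAIe, ENNReal.ofReal_mul (p := (c + 1) ^ (d + 2)) (by positivity)]
        ring
    _ ≤ ((3 * L * K : ℝ).toNNReal : ℝ≥0∞) ^ (d + 1) *
        (ENNReal.ofReal ((c + 1) ^ (d + 2) * σ * L ^ (d + 3)) * (Λ * M * I0) +
          ENNReal.ofReal (C1 * 2 * L ^ (d + 3)) * (Λ * M * I0)) := by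
        refine mul_le_mul' le_rfl (add_le_add ?_ ?_)
        · refine mul_le_mul' (ENNReal.ofReal_le_ofReal ?_) ?_
          · exact le_mul_of_one_le_right (by positivity) (one_le_pow₀ hL1)
          · calc I0 = 1 * I0 := (one_mul _).symm
              _ ≤ _ := by gcongr
        · refine le_of_eq ?_
          rw [show C1 * 2 * L ^ (d + 3) = (C1 * L ^ (d + 3)) * 2 by ring,
            ENNReal.ofReal_mul (q := 2) (by positivity)]
          norm_num
          ring
    _ = _ := by
        rw [hLK, ← add_mul, ← ENNReal.ofReal_add (by positivity) (by positivity)]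
        rw [show 3 ^ (d + 1) * ((c + 1) ^ (d + 2) * σ + C1 * 2) * L ^ (2 * d + 4) =
          (3 ^ (d + 1) * L ^ (d + 1)) * ((c + 1) ^ (d + 2) * σ * L ^ (d + 3) +
            C1 * 2 * L ^ (d + 3)) by
            rw [show 2 * d + 4 = (d + 1) + (d + 3) by ring, pow_add L (d + 1) (d + 3)]; ring,
          ENNReal.ofReal_mul (p := 3 ^ (d + 1) * L ^ (d + 1)) (by positivity)]
        ring

end Pool.Agent.NH82.MS
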