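import Pool.Agent.NH82.MS.Stm

set_option autoImplicit false

/-! # MS-2 (job 523, helper59): lower bound for the kernel integral -/

open MeasureTheory Set ENNReal NNReal Metric
open scoped Pointwise

namespace Pool.Agent.NH82.MS

open Pool.Agent.TH539 (ker phi qq ballAvg kakeyaMax nsh surf pt tube)

lemma kl_fin {ν : Measure ℝ} {a b : ℝ} (hν : ν ≤ volume.restrict (Icc a b)) (s : Set ℝ) :
    ν s ≠ ∞ := by
  refine ne_top_of_le_ne_top ?_ ((hν s).trans (measure_mono (subset_univ s)))
  rw [Measure.restrict_apply_univ, Real.volume_Icc]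
  exact ENNReal.ofReal_ne_top

lemma kl_add {ν : Measure ℝ} (hfin : ∀ s, ν s ≠ ∞) {a x y : ℝ} (hax : a ≤ x) (hxy : x ≤ y) :
    (ν (Ioc a y)).toReal = (ν (Ioc a x)).toReal + (ν (Ioc x y)).toReal := by
  have h1 : Ioc a y = Ioc a x ∪ Ioc x y := (Ioc_union_Ioc_eq_Ioc hax hxy).symm
  have h2 : Disjoint (Ioc a x) (Ioc x y) := by
    rw [Set.disjoint_left]
    intro t ht ht'
    exact absurd ht.2 (not_le.mpr ht'.1)
  rw [h1, measure_union h2 measurableSet_Ioc, ENNReal.toReal_add (hfin _) (hfin _)]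

lemma kl_le {ν : Measure ℝ} {a b : ℝ} (hν : ν ≤ volume.restrict (Icc a b)) {x y : ℝ}
    (hxy : x ≤ y) : (ν (Ioc x y)).toReal ≤ y - x := by
  have : ν (Ioc x y) ≤ ENNReal.ofReal (y - x) := by
    rw [← Real.volume_Ioc]
    refine (hν _).trans ?_
    exact Measure.restrict_apply_le _ _
  exact ENNReal.toReal_le_of_le_ofReal (by linarith) this

lemma kl_cont {ν : Measure ℝ} {a b : ℝ} (hν : ν ≤ volume.restrict (Icc a b)) :
    ContinuousOn (fun x => (ν (Ioc a x)).toReal) (Icc a b) := by
  have hkey : ∀ x ∈ Icc a b, ∀ y ∈ Icc a b, x ≤ y →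
      dist ((ν (Ioc a x)).toReal) ((ν (Ioc a y)).toReal) ≤ 1 * dist x y := by
    intro x hx y hy hxy
    have h1 := kl_add (kl_fin hν) hx.1 hxy
    have h2 := kl_le hν hxy
    have h3 : 0 ≤ (ν (Ioc x y)).toReal := ENNReal.toReal_nonneg
    rw [Real.dist_eq, Real.dist_eq, abs_sub_comm, abs_sub_comm x y, abs_of_nonneg (by linarith),
      abs_of_nonneg (by linarith)]
    linarith
  have : LipschitzOnWith 1 (fun x => (ν (Ioc a x)).toReal) (Icc a b) := by
    refine LipschitzOnWith.of_dist_le_mul fun x hx y hy => ?_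
    rcases le_total x y with h | h
    · simpa using hkey x hx y hy h
    · rw [dist_comm, dist_comm x y]; simpa using hkey y hy x hx h
  exact this.continuousOn

lemma kl_pieces {ν : Measure ℝ} {a b : ℝ} (hν : ν ≤ volume.restrict (Icc a b)) (hab : a ≤ b)
    {θ : ℝ} (hθ : 0 < θ) (hG : ENNReal.ofReal θ ≤ ν (Ioc a b)) (d : ℕ) :
    ∃ P : Fin (d + 1) → Set ℝ,
      (∀ i, ENNReal.ofReal (θ / (2 * d + 1)) ≤ ν (P i)) ∧
      (∀ i k, i ≠ k → ∀ s ∈ P i, ∀ t ∈ P k, θ / (2 * d + 1) ≤ |s - t|) ∧
      (∀ i, MeasurableSet (P i)) := by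
  set f : ℝ → ℝ := fun x => (ν (Ioc a x)).toReal with hf
  have hd : (0:ℝ) < 2 * d + 1 := by positivity
  set τ := θ / (2 * d + 1) with hτ
  have hτpos : 0 < τ := by positivity
  have hfin := kl_fin hν
  have hfa : f a = 0 := by simp [hf]
  have hfb : θ ≤ f b := (ENNReal.ofReal_le_iff_le_toReal (hfin _)).1 hG
  have hivt := intermediate_value_Icc hab (kl_cont hν)
  have hx : ∀ j : ℕ, j ≤ 2 * d + 1 → ∃ x ∈ Icc a b, f x = j * τ := by
    intro j hj
    have hj' : (j:ℝ) ≤ 2 * d + 1 := by exact_mod_cast hj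
    have : (j:ℝ) * τ ∈ Icc (f a) (f b) := by
      rw [hfa]
      refine ⟨by positivity, le_trans ?_ hfb⟩
      calc (j:ℝ) * τ ≤ (2 * d + 1) * τ := by gcongr
        _ = θ := by rw [hτ]; field_simp
    exact hivt this
  choose x hxI hxf using hx
  have hmono : ∀ {u w : ℝ}, u ∈ Icc a b → w ∈ Icc a b → f u < f w → u < w := by
    intro u w hu hw h
    by_contra hcon
    push Not at hcon
    have := kl_add hfin hw.1 hcon
    have h3 : 0 ≤ (ν (Ioc w u)).toReal := ENNReal.toReal_nonneg
    simp only [hf] at h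
    linarith
  refine ⟨fun i => Ioc (x (2 * i) (by have := i.isLt; omega)) (x (2 * i + 1) (by have := i.isLt; omega)),
    ?_, ?_, fun i => measurableSet_Ioc⟩
  · intro i
    have hlt : x (2 * i) (by have := i.isLt; omega) < x (2 * i + 1) (by have := i.isLt; omega) := by
      apply hmono (hxI _ _) (hxI _ _)
      rw [hxf, hxf]
      push_cast
      nlinarith
    have h1 := kl_add hfin (hxI (2 * i) (by have := i.isLt; omega)).1 hlt.le
    have h2 := hxf (2 * i) (by have := i.isLt; omega)
    have h3 := hxf (2 * i + 1) (by have := i.isLt; omega)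
    simp only [hf] at h2 h3
    rw [h2, h3] at h1
    push_cast at h1
    refine (ENNReal.ofReal_le_iff_le_toReal (hfin _)).2 ?_
    nlinarith
  · have main : ∀ i k : Fin (d + 1), i < k →
        ∀ s ∈ Ioc (x (2 * i) (by have := i.isLt; omega)) (x (2 * i + 1) (by have := i.isLt; omega)),
        ∀ t ∈ Ioc (x (2 * k) (by have := k.isLt; omega)) (x (2 * k + 1) (by have := k.isLt; omega)),
        τ ≤ t - s := by
      intro i k hik s hs t ht
      have hik' : (i:ℕ) + 1 ≤ k := hik
      have hki : ((i:ℕ):ℝ) + 1 ≤ ((k:ℕ):ℝ) := by exact_mod_cast hik'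
      have hlt : x (2 * i + 1) (by have := i.isLt; omega) < x (2 * k) (by have := k.isLt; omega) := by
        apply hmono (hxI _ _) (hxI _ _)
        rw [hxf, hxf]
        push_cast
        nlinarith
      have h1 := kl_add hfin (hxI (2 * i + 1) (by have := i.isLt; omega)).1 hlt.le
      have h2 := hxf (2 * i + 1) (by have := i.isLt; omega)
      have h3 := hxf (2 * k) (by have := k.isLt; omega)
      have h4 := kl_le hν hlt.le
      simp only [hf] at h2 h3
      rw [h2, h3] at h1
      push_cast at h1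
      have h5 := hs.2
      have h6 := ht.1
      nlinarith
    intro i k hik s hs t ht
    rcases lt_or_gt_of_ne hik with h | h
    · rw [abs_sub_comm]
      exact (main i k h s hs t ht).trans (le_abs_self _)
    · exact (main k i h t ht s hs).trans (le_abs_self _)

theorem s_kerlow : S_kerlow := by
  intro d θ hθ ν a b hν lam hlam hlow
  have hfin := kl_fin hν
  haveI : IsFiniteMeasure ν := ⟨lt_top_iff_ne_top.mpr (hfin univ)⟩
  have hab : a ≤ b := by
    by_contra h
    push Not at h
    have h1 : ν univ ≤ 0 := by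
      refine (hν univ).trans ?_
      rw [Icc_eq_empty (not_le.mpr h), Measure.restrict_empty]
      simp
    have h2 := hlow.trans h1
    have h3 : ENNReal.ofReal lam ≠ 0 := by simpa using hlam
    exact h3 (le_antisymm h2 zero_le)
  have hIoc : ENNReal.ofReal lam ≤ ν (Ioc a b) := by
    refine hlow.trans ?_
    have h1 : ν univ ≤ ν (Ioc a b) + ν (Ioc a b)ᶜ := by
      rw [← Set.union_compl_self (Ioc a b)]
      exact measure_union_le _ _
    have h2 : ν (Ioc a b)ᶜ = 0 := by
      refine le_antisymm ((hν _).trans ?_) zero_le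
      rw [Measure.restrict_apply measurableSet_Ioc.compl]
      have h3 : (Ioc a b)ᶜ ∩ Icc a b ⊆ {a} := by
        rintro t ⟨h3, h4⟩
        rw [mem_compl_iff, mem_Ioc, not_and, not_le] at h3
        rw [mem_singleton_iff]
        by_contra h5
        have h6 : a < t := lt_of_le_of_ne h4.1 (Ne.symm h5)
        exact absurd h4.2 (not_le.mpr (h3 h6))
      exact (measure_mono h3).trans (le_of_eq Real.volume_singleton)
    rw [h2, add_zero] at h1
    exact h1
  obtain ⟨P, hPvol, hPgap, hPm⟩ := kl_pieces hν hab hlam hIoc d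
  have hd : (0:ℝ) < 2 * d + 1 := by positivity
  set g := lam / (2 * d + 1) with hg
  have hgpos : 0 < g := by positivity
  have hpi : MeasurableSet (Set.pi univ P) := MeasurableSet.univ_pi hPm
  have hkerp : ∀ t ∈ Set.pi univ P, (ENNReal.ofReal g ^ θ) ^ ((d + 1) * d) ≤ ker θ t := by
    intro t ht
    exact Pool.Agent.TH539.ker_ge hθ fun i k hik =>
      hPgap i k hik _ (ht i (mem_univ i)) _ (ht k (mem_univ k))
  calc ENNReal.ofReal g ^ (qq d θ)
      = (ENNReal.ofReal g ^ θ) ^ ((d + 1) * d) * ENNReal.ofReal g ^ (d + 1) := by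
        rw [← ENNReal.rpow_natCast, ← ENNReal.rpow_natCast, ← ENNReal.rpow_mul,
          ← ENNReal.rpow_add_of_nonneg _ _ (by positivity) (by positivity)]
        congr 1
        unfold qq
        push_cast
        ring
    _ ≤ (ENNReal.ofReal g ^ θ) ^ ((d + 1) * d) * (Measure.pi fun _ => ν) (Set.pi univ P) := by
        gcongr
        rw [Measure.pi_pi]
        calc ENNReal.ofReal g ^ (d + 1) = ∏ _i : Fin (d + 1), ENNReal.ofReal g := by simp
          _ ≤ _ := Finset.prod_le_prod' fun i _ => hPvol i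
    _ = ∫⁻ _t in Set.pi univ P, (ENNReal.ofReal g ^ θ) ^ ((d + 1) * d) ∂(Measure.pi fun _ => ν) := by
        rw [setLIntegral_const]
    _ ≤ ∫⁻ t in Set.pi univ P, ker θ t ∂(Measure.pi fun _ => ν) :=
        setLIntegral_mono' hpi fun t ht => hkerp t ht
    _ ≤ ∫⁻ t, ker θ t ∂(Measure.pi fun _ => ν) := setLIntegral_le_lintegral _ _

end Pool.Agent.NH82.MS
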