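import Pool.Agent.NH82.MS.Stm

/-! # Project MS: from the weak type to the restricted strong type -/

set_option autoImplicit false

open MeasureTheory Set ENNReal NNReal Metric
open scoped Pointwise

namespace Pool.Agent.NH82.MS

/-- measurability of the smoothing -/
theorem ly_sm_meas (ρ : ℝ) {G : ℝ × ℝ → ℝ≥0∞} (hG : Measurable G) : Measurable (sm ρ G) := by
  have h : Measurable fun x : (ℝ × ℝ) × ℝ => G (x.1.1, x.1.2 + x.2) := hG.comp (by fun_prop)
  have h2 : Measurable fun z : ℝ × ℝ => ∫⁻ β in Icc (-ρ) ρ, G (z.1, z.2 + β) :=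
    h.lintegral_prod_right'
  exact h2.const_mul _

theorem ly_sm_le {ρ : ℝ} (hρ : 0 < ρ) {G : ℝ × ℝ → ℝ≥0∞} (hG : ∀ z, G z ≤ 1) (z : ℝ × ℝ) :
    sm ρ G z ≤ 1 := by
  unfold sm
  have h1 : ∫⁻ β in Icc (-ρ) ρ, G (z.1, z.2 + β) ≤ ENNReal.ofReal (2 * ρ) := by
    calc ∫⁻ β in Icc (-ρ) ρ, G (z.1, z.2 + β) ≤ ∫⁻ _ in Icc (-ρ) ρ, 1 :=
          lintegral_mono fun β => hG _
      _ = ENNReal.ofReal (2 * ρ) := by
          rw [setLIntegral_one, Real.volume_Icc]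
          congr 1
          ring
  have h2 : ENNReal.ofReal (2 * ρ) ≠ 0 := by
    rw [Ne, ENNReal.ofReal_eq_zero, not_le]
    positivity
  calc _ ≤ (ENNReal.ofReal (2 * ρ))⁻¹ * ENNReal.ofReal (2 * ρ) := by gcongr
    _ = 1 := ENNReal.inv_mul_cancel h2 ENNReal.ofReal_ne_top

theorem ly_ind_le {α : Type*} (S : Set α) (x : α) : S.indicator (1 : α → ℝ≥0∞) x ≤ 1 := by
  by_cases h : x ∈ S
  · rw [indicator_of_mem h]
    exact le_rfl
  · rw [indicator_of_notMem h]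
    exact bot_le

theorem ly_LL_le {d : ℕ} {ρ : ℝ} (hρ : 0 < ρ) (Y : Set (ℝ × ℝ)) (Z : Set (ℝ × (Fin d → ℝ)))
    (b₁ : ℝ × (Fin d → ℝ) → ℝ) (b₂ : ℝ × (Fin d → ℝ) → (Fin d → ℝ)) (c : ℝ × (Fin d → ℝ) → ℝ)
    (v : ℝ × (Fin d → ℝ)) : LL ρ Y Z b₁ b₂ c v ≤ 1 := by
  unfold LL
  calc _ ≤ ∫⁻ _ in Icc (c v - 1 / 2) (c v + 1 / 2), (1 : ℝ≥0∞) := by
        refine lintegral_mono fun t => ?_
        calc _ ≤ (1 : ℝ≥0∞) * 1 := mul_le_mul' (ly_ind_le _ _)
              (ly_sm_le hρ (fun z => ly_ind_le _ _) _)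
          _ = 1 := mul_one 1
    _ = 1 := by
        rw [setLIntegral_one, Real.volume_Icc]
        ring_nf
        simp

theorem ly_LL_meas {d : ℕ} {ρ : ℝ} {Y : Set (ℝ × ℝ)} (hY : MeasurableSet Y)
    {Z : Set (ℝ × (Fin d → ℝ))} (hZ : MeasurableSet Z)
    {b₁ : ℝ × (Fin d → ℝ) → ℝ} {b₂ : ℝ × (Fin d → ℝ) → (Fin d → ℝ)} {c : ℝ × (Fin d → ℝ) → ℝ}
    (hb₁ : Measurable b₁) (hb₂ : Measurable b₂) (hc : Measurable c) :
    Measurable (LL ρ Y Z b₁ b₂ c) := by
  have h1 : Measurable fun x : (ℝ × (Fin d → ℝ)) × ℝ =>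
      Z.indicator (1 : ℝ × (Fin d → ℝ) → ℝ≥0∞) (x.2, b₂ x.1 + x.2 • x.1.2) :=
    (measurable_one.indicator hZ).comp (by fun_prop)
  have h2 : Measurable fun x : (ℝ × (Fin d → ℝ)) × ℝ =>
      sm ρ (Y.indicator 1) (x.2, b₁ x.1 + x.2 * x.1.1) :=
    (ly_sm_meas ρ (measurable_one.indicator hY)).comp (by fun_prop)
  have m1 : Measurable fun x : (ℝ × (Fin d → ℝ)) × ℝ => c x.1 - 1 / 2 := by fun_prop
  have m2 : Measurable fun x : (ℝ × (Fin d → ℝ)) × ℝ => c x.1 + 1 / 2 := by fun_prop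
  have hS : MeasurableSet {x : (ℝ × (Fin d → ℝ)) × ℝ |
      x.2 ∈ Icc (c x.1 - 1 / 2) (c x.1 + 1 / 2)} :=
    (measurableSet_le m1 measurable_snd).inter (measurableSet_le measurable_snd m2)
  have h3 := ((h1.mul h2).indicator hS).lintegral_prod_right' (ν := (volume : Measure ℝ))
  have h4 : LL ρ Y Z b₁ b₂ c = fun v => ∫⁻ t, {x : (ℝ × (Fin d → ℝ)) × ℝ |
      x.2 ∈ Icc (c x.1 - 1 / 2) (c x.1 + 1 / 2)}.indicator
        ((fun x : (ℝ × (Fin d → ℝ)) × ℝ =>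
          Z.indicator (1 : ℝ × (Fin d → ℝ) → ℝ≥0∞) (x.2, b₂ x.1 + x.2 • x.1.2)) *
        fun x : (ℝ × (Fin d → ℝ)) × ℝ => sm ρ (Y.indicator 1) (x.2, b₁ x.1 + x.2 * x.1.1))
        (v, t) := by
    funext v
    unfold LL
    rw [← lintegral_indicator measurableSet_Icc]
    refine lintegral_congr fun t => ?_
    by_cases h : t ∈ Icc (c v - 1 / 2) (c v + 1 / 2)
    · rw [indicator_of_mem h, indicator_of_mem (show (v, t) ∈ {x : (ℝ × (Fin d → ℝ)) × ℝ |
        x.2 ∈ Icc (c x.1 - 1 / 2) (c x.1 + 1 / 2)} from h)]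
      rfl
    · rw [indicator_of_notMem h, indicator_of_notMem (show (v, t) ∉ {x : (ℝ × (Fin d → ℝ)) × ℝ |
        x.2 ∈ Icc (c x.1 - 1 / 2) (c x.1 + 1 / 2)} from h)]
  rw [h4]
  exact h3

/-- the power integral -/
theorem ly_pow {r q : ℝ} (hrq : r < q) :
    ∫⁻ t in Ioc (0 : ℝ) 1, ENNReal.ofReal (t ^ (q - 1 - r)) = ENNReal.ofReal (1 / (q - r)) := by
  have h1 : -1 < q - 1 - r := by linarith
  rw [← ofReal_integral_eq_lintegral_ofReal]
  · rw [← intervalIntegral.integral_of_le zero_le_one, integral_rpow (Or.inl h1)]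
    congr 1
    rw [Real.one_rpow, Real.zero_rpow (by linarith)]
    congr 1
    · ring
    · ring
  · have h2 := intervalIntegral.intervalIntegrable_rpow' (a := 0) (b := 1) h1
    rwa [intervalIntegrable_iff_integrableOn_Ioc_of_le zero_le_one] at h2
  · refine (ae_restrict_iff' measurableSet_Ioc).2 (Filter.Eventually.of_forall fun t ht => ?_)
    exact Real.rpow_nonneg ht.1.le _

/-- from a weak type bound to an integral bound, for a function bounded by one -/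
theorem ly_layer {α : Type*} [MeasurableSpace α] (μ : Measure α) {F : α → ℝ≥0∞}
    (hF : Measurable F) (hF1 : ∀ x, F x ≤ 1) {r q : ℝ} (hr : 0 ≤ r) (hrq : r < q) {B : ℝ≥0∞}
    (hB : ∀ lam : ℝ, 0 < lam → lam ≤ 1 →
      ENNReal.ofReal lam ^ r * μ {x | ENNReal.ofReal lam ≤ F x} ≤ B) :
    ∫⁻ x, F x ^ q ∂μ ≤ ENNReal.ofReal (q / (q - r)) * B := by
  have hq : 0 < q := lt_of_le_of_lt hr hrq
  have hFt : ∀ x, F x ≠ ∞ := fun x => ne_top_of_le_ne_top one_ne_top (hF1 x)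
  have hfm : Measurable fun x => (F x).toReal := hF.ennreal_toReal
  have hf1 : ∀ x, (F x).toReal ≤ 1 := fun x => by
    rw [← ENNReal.toReal_one]
    exact ENNReal.toReal_mono one_ne_top (hF1 x)
  have h1 : ∫⁻ x, F x ^ q ∂μ = ∫⁻ x, ENNReal.ofReal ((F x).toReal ^ q) ∂μ := by
    refine lintegral_congr fun x => ?_
    rw [← ENNReal.ofReal_rpow_of_nonneg ENNReal.toReal_nonneg hq.le,
      ENNReal.ofReal_toReal (hFt x)]
  rw [h1, lintegral_rpow_eq_lintegral_meas_lt_mul μ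
    (Filter.Eventually.of_forall fun x => ENNReal.toReal_nonneg) hfm.aemeasurable hq]
  have h2 : ∫⁻ t in Ioi (0 : ℝ), μ {a | t < (F a).toReal} * ENNReal.ofReal (t ^ (q - 1)) ≤
      ∫⁻ t in Ioi (0 : ℝ), (Ioc (0 : ℝ) 1).indicator
        (fun t => B * ENNReal.ofReal (t ^ (q - 1 - r))) t := by
    refine setLIntegral_mono_ae' measurableSet_Ioi (Filter.Eventually.of_forall fun t ht => ?_)
    have ht0 : 0 < t := ht
    by_cases ht1 : t ≤ 1
    · rw [indicator_of_mem (show t ∈ Ioc (0 : ℝ) 1 from ⟨ht0, ht1⟩)]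
      have h3 := hB t ht0 ht1
      have h4 : μ {a | t < (F a).toReal} ≤ μ {x | ENNReal.ofReal t ≤ F x} := by
        refine measure_mono fun x hx => ?_
        exact (ENNReal.ofReal_le_iff_le_toReal (hFt x)).2 (le_of_lt hx)
      have h5 : ENNReal.ofReal (t ^ (q - 1)) =
          ENNReal.ofReal (t ^ (q - 1 - r)) * ENNReal.ofReal t ^ r := by
        rw [ENNReal.ofReal_rpow_of_nonneg ht0.le hr, ← ENNReal.ofReal_mul (by positivity),
          ← Real.rpow_add ht0]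
        congr 2
        ring
      calc μ {a | t < (F a).toReal} * ENNReal.ofReal (t ^ (q - 1)) ≤
            μ {x | ENNReal.ofReal t ≤ F x} *
              (ENNReal.ofReal (t ^ (q - 1 - r)) * ENNReal.ofReal t ^ r) := by
            rw [h5]
            gcongr
        _ = (ENNReal.ofReal t ^ r * μ {x | ENNReal.ofReal t ≤ F x}) *
            ENNReal.ofReal (t ^ (q - 1 - r)) := by ring
        _ ≤ _ := by gcongr
    · have h3 : {a | t < (F a).toReal} = ∅ := by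
        ext x
        simp only [mem_setOf_eq, mem_empty_iff_false, iff_false, not_lt]
        exact (hf1 x).trans (le_of_lt (not_le.1 ht1))
      rw [h3, measure_empty, zero_mul]
      exact bot_le
  have h3 : ∫⁻ t in Ioi (0 : ℝ), (Ioc (0 : ℝ) 1).indicator
      (fun t => B * ENNReal.ofReal (t ^ (q - 1 - r))) t = B * ENNReal.ofReal (1 / (q - r)) := by
    rw [setLIntegral_indicator measurableSet_Ioc,
      inter_eq_left.2 (show Ioc (0 : ℝ) 1 ⊆ Ioi 0 from fun t ht => ht.1),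
      lintegral_const_mul _ (by fun_prop), ly_pow hrq]
  calc ENNReal.ofReal q * ∫⁻ t in Ioi (0 : ℝ), μ {a | t < (F a).toReal} *
        ENNReal.ofReal (t ^ (q - 1)) ≤ ENNReal.ofReal q * (B * ENNReal.ofReal (1 / (q - r))) := by
        gcongr
        exact h2.trans (le_of_eq h3)
    _ = ENNReal.ofReal (q / (q - r)) * B := by
        have h4 : q / (q - r) = q * (1 / (q - r)) := by ring
        rw [h4, ENNReal.ofReal_mul hq.le]
        ring

theorem s_R (h7 : S_weak) : S_R := by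
  intro d Cv Λ hV θ ρ hθ hρ Y hY Z hZ κ hκ hC b₁ b₂ c hb₁ hb₂ hc q hq
  have hZm : MeasurableSet Z := by
    obtain ⟨K, hK, hKZ⟩ := hZ
    rw [← hKZ]
    exact MeasurableSet.iUnion fun n => (hK n).measurableSet
  have hLm := ly_LL_meas (ρ := ρ) hY hZm hb₁ hb₂ hc
  have hr : 0 ≤ rr d θ := by
    unfold rr
    positivity
  refine ly_layer _ hLm (ly_LL_le hρ Y Z b₁ b₂ c) hr hq fun lam hl hl1 => ?_
  have h1 := h7 d Cv Λ hV θ ρ hθ hρ Y hY Z hZ κ hκ hC b₁ b₂ c hb₁ hb₂ hc lam hl hl1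
  refine le_trans (le_of_eq ?_) h1
  congr 1
  rw [Measure.restrict_apply (measurableSet_le measurable_const hLm)]
  congr 1
  ext v
  simp only [mem_inter_iff, mem_setOf_eq]
  exact and_comm

end Pool.Agent.NH82.MS
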