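import Pool.Agent.NH82.MS.Meas

set_option autoImplicit false

/-!
MS-12: lines and mixed sets.
-/

open MeasureTheory Set ENNReal NNReal Metric
open scoped Pointwise

namespace Pool.Agent.NH82.MS

open Pool.Agent.TH539 (ker phi qq ballAvg kakeyaMax nsh surf pt tube measurable_ker ae_scale pt_zero
  pt_succ ext_pt)
open Pool.Agent.TH539.SA (Vel)

variable {d : ℕ}

/-- **MS-12.** -/
theorem s_line (h8 : S_R) : S_line := by
  intro d Cv Λ hV hMono E m hE hm E' hE'E hE' θ ρ q hθ hρ hq τ hτ b c hb hc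
  obtain ⟨hEm, g, hg, hgm, hsl⟩ := hE
  have hrr : 0 < rr d θ := by unfold rr; positivity
  have hq0 : 0 < q := hrr.trans hq
  set Y : Set (ℝ × ℝ) := (fun x : EuclideanSpace ℝ (Fin (d + 2)) => (x 0 / τ, x 1)) '' E' with hYdef
  set Z : Set (ℝ × (Fin d → ℝ)) :=
    (fun x : EuclideanSpace ℝ (Fin (d + 2)) => (x 0 / τ, fun i : Fin d => x i.succ.succ)) '' E'
    with hZdef
  have hYs : IsSigmaCompact Y := hE'.image (by fun_prop)
  have hZs : IsSigmaCompact Z := hE'.image (by fun_prop)
  have hYm : MeasurableSet Y := ms_sigma_meas hYs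
  set yv : ℝ → ℝ≥0∞ := fun t => volume {y : ℝ | (t, y) ∈ Y} with hyv
  have hyvm : Measurable yv := measurable_measure_prodMk_left hYm
  set κ : ℝ → ℝ≥0∞ := fun t => if yv t = 0 then ∞ else g (τ * t) / yv t with hκdef
  have hgτ : Measurable fun t : ℝ => g (τ * t) := hg.comp (by fun_prop)
  have hκ : Measurable κ :=
    Measurable.ite (measurableSet_eq_fun hyvm measurable_const) measurable_const
      (hgτ.div hyvm)
  have hgfin : ∀ᵐ t : ℝ, g (τ * t) < ∞ :=
    ae_scale hτ (ae_lt_top hg (ne_top_of_le_ne_top hm hgm))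
  have hsl' := ae_scale hτ hsl
  have hcov : ∀ᵐ t : ℝ, Cv (κ t) {z | (t, z) ∈ Z} := by
    filter_upwards [hgfin, hsl'] with t ht hs
    obtain ⟨A, B, μ, hCv, hAμ, hx⟩ := hs
    have hZB : {z | (t, z) ∈ Z} ⊆ B := by
      rintro z ⟨x, hxE, hxz⟩
      simp only [Prod.mk.injEq] at hxz
      have h0 : x 0 = τ * t := by rw [← hxz.1]; field_simp
      have := (hx x (hE'E hxE) h0).2
      rw [hxz.2] at this
      exact this
    have hYA : {y | (t, y) ∈ Y} ⊆ A := by
      rintro y ⟨x, hxE, hxy⟩
      simp only [Prod.mk.injEq] at hxy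
      have h0 : x 0 = τ * t := by rw [← hxy.1]; field_simp
      have := (hx x (hE'E hxE) h0).1
      rw [hxy.2] at this
      exact this
    refine hMono μ (κ t) B _ hCv ?_ hZB
    simp only [hκdef]
    by_cases h0 : yv t = 0
    · rw [if_pos h0]; exact le_top
    · rw [if_neg h0, ENNReal.le_div_iff_mul_le (Or.inl h0) (Or.inr ht.ne)]
      calc μ * yv t ≤ μ * volume A := by
            gcongr
            exact measure_mono hYA
        _ = volume A * μ := mul_comm _ _
        _ ≤ _ := hAμ
  have hK : ∫⁻ t, volume {y : ℝ | (t, y) ∈ Y} * κ t ≤ ENNReal.ofReal τ⁻¹ * m := by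
    calc ∫⁻ t, volume {y : ℝ | (t, y) ∈ Y} * κ t ≤ ∫⁻ t, g (τ * t) := by
          refine lintegral_mono fun t => ?_
          simp only [hκdef]
          by_cases h0 : yv t = 0
          · rw [if_pos h0]
            have : volume {y : ℝ | (t, y) ∈ Y} = 0 := h0
            rw [this, zero_mul]; exact zero_le
          · rw [if_neg h0]
            exact ENNReal.mul_div_le
      _ = ∫⁻ t, g t ∂(Measure.map (τ * ·) volume) := by
          rw [lintegral_map hg (by fun_prop)]
      _ = ENNReal.ofReal τ⁻¹ * ∫⁻ t, g t := by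
          rw [Real.map_volume_mul_left hτ.ne', lintegral_smul_measure, smul_eq_mul,
            abs_of_pos (by positivity)]
      _ ≤ _ := by gcongr
  -- the change of variables
  set e := MeasurableEquiv.piFinSuccAbove (fun _ : Fin (d + 1) => ℝ) 0 with he
  have hmp : MeasurePreserving e volume volume :=
    volume_preserving_piFinSuccAbove (fun _ : Fin (d + 1) => ℝ) 0
  set b₁ : ℝ × (Fin d → ℝ) → ℝ := fun p => b (e.symm p) 0 with hb₁
  set b₂ : ℝ × (Fin d → ℝ) → (Fin d → ℝ) := fun p i => b (e.symm p) i.succ with hb₂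
  set c' : ℝ × (Fin d → ℝ) → ℝ := fun p => c (e.symm p) with hc'
  have hbe : Measurable fun p => b (e.symm p) := hb.comp e.symm.measurable
  have hb₁m : Measurable b₁ := (measurable_pi_apply 0).comp hbe
  have hb₂m : Measurable b₂ := measurable_pi_lambda _ fun i => (measurable_pi_apply i.succ).comp hbe
  have hc'm : Measurable c' := hc.comp e.symm.measurable
  have hev : ∀ v : Fin (d + 1) → ℝ, e v = (v 0, fun i : Fin d => v i.succ) := fun v => rfl
  have hpt : ∀ v : Fin (d + 1) → ℝ, ∫⁻ t in Icc (c v - 1 / 2) (c v + 1 / 2),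
      smv (EuclideanSpace.single (1 : Fin (d + 2)) (1:ℝ)) ρ (E'.indicator 1)
        (pt (τ * t, b v + t • v)) ≤ LL ρ Y Z b₁ b₂ c' (e v) := by
    intro v
    unfold LL
    have ec : c' (e v) = c v := by simp only [hc', MeasurableEquiv.symm_apply_apply]
    rw [ec]
    refine lintegral_mono fun t => ?_
    have eb₁ : b₁ (e v) = b v 0 := by simp only [hb₁, MeasurableEquiv.symm_apply_apply]
    have eb₂ : b₂ (e v) = fun i : Fin d => b v i.succ := by
      simp only [hb₂, MeasurableEquiv.symm_apply_apply]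
    rw [eb₁, eb₂]
    simp only [hev]
    set z : Fin d → ℝ := (fun i : Fin d => b v i.succ) + t • (fun i : Fin d => v i.succ) with hz
    set y : ℝ := b v 0 + t * v 0 with hy
    have hind : ∀ β : ℝ, E'.indicator (1 : EuclideanSpace ℝ (Fin (d + 2)) → ℝ≥0∞)
        (pt (τ * t, b v + t • v) + β • EuclideanSpace.single (1 : Fin (d + 2)) (1:ℝ)) ≤
        Z.indicator 1 (t, z) * Y.indicator 1 (t, y + β) := by
      intro β
      set x : EuclideanSpace ℝ (Fin (d + 2)) :=
        pt (τ * t, b v + t • v) + β • EuclideanSpace.single (1 : Fin (d + 2)) (1:ℝ) with hx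
      by_cases hxE : x ∈ E'
      swap
      · rw [indicator_of_notMem hxE]; exact zero_le
      have hx0 : x 0 = τ * t := by
        simp [hx, pt_zero]
      have hx1 : x 1 = y + β := by
        have e1 : (pt (τ * t, b v + t • v) : EuclideanSpace ℝ (Fin (d + 2))) 1 =
          (b v + t • v) 0 := pt_succ (τ * t, b v + t • v) 0
        simp only [hx, PiLp.add_apply, PiLp.smul_apply, smul_eq_mul, e1, Pi.add_apply, Pi.smul_apply,
          PiLp.single_apply, if_true, mul_one, hy]
      have hxs : (fun i : Fin d => x i.succ.succ) = z := by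
        funext i
        have e1 : (pt (τ * t, b v + t • v) : EuclideanSpace ℝ (Fin (d + 2))) i.succ.succ =
          (b v + t • v) i.succ := pt_succ (τ * t, b v + t • v) i.succ
        have e2 : (i.succ.succ : Fin (d + 2)) ≠ 1 := by
          intro h
          have : (i.succ : Fin (d + 1)) = 0 := Fin.succ_injective _ h
          exact Fin.succ_ne_zero i this
        simp only [hx, PiLp.add_apply, PiLp.smul_apply, smul_eq_mul, e1, Pi.add_apply, Pi.smul_apply,
          PiLp.single_apply, if_neg e2, mul_zero, add_zero, hz]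
      have hZmem : (t, z) ∈ Z := by
        refine ⟨x, hxE, ?_⟩
        simp only [hx0, hxs, Prod.mk.injEq, and_true]
        field_simp
      have hYmem : (t, y + β) ∈ Y := by
        refine ⟨x, hxE, ?_⟩
        simp only [hx0, hx1, Prod.mk.injEq, and_true]
        field_simp
      rw [indicator_of_mem hxE, indicator_of_mem hZmem, indicator_of_mem hYmem]
      simp
    unfold smv sm
    calc (ENNReal.ofReal (2 * ρ))⁻¹ * ∫⁻ β in Icc (-ρ) ρ,
          E'.indicator (1 : EuclideanSpace ℝ (Fin (d + 2)) → ℝ≥0∞)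
          (pt (τ * t, b v + t • v) + β • EuclideanSpace.single (1 : Fin (d + 2)) (1:ℝ))
        ≤ (ENNReal.ofReal (2 * ρ))⁻¹ * ∫⁻ β in Icc (-ρ) ρ,
            Z.indicator 1 (t, z) * Y.indicator 1 (t, y + β) := by
          gcongr with β
          exact hind β
      _ = _ := by
          have hZt : Z.indicator (1 : ℝ × (Fin d → ℝ) → ℝ≥0∞) (t, z) ≠ ∞ := by
            by_cases h : (t, z) ∈ Z
            · rw [indicator_of_mem h]; exact ENNReal.one_ne_top
            · rw [indicator_of_notMem h]; exact ENNReal.zero_ne_top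
          rw [lintegral_const_mul' _ _ hZt]
          ring
  have h9 := h8 d Cv Λ hV θ ρ hθ hρ Y hYm Z hZs κ hκ hcov b₁ b₂ c' hb₁m hb₂m hc'm q hq
  set Q : Set (ℝ × (Fin d → ℝ)) := {v | |v.1| ≤ 2} with hQ
  have hQm : MeasurableSet Q := by
    have : Measurable fun v : ℝ × (Fin d → ℝ) => |v.1| := by fun_prop
    exact measurableSet_le this measurable_const
  calc ∫⁻ v in {v : Fin (d + 1) → ℝ | ∀ i, |v i| ≤ 2},
      (∫⁻ t in Icc (c v - 1 / 2) (c v + 1 / 2),
        smv (EuclideanSpace.single (1 : Fin (d + 2)) (1:ℝ)) ρ (E'.indicator 1)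
        (pt (τ * t, b v + t • v))) ^ q
      ≤ ∫⁻ v in {v : Fin (d + 1) → ℝ | ∀ i, |v i| ≤ 2}, LL ρ Y Z b₁ b₂ c' (e v) ^ q :=
        lintegral_mono fun v => ENNReal.rpow_le_rpow (hpt v) hq0.le
    _ ≤ ∫⁻ v in e ⁻¹' Q, LL ρ Y Z b₁ b₂ c' (e v) ^ q := by
        refine lintegral_mono_set ?_
        intro v hv
        exact hv 0
    _ = ∫⁻ v in Q, LL ρ Y Z b₁ b₂ c' v ^ q :=
        hmp.setLIntegral_comp_preimage_emb e.measurableEmbedding
          (fun v => LL ρ Y Z b₁ b₂ c' v ^ q) Q
    _ ≤ _ := h9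
    _ ≤ ENNReal.ofReal (q / (q - rr d θ)) *
        (KW d ρ θ * Λ * (ENNReal.ofReal τ⁻¹ * m)) := by
        gcongr
    _ = _ := by ring

end Pool.Agent.NH82.MS
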