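import Pool.Agent.NH82.MS.Stm

set_option autoImplicit false

/-!
# MS-6: pointwise lower bound by tuples of heights
-/

open MeasureTheory Set ENNReal NNReal Metric
open scoped Pointwise

namespace Pool.Agent.NH82.MS

open Pool.Agent.TH539 (ker qq measurable_ker)

variable {d : ℕ}

/-- Products of equal measures are monotone. -/
lemma po_pi_mono (d : ℕ) (ν μ : Measure ℝ) [SigmaFinite ν] [SigmaFinite μ] (h : ν ≤ μ) :
    Measure.pi (fun _ : Fin d => ν) ≤ Measure.pi (fun _ : Fin d => μ) := by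
  induction d with
  | zero =>
    rw [Measure.pi_of_empty (fun _ : Fin 0 => ν) (fun i => i.elim0),
      Measure.pi_of_empty (fun _ : Fin 0 => μ) (fun i => i.elim0)]
  | succ d ih =>
    have h1 := (measurePreserving_piFinSuccAbove (fun _ : Fin (d + 1) => ν) 0).symm
    have h2 := (measurePreserving_piFinSuccAbove (fun _ : Fin (d + 1) => μ) 0).symm
    rw [← h1.map_eq, ← h2.map_eq]
    exact Measure.map_mono (Measure.prod_mono h ih) (MeasurableEquiv.measurable _)

lemma po_measurableSet_Sel {κ : ℝ → ℝ≥0∞} (hκ : Measurable κ) (k : Fin (d + 1)) :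
    MeasurableSet (Sel κ k) := by
  have : Sel κ k = ⋂ j, {t : Fin (d + 1) → ℝ | κ (t j) ≤ κ (t k)} := by
    ext t
    simp [Sel]
  rw [this]
  refine MeasurableSet.iInter fun j => ?_
  exact measurableSet_le (hκ.comp (measurable_pi_apply j)) (hκ.comp (measurable_pi_apply k))

lemma po_exists_Sel (κ : ℝ → ℝ≥0∞) (t : Fin (d + 1) → ℝ) : ∃ k, t ∈ Sel κ k := by
  obtain ⟨k, hk⟩ := Finite.exists_max fun j => κ (t j)
  exact ⟨k, hk⟩

lemma po_ker_le_sum (θ : ℝ) (κ : ℝ → ℝ≥0∞) (t : Fin (d + 1) → ℝ) :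
    ker θ t ≤ ∑ k, (Sel κ k).indicator (ker θ) t := by
  obtain ⟨k, hk⟩ := po_exists_Sel κ t
  calc ker θ t = (Sel κ k).indicator (ker θ) t := (indicator_of_mem hk _).symm
    _ ≤ _ := Finset.single_le_sum (f := fun k => (Sel κ k).indicator (ker θ) t)
        (fun i _ => zero_le) (Finset.mem_univ k)

lemma po_ker_le_one {θ : ℝ} (hθ : 0 ≤ θ) {t : Fin (d + 1) → ℝ} (h : ∀ i k, |t i - t k| ≤ 1) :
    ker θ t ≤ 1 := by
  unfold ker
  refine Finset.prod_le_one' fun i _ => Finset.prod_le_one' fun j _ => ?_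
  exact ENNReal.rpow_le_one (ENNReal.ofReal_le_one.2 (h _ _)) hθ

lemma po_measurable_f {θ : ℝ} {Z : Set (ℝ × (Fin d → ℝ))} (hT : MeasurableSet (tupZ Z))
    {κ : ℝ → ℝ≥0∞} (hκ : Measurable κ) (k : Fin (d + 1)) :
    Measurable ((tupZ Z ∩ (Prod.snd ⁻¹' Sel κ k)).indicator
      (fun p : (Fin d → ℝ) × (Fin (d + 1) → ℝ) => ker θ p.2)) :=
  (((measurable_ker θ).comp measurable_snd)).indicator
    (hT.inter (measurable_snd (po_measurableSet_Sel hκ k)))

lemma po_measurable_insertNth (k : Fin (d + 1)) :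
    Measurable fun p : ℝ × (Fin d → ℝ) => (k.insertNth p.1 p.2 : Fin (d + 1) → ℝ) :=
  (MeasurableEquiv.piFinSuccAbove (fun _ : Fin (d + 1) => ℝ) k).symm.measurable

lemma po_measurable_WW {θ : ℝ} {Z : Set (ℝ × (Fin d → ℝ))} (hT : MeasurableSet (tupZ Z))
    {κ : ℝ → ℝ≥0∞} (hκ : Measurable κ) (k : Fin (d + 1)) (w : Fin d → ℝ) :
    Measurable (WW θ Z κ k w) := by
  unfold WW
  have h : Measurable fun p : ℝ × (Fin d → ℝ) =>
      (tupZ Z ∩ (Prod.snd ⁻¹' Sel κ k)).indicator
        (fun p : (Fin d → ℝ) × (Fin (d + 1) → ℝ) => ker θ p.2)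
        (w, (k.insertNth p.1 p.2 : Fin (d + 1) → ℝ)) :=
    (po_measurable_f hT hκ k).comp (measurable_const.prodMk (po_measurable_insertNth k))
  exact h.lintegral_prod_right'

/-- The bound of the inner integral. -/
lemma po_inner {θ : ℝ} (hθ : 0 ≤ θ) {Z : Set (ℝ × (Fin d → ℝ))}
    {κ : ℝ → ℝ≥0∞} (k : Fin (d + 1)) (b w : Fin d → ℝ) (c : ℝ) {m : ℝ≥0∞}
    (ν : Measure ℝ) [SigmaFinite ν] (hνv : ν ≤ volume) (hm : ν univ = m)
    (hae : ∀ᵐ t ∂ν, t ∈ Icc (c - 1 / 2) (c + 1 / 2) ∧ (t, b + t • w) ∈ Z) (s : ℝ)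
    (hs : s ∈ Icc (c - 1 / 2) (c + 1 / 2) ∧ (s, b + s • w) ∈ Z) :
    ∫⁻ t' : Fin d → ℝ, (Sel κ k).indicator (ker θ) (k.insertNth s t')
      ∂(Measure.pi fun _ => ν) ≤ min (m ^ d) (WW θ Z κ k w s) := by
  have hall : ∀ᵐ t' ∂(Measure.pi fun _ : Fin d => ν), ∀ j, t' j ∈ Icc (c - 1 / 2) (c + 1 / 2) ∧
      (t' j, b + t' j • w) ∈ Z := by
    refine ae_all_iff.2 fun j => ?_
    exact (Measure.tendsto_eval_ae_ae (μ := fun _ : Fin d => ν) (i := j)).eventually hae
  have hall2 : ∀ᵐ t' ∂(Measure.pi fun _ : Fin d => ν),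
      ∀ i, (k.insertNth s t' : Fin (d + 1) → ℝ) i ∈ Icc (c - 1 / 2) (c + 1 / 2) ∧
      ((k.insertNth s t' : Fin (d + 1) → ℝ) i,
        b + (k.insertNth s t' : Fin (d + 1) → ℝ) i • w) ∈ Z := by
    filter_upwards [hall] with t' ht' i
    rcases Fin.eq_self_or_eq_succAbove k i with rfl | ⟨j, rfl⟩
    · simpa using hs
    · simpa using ht' j
  have hdist : ∀ t : Fin (d + 1) → ℝ, (∀ i, t i ∈ Icc (c - 1 / 2) (c + 1 / 2) ∧
      (t i, b + t i • w) ∈ Z) → ∀ i k, |t i - t k| ≤ 1 := by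
    intro t ht i k
    have h1 := (ht i).1
    have h2 := (ht k).1
    rw [mem_Icc] at h1 h2
    rw [abs_le]
    constructor <;> linarith [h1.1, h1.2, h2.1, h2.2]
  refine le_min ?_ ?_
  · calc ∫⁻ t' : Fin d → ℝ, (Sel κ k).indicator (ker θ) (k.insertNth s t')
          ∂(Measure.pi fun _ => ν)
        ≤ ∫⁻ _ : Fin d → ℝ, 1 ∂(Measure.pi fun _ => ν) := by
          refine lintegral_mono_ae ?_
          filter_upwards [hall2] with t' ht'
          refine (indicator_le_self _ _ _).trans ?_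
          exact po_ker_le_one hθ (hdist _ ht')
      _ = m ^ d := by
          rw [lintegral_one, Measure.pi_univ]
          simp [hm]
  · unfold WW
    calc ∫⁻ t' : Fin d → ℝ, (Sel κ k).indicator (ker θ) (k.insertNth s t')
          ∂(Measure.pi fun _ => ν)
        ≤ ∫⁻ t' : Fin d → ℝ, (tupZ Z ∩ (Prod.snd ⁻¹' Sel κ k)).indicator (fun p => ker θ p.2)
            (w, (k.insertNth s t' : Fin (d + 1) → ℝ)) ∂(Measure.pi fun _ => ν) := by
          refine lintegral_mono_ae ?_
          filter_upwards [hall2] with t' ht'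
          have hmem : (w, (k.insertNth s t' : Fin (d + 1) → ℝ)) ∈ tupZ Z :=
            ⟨hdist _ ht', b, fun i => (ht' i).2⟩
          by_cases hsel : (k.insertNth s t' : Fin (d + 1) → ℝ) ∈ Sel κ k
          · rw [indicator_of_mem hsel, indicator_of_mem (show (w, (k.insertNth s t' :
              Fin (d + 1) → ℝ)) ∈ tupZ Z ∩ (Prod.snd ⁻¹' Sel κ k) from ⟨hmem, hsel⟩)]
          · rw [indicator_of_notMem hsel]
            exact zero_le
      _ ≤ _ := lintegral_mono' (po_pi_mono d ν volume hνv) le_rfl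

theorem s_point (h2 : S_kerlow) : S_point := by
  intro d θ hθ Z hZ hT κ hκ P hP hP1 b w c lam hlam hlow
  set I : Set ℝ := Icc (c - 1 / 2) (c + 1 / 2) with hI
  set p : ℝ → ℝ≥0∞ := fun t => Z.indicator 1 (t, b + t • w) * P t with hpdef
  have hline : Measurable fun t : ℝ => (t, b + t • w) := by fun_prop
  have hp : Measurable p := by
    refine Measurable.mul ?_ hP
    exact (measurable_one.indicator hZ).comp hline
  have hpP : ∀ t, p t ≤ P t := by
    intro t
    simp only [hpdef]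
    refine mul_le_of_le_one_left zero_le ?_
    refine (indicator_le_self _ _ _).trans ?_
    simp
  have hp1 : ∀ t, p t ≤ 1 := fun t => (hpP t).trans (hP1 t)
  have hvolI : volume I = 1 := by
    rw [hI, Real.volume_Icc]
    norm_num
  set L : ℝ≥0∞ := ∫⁻ t in I, p t with hL
  have hL1 : L ≤ 1 := by
    calc L ≤ ∫⁻ _ in I, 1 := lintegral_mono fun t => hp1 t
      _ = 1 := by simp [hvolI]
  have hlL : ENNReal.ofReal lam ≤ L := hlow
  have hlam0 : ENNReal.ofReal lam ≠ 0 := by simpa using hlam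
  have hL0 : L ≠ 0 := fun h => hlam0 (le_antisymm (hlL.trans h.le) zero_le)
  have hLtop : L ≠ ⊤ := ne_top_of_le_ne_top one_ne_top hL1
  set r : ℝ≥0∞ := ENNReal.ofReal lam / L with hr
  have hr1 : r ≤ 1 := ENNReal.div_le_of_le_mul (by simpa using hlL)
  set ν : Measure ℝ := r • (volume.restrict I).withDensity p with hν
  have hνuniv : ν univ = ENNReal.ofReal lam := by
    rw [hν, Measure.smul_apply, withDensity_apply _ MeasurableSet.univ, Measure.restrict_univ,
      smul_eq_mul, ← hL, hr]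
    exact ENNReal.div_mul_cancel hL0 hLtop
  have hνp : ν ≤ (volume.restrict I).withDensity p := by
    rw [hν]
    intro s
    rw [Measure.smul_apply, smul_eq_mul]
    exact mul_le_of_le_one_left zero_le hr1
  have hνP : ν ≤ (volume.restrict I).withDensity P :=
    hνp.trans (withDensity_mono (Filter.Eventually.of_forall hpP))
  have hνI : ν ≤ volume.restrict I := by
    refine hνp.trans ?_
    calc (volume.restrict I).withDensity p ≤ (volume.restrict I).withDensity 1 :=
          withDensity_mono (Filter.Eventually.of_forall hp1)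
      _ = _ := withDensity_one
  have hνv : ν ≤ volume := hνI.trans Measure.restrict_le_self
  have : IsFiniteMeasure ν := ⟨by rw [hνuniv]; exact ofReal_lt_top⟩
  have hνae : ∀ᵐ t ∂ν, t ∈ I ∧ (t, b + t • w) ∈ Z := by
    have h1 : ∀ᵐ t ∂ν, t ∈ I :=
      (Measure.absolutelyContinuous_of_le hνI).ae_le (ae_restrict_mem measurableSet_Icc)
    have h2 : ∀ᵐ t ∂((volume.restrict I).withDensity p), (t, b + t • w) ∈ Z := by
      rw [ae_withDensity_iff hp]
      refine Filter.Eventually.of_forall fun t ht => ?_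
      by_contra hcon
      apply ht
      simp only [hpdef]
      rw [indicator_of_notMem hcon, zero_mul]
    have h3 := (Measure.absolutelyContinuous_of_le hνp).ae_le h2
    filter_upwards [h1, h3] with t ht1 ht2 using ⟨ht1, ht2⟩
  refine (h2 d θ hθ ν (c - 1 / 2) (c + 1 / 2) hνI lam hlam hνuniv.ge).trans ?_
  calc ∫⁻ t, ker θ t ∂(Measure.pi fun _ : Fin (d + 1) => ν)
      ≤ ∫⁻ t, ∑ k, (Sel κ k).indicator (ker θ) t ∂(Measure.pi fun _ : Fin (d + 1) => ν) :=
        lintegral_mono fun t => po_ker_le_sum θ κ t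
    _ = ∑ k, ∫⁻ t, (Sel κ k).indicator (ker θ) t ∂(Measure.pi fun _ : Fin (d + 1) => ν) :=
        lintegral_finsetSum _ fun k _ =>
          (measurable_ker θ).indicator (po_measurableSet_Sel hκ k)
    _ ≤ _ := Finset.sum_le_sum fun k _ => ?_
  have hmk : Measurable ((Sel κ k).indicator (ker θ)) :=
    (measurable_ker θ).indicator (po_measurableSet_Sel hκ k)
  have hmW : Measurable fun s => min (ENNReal.ofReal lam ^ d) (WW θ Z κ k w s) :=
    measurable_const.min (po_measurable_WW hT hκ k w)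
  have hsymm := (measurePreserving_piFinSuccAbove (fun _ : Fin (d + 1) => ν) k).symm
  calc ∫⁻ t, (Sel κ k).indicator (ker θ) t ∂(Measure.pi fun _ : Fin (d + 1) => ν)
      = ∫⁻ q : ℝ × (Fin d → ℝ), (Sel κ k).indicator (ker θ) (k.insertNth q.1 q.2)
          ∂(ν.prod (Measure.pi fun _ : Fin d => ν)) := (hsymm.lintegral_comp hmk).symm
    _ = ∫⁻ s, ∫⁻ t' : Fin d → ℝ, (Sel κ k).indicator (ker θ) (k.insertNth s t')
          ∂(Measure.pi fun _ => ν) ∂ν := by
        exact lintegral_prod _ (hmk.comp (po_measurable_insertNth k)).aemeasurable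
    _ ≤ ∫⁻ s, min (ENNReal.ofReal lam ^ d) (WW θ Z κ k w s) ∂ν := by
        refine lintegral_mono_ae ?_
        filter_upwards [hνae] with s hs
        exact po_inner hθ k b w c ν hνv hνuniv hνae s hs
    _ ≤ ∫⁻ s, min (ENNReal.ofReal lam ^ d) (WW θ Z κ k w s)
          ∂((volume.restrict I).withDensity P) := lintegral_mono' hνP le_rfl
    _ = ∫⁻ s in I, P s * min (ENNReal.ofReal lam ^ d) (WW θ Z κ k w s) := by
        rw [lintegral_withDensity_eq_lintegral_mul _ hP hmW]
        rfl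

end Pool.Agent.NH82.MS
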