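import Pool.Agent.NH82.MS.Stm

set_option autoImplicit false

/-!
# MS-15: the critical exponent for sets
-/

open MeasureTheory Set ENNReal NNReal Metric
open scoped Pointwise

namespace Pool.Agent.NH82.MS

open Pool.Agent.TH539 (ker phi qq ballAvg kakeyaMax nsh surf pt tube)
open Pool.Agent.TH539.SA (Vel)

/-- The volume of a set with mixed slices. -/
lemma sc_vol {d : ℕ} {Cv : ℝ≥0∞ → Set (Fin d → ℝ) → Prop} (hvol : ∀ m B, Cv m B → volume B ≤ m)
    {E : Set (EuclideanSpace ℝ (Fin (d + 2)))} {m : ℝ≥0∞} (hE : MSet Cv m E) : volume E ≤ m := by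
  obtain ⟨hEm, g, hg, hgm, hsl⟩ := hE
  have hpt := Pool.Agent.TH539.volume_preserving_pt (d := d + 1)
  have hEm' : MeasurableSet ((pt : ℝ × (Fin (d + 1) → ℝ) → EuclideanSpace ℝ (Fin (d + 2))) ⁻¹' E) :=
    hEm.preimage hpt.measurable
  have h0 : volume E = volume ((pt : ℝ × (Fin (d + 1) → ℝ) → EuclideanSpace ℝ (Fin (d + 2))) ⁻¹' E) :=
    (hpt.measure_preimage hEm.nullMeasurableSet).symm
  have h1 : volume ((pt : ℝ × (Fin (d + 1) → ℝ) → EuclideanSpace ℝ (Fin (d + 2))) ⁻¹' E) =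
      ∫⁻ s, volume (Prod.mk s ⁻¹' (pt ⁻¹' E)) := Measure.prod_apply hEm'
  rw [h0, h1]
  refine le_trans (lintegral_mono_ae ?_) hgm
  filter_upwards [hsl] with t ht
  obtain ⟨A, B, μ, hB, hAg, hin⟩ := ht
  have he := volume_preserving_piFinSuccAbove (fun _ : Fin (d + 1) => ℝ) 0
  have hsub : Prod.mk t ⁻¹' ((pt : ℝ × (Fin (d + 1) → ℝ) → EuclideanSpace ℝ (Fin (d + 2))) ⁻¹' E) ⊆
      (MeasurableEquiv.piFinSuccAbove (fun _ : Fin (d + 1) => ℝ) 0) ⁻¹' (A ×ˢ B) := by
    intro y hy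
    have h2 := hin (pt (t, y)) hy (Pool.Agent.TH539.pt_zero _)
    exact ⟨h2.1, h2.2⟩
  calc volume (Prod.mk t ⁻¹' ((pt : ℝ × (Fin (d + 1) → ℝ) → EuclideanSpace ℝ (Fin (d + 2))) ⁻¹' E))
      ≤ volume ((MeasurableEquiv.piFinSuccAbove (fun _ : Fin (d + 1) => ℝ) 0) ⁻¹' (A ×ˢ B)) :=
        measure_mono hsub
    _ = volume (A ×ˢ B) := he.measure_preimage_equiv _
    _ = volume A * volume B := Measure.prod_prod _ _
    _ ≤ volume A * μ := by gcongr; exact hvol _ _ hB
    _ ≤ g t := hAg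

lemma sc_int {k n : ℕ} (E : Set (EuclideanSpace ℝ (Fin k))) (hE : MeasurableSet E) (hn : n ≠ 0) :
    ∫⁻ x, ‖(E.indicator (1 : EuclideanSpace ℝ (Fin k) → ℝ)) x‖ₑ ^ n = volume E := by
  rw [← lintegral_indicator_one hE]
  refine lintegral_congr fun x => ?_
  by_cases h : x ∈ E
  · simp [h]
  · simp [h, hn]

/-- The Kakeya maximal function of a set is at most the volume over the volume of the tube. -/
lemma sc_le {k : ℕ} {δ : ℝ} {e : EuclideanSpace ℝ (Fin (k + 1))} {B : ℝ≥0∞}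
    (E : Set (EuclideanSpace ℝ (Fin (k + 1)))) (hE : MeasurableSet E)
    (hB : ∀ a, (volume (tube δ e a))⁻¹ ≤ B) :
    kakeyaMax δ (E.indicator 1) e ≤ B * volume E := by
  unfold kakeyaMax
  refine iSup_le fun a => mul_le_mul' (hB a) ?_
  refine (setLIntegral_le_lintegral _ _).trans ?_
  have := sc_int (n := 1) E hE one_ne_zero
  simp only [pow_one] at this
  rw [this]

lemma sc_log {δ : ℝ} (hδ : 0 < δ) (hδ1 : δ < 1) :
    Real.log (1 + 1 / (3 * δ)) ≤ 1 + Real.log (1 / δ) := by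
  have h1 : 1 + 1 / (3 * δ) ≤ Real.exp 1 * (1 / δ) := by
    have h2 : (2:ℝ) ≤ Real.exp 1 := by
      have := Real.add_one_le_exp (1:ℝ)
      linarith
    have h3 : 1 ≤ 1 / δ := by rw [le_div_iff₀ hδ]; linarith
    have h4 : 1 / (3 * δ) ≤ 1 / δ := by
      apply one_div_le_one_div_of_le hδ
      linarith
    nlinarith
  have h5 : 0 < 1 / (3 * δ) := by positivity
  calc Real.log (1 + 1 / (3 * δ)) ≤ Real.log (Real.exp 1 * (1 / δ)) :=
        Real.log_le_log (by linarith) h1
    _ = 1 + Real.log (1 / δ) := by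
        rw [Real.log_mul (Real.exp_ne_zero _) (by positivity), Real.log_exp]

/-- The constant of the strong type, at the critical choice of the parameters. -/
lemma sc_KW {d : ℕ} (hd : 1 ≤ d) {δ : ℝ} (hδ : 0 < δ) (hδ1 : δ < 1) {L : ℝ}
    (hL : L = 1 + Real.log (1 / δ)) :
    KW d (3 * δ) ((1 / L) / (4 * ((d + 1) * d))) ≤
      ENNReal.ofReal (((d + 1) ^ 3 * 8 * 4 ^ d * d ^ d * (8 * ((d + 1) * d)) ^ d *
        (2 * d + 1) ^ (2 * (d + 2))) * L ^ (d + 1)) := by
  have hlog : 0 ≤ Real.log (1 / δ) := Real.log_nonneg (by rw [le_div_iff₀ hδ]; linarith)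
  have hL1 : 1 ≤ L := by rw [hL]; linarith
  have hL0 : 0 < L := by linarith
  have hd0 : (0:ℝ) < d := by exact_mod_cast hd
  have hlog2 := sc_log hδ hδ1
  rw [← hL] at hlog2
  have e1 : ENNReal.ofReal (8 * Real.log (1 + 1 / (3 * δ))) ≤ ENNReal.ofReal (8 * L) :=
    ENNReal.ofReal_le_ofReal (by linarith)
  have e2 : 2 / ((1 / L) / (4 * (((d:ℝ) + 1) * d))) = (8 * ((d + 1) * d)) * L := by
    field_simp
    ring
  have e3 : ((2:ℝ≥0∞) * d + 1) ^ (2 * qq d ((1 / L) / (4 * ((d + 1) * d)))) ≤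
      ((2:ℝ≥0∞) * d + 1) ^ (2 * (d + 2)) := by
    rw [← ENNReal.rpow_natCast]
    refine ENNReal.rpow_le_rpow_of_exponent_le le_add_self ?_
    unfold qq
    have h1 : (1 / L) / (4 * (((d:ℝ) + 1) * d)) * ((d + 1) * d) = 1 / (4 * L) := by
      field_simp
    rw [h1]
    have h2 : 1 / (4 * L) ≤ 1 := by
      rw [div_le_one (by positivity)]; linarith
    push_cast
    linarith
  have hcast : ∀ x : ℕ, (x:ℝ≥0∞) = ENNReal.ofReal (x:ℝ) := fun x => (ENNReal.ofReal_natCast x).symm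
  unfold KW
  rw [e2]
  calc ((d:ℝ≥0∞) + 1) ^ 3 * ENNReal.ofReal (8 * Real.log (1 + 1 / (3 * δ))) * 4 ^ d * (d:ℝ≥0∞) ^ d *
    ENNReal.ofReal ((8 * ((d + 1) * d)) * L) ^ d * (2 * d + 1) ^ (2 * qq d ((1 / L) / (4 * ((d + 1) * d))))
      ≤ ((d:ℝ≥0∞) + 1) ^ 3 * ENNReal.ofReal (8 * L) * 4 ^ d * (d:ℝ≥0∞) ^ d *
    ENNReal.ofReal ((8 * ((d + 1) * d)) * L) ^ d * (2 * d + 1) ^ (2 * (d + 2)) := by
        gcongr
    _ = ENNReal.ofReal (((d:ℝ) + 1) ^ 3 * (8 * L) * 4 ^ d * (d:ℝ) ^ d *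
          ((8 * ((d + 1) * d)) * L) ^ d * (2 * d + 1) ^ (2 * (d + 2))) := by
        have f1 : ((d:ℝ≥0∞) + 1) ^ 3 = ENNReal.ofReal (((d:ℝ) + 1) ^ 3) := by
          rw [ENNReal.ofReal_pow (by positivity), ENNReal.ofReal_add hd0.le (by norm_num),
            ENNReal.ofReal_natCast, ENNReal.ofReal_one]
        have f2 : (4:ℝ≥0∞) ^ d = ENNReal.ofReal ((4:ℝ) ^ d) := by
          rw [ENNReal.ofReal_pow (by positivity)]; norm_num
        have f3 : (d:ℝ≥0∞) ^ d = ENNReal.ofReal ((d:ℝ) ^ d) := by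
          rw [ENNReal.ofReal_pow (by positivity), ENNReal.ofReal_natCast]
        have f4 : ((2:ℝ≥0∞) * d + 1) ^ (2 * (d + 2)) = ENNReal.ofReal ((2 * (d:ℝ) + 1) ^ (2 * (d + 2))) := by
          rw [ENNReal.ofReal_pow (by positivity), ENNReal.ofReal_add (by positivity) (by norm_num),
            ENNReal.ofReal_mul (by norm_num), ENNReal.ofReal_natCast, ENNReal.ofReal_one]
          norm_num
        rw [f1, f2, f3, f4, ← ENNReal.ofReal_pow (by positivity), ← ENNReal.ofReal_mul (by positivity),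
          ← ENNReal.ofReal_mul (by positivity), ← ENNReal.ofReal_mul (by positivity),
          ← ENNReal.ofReal_mul (by positivity), ← ENNReal.ofReal_mul (by positivity)]
    _ = _ := by
        congr 1
        rw [mul_pow _ L d, pow_succ L d]
        ring

/-- **MS-15.** The critical exponent for sets. -/
theorem s_setCrit (h14 : S_strong) : S_setCrit := by
  intro d hd
  obtain ⟨C1, hC1, hstrong⟩ := h14 d
  obtain ⟨c, hc, htriv⟩ := Pool.Agent.TH539.kakeya_trivial (d := d + 1) (by omega)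
  have hfin : IsFiniteMeasure (surf (d + 2)) := by unfold surf; infer_instance
  set σ : ℝ := (surf (d + 2) univ).toReal with hσ
  have hσ0 : 0 ≤ σ := ENNReal.toReal_nonneg
  have hσeq : surf (d + 2) univ = ENNReal.ofReal σ := (ENNReal.ofReal_toReal (measure_ne_top _ _)).symm
  have hd0 : (0:ℝ) < d := by exact_mod_cast hd
  set C2 : ℝ := max C1 1 with hC2
  have hC21 : 1 ≤ C2 := le_max_right _ _
  have hC12 : C1 ≤ C2 := le_max_left _ _
  set K0 : ℝ := ((d:ℝ) + 1) ^ 3 * 8 * 4 ^ d * d ^ d * (8 * ((d + 1) * d)) ^ d *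
        (2 * d + 1) ^ (2 * (d + 2)) with hK0
  have hK0p : 0 < K0 := by positivity
  set K1 : ℝ := σ + 3 * (C2 ^ (d + 3) * (2 * (d + 2)) * (2 * (d + 3)) * K0) with hK1
  have hK10 : 0 ≤ K1 := by positivity
  set C : ℝ := c ^ (d + 2) * σ + (K1 + c * ((d + 2) * 2 ^ (d + 2))) with hCdef
  have hCpos : 0 < C := by positivity
  refine ⟨C, hCpos, ?_⟩
  intro Cv Λ hV hM hvol hΛ E m hE δ hδ hδ1
  have hEm : MeasurableSet E := hE.1
  have hVm := sc_vol hvol hE
  have hlog : 0 ≤ Real.log (1 / δ) := Real.log_nonneg (by rw [le_div_iff₀ hδ]; linarith)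
  set L : ℝ := 1 + Real.log (1 / δ) with hL
  have hL1 : 1 ≤ L := by linarith
  have hL0 : 0 < L := by linarith
  have hLpow : (1:ℝ) ≤ L ^ (d + 3) := one_le_pow₀ hL1
  by_cases hmtop : m = ∞
  · rw [hmtop, ENNReal.mul_top (by intro h; rw [h] at hΛ; simp at hΛ), ENNReal.mul_top]
    · exact le_top
    · simp only [ne_eq, ENNReal.ofReal_eq_zero, not_le]; positivity
  have hVtop : volume E ≠ ∞ := ne_top_of_le_ne_top hmtop hVm
  have hVΛ : volume E ≤ Λ * m := by
    calc volume E ≤ m := hVm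
      _ = 1 * m := (one_mul _).symm
      _ ≤ Λ * m := by gcongr
  set f : EuclideanSpace ℝ (Fin (d + 2)) → ℝ := E.indicator 1 with hf
  have hfm : Measurable f := measurable_one.indicator hEm
  set v : ℝ := (volume E).toReal with hv
  have hv0 : 0 ≤ v := ENNReal.toReal_nonneg
  have hveq : volume E = ENNReal.ofReal v := (ENNReal.ofReal_toReal hVtop).symm
  have hsupb : ∀ e : sphere (0 : EuclideanSpace ℝ (Fin (d + 2))) 1,
      kakeyaMax δ f e ≤ ENNReal.ofReal (c * (δ ^ (d + 1))⁻¹) * volume E := fun e =>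
    sc_le E hEm (htriv δ e f hδ (by simp) hfm).1
  by_cases hcase : v < δ ^ (d + 2)
  · -- small sets
    have hb : ∀ e : sphere (0 : EuclideanSpace ℝ (Fin (d + 2))) 1,
        kakeyaMax δ f e ^ (d + 2) ≤ ENNReal.ofReal (c ^ (d + 2)) * volume E := by
      intro e
      calc kakeyaMax δ f e ^ (d + 2)
          ≤ (ENNReal.ofReal (c * (δ ^ (d + 1))⁻¹) * volume E) ^ (d + 2) := by
            gcongr
            exact hsupb e
        _ = ENNReal.ofReal ((c * (δ ^ (d + 1))⁻¹ * v) ^ (d + 2)) := by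
            rw [hveq, ← ENNReal.ofReal_mul (by positivity), ← ENNReal.ofReal_pow (by positivity)]
        _ ≤ ENNReal.ofReal (c ^ (d + 2) * v) := by
            refine ENNReal.ofReal_le_ofReal ?_
            have h1 : (c * (δ ^ (d + 1))⁻¹ * v) ^ (d + 2) =
                c ^ (d + 2) * v * (v ^ (d + 1) * ((δ ^ (d + 1)) ^ (d + 2))⁻¹) := by
              rw [mul_pow, mul_pow, inv_pow, show v ^ (d + 2) = v ^ (d + 1) * v from pow_succ _ _]
              ring
            have h2 : v ^ (d + 1) * ((δ ^ (d + 1)) ^ (d + 2))⁻¹ ≤ 1 := by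
              rw [← div_eq_mul_inv, div_le_one (by positivity)]
              calc v ^ (d + 1) ≤ (δ ^ (d + 2)) ^ (d + 1) := by gcongr
                _ = (δ ^ (d + 1)) ^ (d + 2) := by rw [← pow_mul, ← pow_mul, mul_comm]
            rw [h1]
            exact mul_le_of_le_one_right (by positivity) h2
        _ = _ := by rw [ENNReal.ofReal_mul (by positivity), ← hveq]
    calc ∫⁻ e : sphere (0 : EuclideanSpace ℝ (Fin (d + 2))) 1, kakeyaMax δ f e ^ (d + 2)
          ∂(surf (d + 2))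
        ≤ ∫⁻ _e : sphere (0 : EuclideanSpace ℝ (Fin (d + 2))) 1,
            ENNReal.ofReal (c ^ (d + 2)) * volume E ∂(surf (d + 2)) := lintegral_mono hb
      _ = ENNReal.ofReal (c ^ (d + 2)) * volume E * ENNReal.ofReal σ := by
          rw [lintegral_const, hσeq]
      _ = ENNReal.ofReal (c ^ (d + 2) * σ) * volume E := by
          rw [ENNReal.ofReal_mul (by positivity)]; ring
      _ ≤ ENNReal.ofReal (C * L ^ (d + 3)) * (Λ * m) := by
          refine mul_le_mul' (ENNReal.ofReal_le_ofReal ?_) hVΛ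
          have h1 : c ^ (d + 2) * σ ≤ C := by
            rw [hCdef]
            have : 0 ≤ K1 + c * (((d:ℝ) + 2) * 2 ^ (d + 2)) := by positivity
            linarith
          calc c ^ (d + 2) * σ ≤ C := h1
            _ ≤ C * L ^ (d + 3) := le_mul_of_one_le_right hCpos.le hLpow
  -- the main case
  rw [not_lt] at hcase
  have hvpos : 0 < v := lt_of_lt_of_le (by positivity) hcase
  set A : ℝ := v ^ (1 / ((d:ℝ) + 2)) with hA
  have hApos : 0 < A := by positivity
  have hAI : A ^ (d + 2) = v := by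
    rw [hA, ← Real.rpow_natCast, ← Real.rpow_mul hvpos.le]
    push_cast
    rw [one_div_mul_cancel (by positivity), Real.rpow_one]
  have hAIe : ENNReal.ofReal (A ^ (d + 2)) = volume E := by rw [hAI, hveq]
  have hδA : δ ≤ A := by
    rw [← hAI] at hcase
    exact le_of_pow_le_pow_left₀ (by omega) hApos.le hcase
  set η : ℝ := 1 / L with hη
  have hηpos : 0 < η := by positivity
  have hη1 : η ≤ 1 := by rw [hη, div_le_one hL0]; exact hL1
  set θ : ℝ := η / (4 * ((d + 1) * d)) with hθ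
  have hθpos : 0 < θ := by positivity
  set q : ℝ := d + 2 + η with hq
  have hq0 : 0 < q := by rw [hq]; positivity
  have hrr : rr d θ = d + 2 + η / 2 := by
    unfold rr
    rw [hθ]
    field_simp
    ring
  have hrq : rr d θ < q := by rw [hrr, hq]; linarith
  have hqrr : q / (q - rr d θ) ≤ 2 * (d + 3) * L := by
    have h1 : q - rr d θ = 1 / (2 * L) := by rw [hrr, hq, hη]; field_simp; ring
    rw [h1, div_div_eq_mul_div, div_one]
    have h2 : q ≤ d + 3 := by rw [hq]; linarith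
    calc q * (2 * L) ≤ (d + 3) * (2 * L) := by gcongr
      _ = _ := by ring
  set κ : ℝ := δ ^ (d + 1) with hκ
  have hκpos : 0 < κ := by positivity
  have hκ1 : κ ≤ 1 := pow_le_one₀ hδ.le hδ1.le
  set S : Set (sphere (0 : EuclideanSpace ℝ (Fin (d + 2))) 1) :=
    {e | κ ≤ |(e : EuclideanSpace ℝ (Fin (d + 2))) 0|} with hS
  set S' : Set (sphere (0 : EuclideanSpace ℝ (Fin (d + 2))) 1) :=
    {e | |(e : EuclideanSpace ℝ (Fin (d + 2))) 0| ≤ κ} with hS'
  have hcover : S ∪ S' = univ := by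
    ext e
    simp only [hS, hS', mem_union, mem_ofPred_eq, mem_univ, iff_true]
    exact le_total _ _
  have hnsh : (nsh κ : ℝ≥0∞) ≤ ENNReal.ofReal (2 * (d + 2) * L) := by
    rw [← ENNReal.ofReal_natCast]
    refine ENNReal.ofReal_le_ofReal ((Pool.Agent.TH539.nsh_le hκpos hκ1).trans ?_)
    have h5 : Real.log (1 / κ) = (d + 1) * Real.log (1 / δ) := by
      rw [hκ, ← one_div_pow, Real.log_pow]; push_cast; ring
    rw [h5, hL]
    nlinarith
  have hC1p : ENNReal.ofReal C1 ^ q ≤ ENNReal.ofReal (C2 ^ (d + 3)) := by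
    calc ENNReal.ofReal C1 ^ q ≤ ENNReal.ofReal C2 ^ q :=
          ENNReal.rpow_le_rpow (ENNReal.ofReal_le_ofReal hC12) hq0.le
      _ ≤ ENNReal.ofReal C2 ^ (((d + 3 : ℕ)) : ℝ) := by
          refine ENNReal.rpow_le_rpow_of_exponent_le ?_ ?_
          · rw [← ENNReal.ofReal_one]; exact ENNReal.ofReal_le_ofReal hC21
          · rw [hq]; push_cast; linarith
      _ = _ := by rw [ENNReal.rpow_natCast, ENNReal.ofReal_pow (by positivity)]
  have hKW := sc_KW hd hδ hδ1 hL
  have hsteep : ∫⁻ e in S, kakeyaMax δ f e ^ q ∂(surf (d + 2)) ≤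
      ENNReal.ofReal (C2 ^ (d + 3) * (2 * (d + 2)) * (2 * (d + 3)) * K0 * L ^ (d + 3)) *
        (Λ * m) := by
    have h1 := hstrong Cv Λ hV hM E m hE hmtop hVtop θ q κ δ hθpos hrq hκpos hδ hδ1.le
    calc _ ≤ _ := h1
      _ ≤ ENNReal.ofReal (C2 ^ (d + 3)) * ENNReal.ofReal (2 * (d + 2) * L) *
          (ENNReal.ofReal (2 * (d + 3) * L) * (ENNReal.ofReal (K0 * L ^ (d + 1)) * Λ * m)) := by
          gcongr
      _ = ENNReal.ofReal (C2 ^ (d + 3) * (2 * (d + 2) * L) * (2 * (d + 3) * L) *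
            (K0 * L ^ (d + 1))) * (Λ * m) := by
          rw [ENNReal.ofReal_mul (q := K0 * L ^ (d + 1)) (by positivity),
            ENNReal.ofReal_mul (q := 2 * ((d:ℝ) + 3) * L) (by positivity),
            ENNReal.ofReal_mul (p := C2 ^ (d + 3)) (by positivity)]
          ring
      _ = _ := by
          congr 2
          rw [show d + 3 = (d + 1) + 2 by ring, pow_add L (d + 1) 2]
          push_cast
          ring
  have hAη : A ^ (-η) ≤ 3 := by
    calc A ^ (-η) ≤ δ ^ (-η) := Real.rpow_le_rpow_of_nonpos hδ hδA (by linarith)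
      _ ≤ 3 := Pool.Agent.TH539.exp_bound hδ hδ1
  have hSσ : surf (d + 2) S ≤ ENNReal.ofReal σ := by rw [← hσeq]; exact measure_mono (subset_univ _)
  have hsteep2 : ∫⁻ e in S, kakeyaMax δ f e ^ (d + 2) ∂(surf (d + 2)) ≤
      ENNReal.ofReal (K1 * L ^ (d + 3)) * (Λ * m) := by
    calc ∫⁻ e in S, kakeyaMax δ f e ^ (d + 2) ∂(surf (d + 2))
        ≤ ∫⁻ e in S, (ENNReal.ofReal A ^ (d + 2) +
            ENNReal.ofReal (A ^ (-η)) * kakeyaMax δ f e ^ q) ∂(surf (d + 2)) := by
          refine lintegral_mono fun e => ?_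
          have := Pool.Agent.TH539.pow_le_add_rpow hApos hηpos (kakeyaMax δ f e) (d + 2)
          push_cast at this
          exact this
      _ = ENNReal.ofReal A ^ (d + 2) * surf (d + 2) S +
            ENNReal.ofReal (A ^ (-η)) * ∫⁻ e in S, kakeyaMax δ f e ^ q ∂(surf (d + 2)) := by
          rw [lintegral_add_left measurable_const, lintegral_const_mul' _ _ ENNReal.ofReal_ne_top,
            setLIntegral_const]
      _ ≤ volume E * ENNReal.ofReal σ + ENNReal.ofReal 3 *
            (ENNReal.ofReal (C2 ^ (d + 3) * (2 * (d + 2)) * (2 * (d + 3)) * K0 * L ^ (d + 3)) *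
              (Λ * m)) := by
          rw [← ENNReal.ofReal_pow hApos.le, hAIe]
          gcongr
      _ ≤ ENNReal.ofReal σ * (Λ * m) + ENNReal.ofReal
            (3 * (C2 ^ (d + 3) * (2 * (d + 2)) * (2 * (d + 3)) * K0 * L ^ (d + 3))) *
              (Λ * m) := by
          refine add_le_add ?_ ?_
          · rw [mul_comm]
            gcongr
          · rw [← mul_assoc, ← ENNReal.ofReal_mul (by norm_num)]
      _ ≤ _ := by
          rw [← add_mul, ← ENNReal.ofReal_add (by positivity) (by positivity)]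
          refine mul_le_mul_left (ENNReal.ofReal_le_ofReal ?_) _
          have e2 : 3 * (C2 ^ (d + 3) * (2 * ((d:ℝ) + 2)) * (2 * (d + 3)) * K0 * L ^ (d + 3)) =
              3 * (C2 ^ (d + 3) * (2 * (d + 2)) * (2 * (d + 3)) * K0) * L ^ (d + 3) := by
            ring
          rw [e2, hK1, add_mul]
          gcongr
          exact le_mul_of_one_le_right hσ0 hLpow
  -- near the equator
  have hflat : ∫⁻ e in S', kakeyaMax δ f e ^ (d + 2) ∂(surf (d + 2)) ≤
      ENNReal.ofReal (c * ((d + 2) * 2 ^ (d + 2)) * L ^ (d + 3)) * (Λ * m) := by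
    calc ∫⁻ e in S', kakeyaMax δ f e ^ (d + 2) ∂(surf (d + 2))
        ≤ ∫⁻ _e in S', ENNReal.ofReal (c * (δ ^ (d + 1))⁻¹) * volume E ∂(surf (d + 2)) := by
          refine lintegral_mono fun e => ?_
          have h1 := (htriv δ e f hδ (by simp) hfm).2
          rw [sc_int (n := d + 1 + 1) E hEm (by omega)] at h1
          exact h1
      _ = ENNReal.ofReal (c * (δ ^ (d + 1))⁻¹) * volume E * surf (d + 2) S' := by
          rw [setLIntegral_const]
      _ ≤ ENNReal.ofReal (c * (δ ^ (d + 1))⁻¹) * volume E *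
            ENNReal.ofReal ((d + 2) * 2 ^ (d + 2) * κ) := by
          gcongr
          have h2 := Pool.Agent.TH539.surf_equator (d := d + 1) hκpos
          refine h2.trans (le_of_eq ?_)
          congr 1
          push_cast
          ring
      _ = ENNReal.ofReal (c * ((d + 2) * 2 ^ (d + 2))) * volume E := by
          rw [mul_right_comm, ← ENNReal.ofReal_mul (by positivity)]
          congr 2
          rw [hκ]
          field_simp
      _ ≤ _ := by
          refine mul_le_mul' (ENNReal.ofReal_le_ofReal ?_) hVΛ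
          have h9 : 0 ≤ c * (((d:ℝ) + 2) * 2 ^ (d + 2)) := by positivity
          exact le_mul_of_one_le_right h9 hLpow
  calc ∫⁻ e : sphere (0 : EuclideanSpace ℝ (Fin (d + 2))) 1, kakeyaMax δ f e ^ (d + 2)
      ∂(surf (d + 2))
      = ∫⁻ e in S ∪ S', kakeyaMax δ f e ^ (d + 2) ∂(surf (d + 2)) := by
        rw [hcover, Measure.restrict_univ]
    _ ≤ (∫⁻ e in S, kakeyaMax δ f e ^ (d + 2) ∂(surf (d + 2))) +
        ∫⁻ e in S', kakeyaMax δ f e ^ (d + 2) ∂(surf (d + 2)) := lintegral_union_le _ _ _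
    _ ≤ _ := add_le_add hsteep2 hflat
    _ = ENNReal.ofReal ((K1 + c * ((d + 2) * 2 ^ (d + 2))) * L ^ (d + 3)) * (Λ * m) := by
        rw [← add_mul, ← ENNReal.ofReal_add (by positivity) (by positivity), ← add_mul]
    _ ≤ _ := by
        refine mul_le_mul_left (ENNReal.ofReal_le_ofReal ?_) _
        have h9 : 0 ≤ c ^ (d + 2) * σ := by positivity
        gcongr
        rw [hCdef]
        linarith

end Pool.Agent.NH82.MS
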