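import Pool.Agent.NH82.MS.Stm

set_option autoImplicit false

open MeasureTheory Set ENNReal NNReal Metric
open scoped Pointwise

namespace Pool.Agent.NH82.MS

open Pool.Agent.TH539 (kakeyaMax surf tube measurableSet_tube)

theorem s_sigma : S_sigma := by
  intro m E hE hv
  have h : ∀ j : ℕ, ∃ K ⊆ E, IsCompact K ∧ volume (E \ K) < ((j : ℝ≥0∞) + 1)⁻¹ := by
    intro j
    refine hE.exists_isCompact_sdiff_lt hv ?_
    rw [Ne, ENNReal.inv_eq_zero]
    exact ENNReal.add_ne_top.mpr ⟨ENNReal.natCast_ne_top j, ENNReal.one_ne_top⟩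
  choose K hK1 hK2 hK3 using h
  refine ⟨⋃ j, K j, iUnion_subset hK1, isSigmaCompact_iUnion_of_isCompact K hK2, ?_⟩
  have h1 : ∀ j : ℕ, volume (E \ ⋃ j, K j) ≤ ((j : ℝ≥0∞) + 1)⁻¹ := fun j =>
    (measure_mono (sdiff_subset_sdiff_right (subset_iUnion K j))).trans (hK3 j).le
  by_contra hne
  obtain ⟨n, hn⟩ := ENNReal.exists_inv_nat_lt hne
  have h2 := h1 n
  have h3 : ((n : ℝ≥0∞) + 1)⁻¹ ≤ (n : ℝ≥0∞)⁻¹ := by
    rw [ENNReal.inv_le_inv]
    exact le_self_add
  exact absurd (h2.trans h3) (not_le.mpr hn)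

variable {m : ℕ}

theorem sr_tube (R : EuclideanSpace ℝ (Fin (m + 1)) ≃ₗᵢ[ℝ] EuclideanSpace ℝ (Fin (m + 1)))
    (δ : ℝ) (e a : EuclideanSpace ℝ (Fin (m + 1))) :
    R ⁻¹' (tube δ (R e) (R a)) = tube δ e a := by
  ext y
  have h1 : inner ℝ (R y - R a) (R e) = inner ℝ (y - a) e := by
    rw [← map_sub, R.inner_map_map]
  have h2 : ‖(R y - R a) - (inner ℝ (y - a) e : ℝ) • R e‖ =
      ‖(y - a) - (inner ℝ (y - a) e : ℝ) • e‖ := by
    rw [← map_sub, ← map_smul, ← map_sub, R.norm_map]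
  simp only [tube, mem_preimage, mem_ofPred_eq, h1, h2]

theorem sr_kak (R : EuclideanSpace ℝ (Fin (m + 1)) ≃ₗᵢ[ℝ] EuclideanSpace ℝ (Fin (m + 1)))
    (f : EuclideanSpace ℝ (Fin (m + 1)) → ℝ) (δ : ℝ) (e : EuclideanSpace ℝ (Fin (m + 1))) :
    kakeyaMax δ (fun x => f (R x)) e = kakeyaMax δ f (R e) := by
  unfold kakeyaMax
  refine Eq.trans ?_ (R.surjective.iSup_comp (fun a : EuclideanSpace ℝ (Fin (m + 1)) =>
    (volume (tube δ (R e) a))⁻¹ * ∫⁻ y in tube δ (R e) a, ‖f y‖ₑ))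
  refine iSup_congr fun a => ?_
  have hR := R.measurePreserving
  have h1 : volume (tube δ e a) = volume (tube δ (R e) (R a)) := by
    rw [← sr_tube R, hR.measure_preimage (measurableSet_tube _ _ _).nullMeasurableSet]
  have h2 : ∫⁻ y in tube δ e a, ‖f (R y)‖ₑ = ∫⁻ y in tube δ (R e) (R a), ‖f y‖ₑ := by
    rw [← sr_tube R]
    exact hR.setLIntegral_comp_preimage_emb R.toHomeomorph.measurableEmbedding
      (fun y => ‖f y‖ₑ) _
  rw [h1, h2]

theorem sr_mem (R : EuclideanSpace ℝ (Fin (m + 1)) ≃ₗᵢ[ℝ] EuclideanSpace ℝ (Fin (m + 1)))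
    (e : sphere (0 : EuclideanSpace ℝ (Fin (m + 1))) 1) :
    R e ∈ sphere (0 : EuclideanSpace ℝ (Fin (m + 1))) 1 := by
  rw [mem_sphere_zero_iff_norm, R.norm_map]
  exact mem_sphere_zero_iff_norm.mp e.2

/-- the action on the sphere -/
noncomputable def sr_act (R : EuclideanSpace ℝ (Fin (m + 1)) ≃ₗᵢ[ℝ] EuclideanSpace ℝ (Fin (m + 1))) :
    sphere (0 : EuclideanSpace ℝ (Fin (m + 1))) 1 ≃ₜ
      sphere (0 : EuclideanSpace ℝ (Fin (m + 1))) 1 where
  toFun e := ⟨R e, sr_mem R e⟩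
  invFun e := ⟨R.symm e, sr_mem R.symm e⟩
  left_inv e := Subtype.ext (R.symm_apply_apply e)
  right_inv e := Subtype.ext (R.apply_symm_apply e)
  continuous_toFun := (R.continuous.comp continuous_subtype_val).subtype_mk _
  continuous_invFun := (R.symm.continuous.comp continuous_subtype_val).subtype_mk _

theorem sr_inv (R : EuclideanSpace ℝ (Fin (m + 1)) ≃ₗᵢ[ℝ] EuclideanSpace ℝ (Fin (m + 1))) :
    Measure.map (sr_act R) (surf (m + 1)) = surf (m + 1) := by
  ext s hs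
  rw [Measure.map_apply (sr_act R).continuous.measurable hs]
  unfold surf
  rw [Measure.toSphere_apply' _ ((sr_act R).continuous.measurable hs),
    Measure.toSphere_apply' _ hs]
  congr 1
  have h1 : Ioo (0 : ℝ) 1 • ((↑) '' (sr_act R ⁻¹' s) : Set (EuclideanSpace ℝ (Fin (m + 1)))) =
      R ⁻¹' (Ioo (0 : ℝ) 1 • ((↑) '' s : Set (EuclideanSpace ℝ (Fin (m + 1))))) := by
    ext y
    simp only [Set.mem_smul, mem_image, mem_preimage]
    constructor
    · rintro ⟨r, hr, _, ⟨e, he, rfl⟩, rfl⟩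
      exact ⟨r, hr, _, ⟨_, he, rfl⟩, (map_smul R r _).symm⟩
    · rintro ⟨r, hr, _, ⟨e, he, rfl⟩, h⟩
      refine ⟨r, hr, _, ⟨(sr_act R).symm e, ?_, rfl⟩, ?_⟩
      · simpa using he
      · apply R.injective
        rw [← h, map_smul]
        congr 1
        exact congrArg Subtype.val ((sr_act R).apply_symm_apply e)
  rw [h1]
  exact R.measurePreserving.measure_preimage_emb R.toHomeomorph.measurableEmbedding _

theorem s_rot : S_rot := by
  intro m R f δ n
  have h1 : ∀ e : sphere (0 : EuclideanSpace ℝ (Fin (m + 1))) 1,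
      kakeyaMax δ (fun x => f (R x)) e ^ n =
        (fun e : sphere (0 : EuclideanSpace ℝ (Fin (m + 1))) 1 => kakeyaMax δ f e ^ n)
          (sr_act R e) := by
    intro e
    rw [sr_kak]
    rfl
  rw [lintegral_congr h1]
  have h2 := lintegral_map_equiv (μ := surf (m + 1))
    (fun e : sphere (0 : EuclideanSpace ℝ (Fin (m + 1))) 1 => kakeyaMax δ f e ^ n)
    (sr_act R).toMeasurableEquiv
  have h3 : Measure.map ((sr_act R).toMeasurableEquiv) (surf (m + 1)) = surf (m + 1) := sr_inv R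
  rw [h3] at h2
  exact h2.symm

end Pool.Agent.NH82.MS
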