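import Pool.Agent.NH82.MS.Stm

set_option autoImplicit false

/-!
# MS-10: ball averages of a function and of its smoothing
-/

open MeasureTheory Set ENNReal NNReal Metric
open scoped Pointwise

namespace Pool.Agent.NH82.MS

open Pool.Agent.TH539 (ballAvg)

/-- The substitution step. -/
lemma sm_shift {m : ℕ} (e₁ : EuclideanSpace ℝ (Fin (m + 1))) (he : ‖e₁‖ ≤ 1) (ρ : ℝ)
    (G : EuclideanSpace ℝ (Fin (m + 1)) → ℝ≥0∞) (β : ℝ) (hβ : β ∈ Icc (-ρ) ρ) :
    ∫⁻ x in closedBall (0 : EuclideanSpace ℝ (Fin (m + 1))) ρ, G x ≤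
      ∫⁻ x in closedBall (0 : EuclideanSpace ℝ (Fin (m + 1))) (2 * ρ), G (x + β • e₁) := by
  rw [← lintegral_indicator measurableSet_closedBall, ← lintegral_indicator measurableSet_closedBall]
  rw [← lintegral_add_right_eq_self
    (fun x => (closedBall (0 : EuclideanSpace ℝ (Fin (m + 1))) ρ).indicator G x) (β • e₁)]
  refine lintegral_mono fun x => ?_
  by_cases hx : x + β • e₁ ∈ closedBall (0 : EuclideanSpace ℝ (Fin (m + 1))) ρ
  · have hx2 : x ∈ closedBall (0 : EuclideanSpace ℝ (Fin (m + 1))) (2 * ρ) := by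
      rw [mem_closedBall_zero_iff] at hx ⊢
      have h1 : ‖β • e₁‖ ≤ ρ := by
        rw [norm_smul, Real.norm_eq_abs]
        have h2 : |β| ≤ ρ := abs_le.2 hβ
        calc |β| * ‖e₁‖ ≤ |β| * 1 := mul_le_mul_of_nonneg_left he (abs_nonneg _)
          _ ≤ ρ := by linarith
      have h3 : ‖x‖ ≤ ‖x + β • e₁‖ + ‖β • e₁‖ := by
        calc ‖x‖ = ‖(x + β • e₁) - β • e₁‖ := by rw [add_sub_cancel_right]
          _ ≤ _ := norm_sub_le _ _
      linarith
    rw [indicator_of_mem hx, indicator_of_mem hx2]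
  · rw [indicator_of_notMem hx]
    exact zero_le

/-- The volume of the doubled ball. -/
lemma sm_vol {m : ℕ} (ρ : ℝ) (hρ : 0 < ρ) :
    volume (closedBall (0 : EuclideanSpace ℝ (Fin (m + 1))) (2 * ρ)) =
      2 ^ (m + 1) * volume (closedBall (0 : EuclideanSpace ℝ (Fin (m + 1))) ρ) := by
  rw [Measure.addHaar_closedBall volume (0 : EuclideanSpace ℝ (Fin (m + 1))) (by positivity),
    Measure.addHaar_closedBall volume (0 : EuclideanSpace ℝ (Fin (m + 1))) hρ.le, ← mul_assoc]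
  congr 1
  rw [mul_pow, ENNReal.ofReal_mul (by positivity), finrank_euclideanSpace_fin,
    ENNReal.ofReal_pow (by norm_num)]
  norm_num

theorem s_smooth : S_smooth := by
  intro m e₁ he ρ hρ F hF a e
  unfold ballAvg smv
  set V := volume (closedBall (0 : EuclideanSpace ℝ (Fin (m + 1))) ρ) with hV
  have hV0 : V ≠ 0 := by
    rw [hV]
    exact (measure_closedBall_pos volume _ hρ).ne'
  have hVt : V ≠ ∞ := by
    rw [hV]
    exact measure_closedBall_lt_top.ne
  rw [sm_vol ρ hρ, ← hV]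
  set G : EuclideanSpace ℝ (Fin (m + 1)) → ℝ≥0∞ := fun x =>
    ∫⁻ s in Icc (-(3 / 2) : ℝ) (3 / 2), F (a + x + s • e) with hG
  have hGm : Measurable G := by
    have h1 : Measurable fun p : EuclideanSpace ℝ (Fin (m + 1)) × ℝ => F (a + p.1 + p.2 • e) :=
      hF.comp (by fun_prop)
    exact h1.lintegral_prod_right'
  -- rewrite the right hand side
  have key : ∀ x : EuclideanSpace ℝ (Fin (m + 1)),
      ∫⁻ s in Icc (-(3 / 2) : ℝ) (3 / 2), (ENNReal.ofReal (2 * ρ))⁻¹ *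
        ∫⁻ β in Icc (-ρ) ρ, F (a + x + s • e + β • e₁) =
      (ENNReal.ofReal (2 * ρ))⁻¹ * ∫⁻ β in Icc (-ρ) ρ, G (x + β • e₁) := by
    intro x
    have h1 : Measurable fun p : ℝ × ℝ => F (a + x + p.1 • e + p.2 • e₁) := hF.comp (by fun_prop)
    rw [lintegral_const_mul _ h1.lintegral_prod_right']
    congr 1
    rw [lintegral_lintegral_swap h1.aemeasurable]
    refine lintegral_congr fun β => ?_
    rw [hG]
    refine lintegral_congr fun s => ?_
    congr 1
    abel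
  have h2 : ∫⁻ x in closedBall (0 : EuclideanSpace ℝ (Fin (m + 1))) (2 * ρ),
      ∫⁻ s in Icc (-(3 / 2) : ℝ) (3 / 2), (ENNReal.ofReal (2 * ρ))⁻¹ *
        ∫⁻ β in Icc (-ρ) ρ, F (a + x + s • e + β • e₁) =
      (ENNReal.ofReal (2 * ρ))⁻¹ * ∫⁻ β in Icc (-ρ) ρ,
        ∫⁻ x in closedBall (0 : EuclideanSpace ℝ (Fin (m + 1))) (2 * ρ), G (x + β • e₁) := by
    rw [lintegral_congr key]
    have h1 : Measurable fun p : EuclideanSpace ℝ (Fin (m + 1)) × ℝ => G (p.1 + p.2 • e₁) :=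
      hGm.comp (by fun_prop)
    rw [lintegral_const_mul _ h1.lintegral_prod_right']
    congr 1
    rw [lintegral_lintegral_swap h1.aemeasurable]
  rw [h2]
  have h3 : ∫⁻ x in closedBall (0 : EuclideanSpace ℝ (Fin (m + 1))) ρ, G x ≤
      (ENNReal.ofReal (2 * ρ))⁻¹ * ∫⁻ β in Icc (-ρ) ρ,
        ∫⁻ x in closedBall (0 : EuclideanSpace ℝ (Fin (m + 1))) (2 * ρ), G (x + β • e₁) := by
    have hc : ENNReal.ofReal (2 * ρ) ≠ 0 := by
      rw [Ne, ENNReal.ofReal_eq_zero]; linarith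
    have h4 : ∫⁻ _ in Icc (-ρ) ρ, (∫⁻ x in closedBall (0 : EuclideanSpace ℝ (Fin (m + 1))) ρ, G x) ≤
        ∫⁻ β in Icc (-ρ) ρ,
        ∫⁻ x in closedBall (0 : EuclideanSpace ℝ (Fin (m + 1))) (2 * ρ), G (x + β • e₁) := by
      refine setLIntegral_mono' measurableSet_Icc fun β hβ => ?_
      exact sm_shift e₁ he ρ G β hβ
    rw [setLIntegral_const, Real.volume_Icc] at h4
    have h5 : ρ - -ρ = 2 * ρ := by ring
    rw [h5] at h4
    calc _ = (ENNReal.ofReal (2 * ρ))⁻¹ *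
        ((∫⁻ x in closedBall (0 : EuclideanSpace ℝ (Fin (m + 1))) ρ, G x) *
          ENNReal.ofReal (2 * ρ)) := by
          rw [mul_comm (∫⁻ x in closedBall (0 : EuclideanSpace ℝ (Fin (m + 1))) ρ, G x), ← mul_assoc,
            ENNReal.inv_mul_cancel hc ENNReal.ofReal_ne_top, one_mul]
      _ ≤ _ := mul_le_mul_right h4 _
  have h6 : (2 ^ (m + 1) : ℝ≥0∞) * ((2 ^ (m + 1) * V)⁻¹) = V⁻¹ := by
    rw [ENNReal.mul_inv (Or.inl (by positivity)) (Or.inl (by finiteness)), ← mul_assoc,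
      ENNReal.mul_inv_cancel (by positivity) (by finiteness), one_mul]
  rw [← mul_assoc, h6]
  exact mul_le_mul_right h3 _
end Pool.Agent.NH82.MS
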