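import Pool.Agent.NH82.MS.Stm

set_option autoImplicit false

/-!
# MS-14: steep directions (S_strong)
-/

open MeasureTheory Set ENNReal NNReal Metric
open scoped Pointwise

namespace Pool.Agent.NH82.MS

open Pool.Agent.TH539 (ker phi qq ballAvg kakeyaMax nsh surf pt tube)
open Pool.Agent.TH539.SA (Vel)

lemma st_smv_meas {m : ℕ} (e₁ : EuclideanSpace ℝ (Fin (m + 1))) (ρ : ℝ)
    {F : EuclideanSpace ℝ (Fin (m + 1)) → ℝ≥0∞} (hF : Measurable F) : Measurable (smv e₁ ρ F) := by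
  unfold smv
  refine Measurable.const_mul ?_ _
  have h1 : Measurable fun z : EuclideanSpace ℝ (Fin (m + 1)) × ℝ => F (z.1 + z.2 • e₁) :=
    hF.comp (by fun_prop)
  exact h1.lintegral_prod_right' (ν := volume.restrict (Icc (-ρ) ρ))

/-- the general form -/
lemma st_gen (h9 : S_chain) (h10 : S_smooth) (m : ℕ) : ∃ C : ℝ, 0 < C ∧
    ∀ (e₁ : EuclideanSpace ℝ (Fin (m + 1))), ‖e₁‖ ≤ 1 →
    ∀ (E E' : Set (EuclideanSpace ℝ (Fin (m + 1)))), MeasurableSet E' → E' ⊆ E →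
    volume (E \ E') = 0 →
    ∀ (q κ δ : ℝ) (K : ℝ≥0∞), 1 < q → 0 < κ → 0 < δ → δ ≤ 1 →
    LineBound m (smv e₁ (3 * δ) (E'.indicator 1)) q K →
    ∫⁻ e in {e : sphere (0 : EuclideanSpace ℝ (Fin (m + 1))) 1 |
      κ ≤ |(e : EuclideanSpace ℝ (Fin (m + 1))) 0|},
        kakeyaMax δ (E.indicator 1) e ^ q ∂(surf (m + 1)) ≤
      ENNReal.ofReal C ^ q * (nsh κ : ℝ≥0∞) * K := by
  obtain ⟨C, hC, hle⟩ := Pool.Agent.TH539.kakeya_le_iSup m
  refine ⟨C * 2 ^ (m + 1) * 6 * (12 * (m + 1)), by positivity, ?_⟩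
  intro e₁ he₁ E E' hE' hEE hEd q κ δ K hq1 hκ hδ hδ1 hLB
  have hq0 : 0 < q := by linarith
  set F : EuclideanSpace ℝ (Fin (m + 1)) → ℝ≥0∞ := E'.indicator 1 with hFdef
  have hF : Measurable F := measurable_one.indicator hE'
  set H : EuclideanSpace ℝ (Fin (m + 1)) → ℝ≥0∞ := smv e₁ (3 * δ) F with hH
  have hHm : Measurable H := st_smv_meas e₁ (3 * δ) hF
  set qs : ℕ → EuclideanSpace ℝ (Fin (m + 1)) :=
    TopologicalSpace.denseSeq (EuclideanSpace ℝ (Fin (m + 1))) with hqs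
  have h1 := h9 m H q K hHm hq1 hLB κ (2 * (3 * δ)) hκ (by positivity) qs
  -- the pointwise bound
  have hae : (fun y => ‖(E.indicator (1 : EuclideanSpace ℝ (Fin (m + 1)) → ℝ) y)‖ₑ) =ᵐ[volume] F := by
    have h2 : ∀ᵐ y : EuclideanSpace ℝ (Fin (m + 1)), y ∉ E \ E' :=
      measure_eq_zero_iff_ae_notMem.1 hEd
    filter_upwards [h2] with y hy
    by_cases h3 : y ∈ E
    · have h4 : y ∈ E' := by
        by_contra h5
        exact hy ⟨h3, h5⟩
      rw [indicator_of_mem h3, hFdef, indicator_of_mem h4]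
      simp
    · have h4 : y ∉ E' := fun h5 => h3 (hEE h5)
      rw [indicator_of_notMem h3, hFdef, indicator_of_notMem h4]
      simp
  have hpt : ∀ e : sphere (0 : EuclideanSpace ℝ (Fin (m + 1))) 1,
      kakeyaMax δ (E.indicator 1) (e : EuclideanSpace ℝ (Fin (m + 1))) ≤
      ENNReal.ofReal (C * 2 ^ (m + 1)) * ⨆ k, ballAvg (2 * (3 * δ)) H (qs k) e := by
    intro e
    have h2 := hle δ e F hδ hδ1 (by simp) hF
    have h3 : kakeyaMax δ (E.indicator 1) (e : EuclideanSpace ℝ (Fin (m + 1))) =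
        ⨆ a, (volume (tube δ (e : EuclideanSpace ℝ (Fin (m + 1))) a))⁻¹ *
          ∫⁻ y in tube δ (e : EuclideanSpace ℝ (Fin (m + 1))) a, F y := by
      unfold kakeyaMax
      refine iSup_congr fun a => ?_
      congr 1
      exact lintegral_congr_ae (ae_restrict_of_ae hae)
    rw [h3]
    refine h2.trans ?_
    rw [ENNReal.ofReal_mul hC.le, mul_assoc]
    gcongr
    refine iSup_le fun k => ?_
    have h4 := h10 m e₁ he₁ (3 * δ) (by positivity) F hF (qs k) e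
    refine h4.trans ?_
    have h5 : ENNReal.ofReal ((2:ℝ) ^ (m + 1)) = 2 ^ (m + 1) := by
      rw [ENNReal.ofReal_pow (by norm_num)]
      norm_num
    rw [h5]
    gcongr
    exact le_iSup (fun k => ballAvg (2 * (3 * δ)) H (qs k) (e : EuclideanSpace ℝ (Fin (m + 1)))) k
  set S : Set (sphere (0 : EuclideanSpace ℝ (Fin (m + 1))) 1) :=
    {e | κ ≤ |(e : EuclideanSpace ℝ (Fin (m + 1))) 0|} with hS
  set D : ℝ := C * 2 ^ (m + 1) with hD
  have hDpos : 0 < D := by positivity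
  calc ∫⁻ e in S, kakeyaMax δ (E.indicator 1) e ^ q ∂(surf (m + 1))
      ≤ ∫⁻ e in S, ENNReal.ofReal D ^ q * (⨆ k, ballAvg (2 * (3 * δ)) H (qs k) e) ^ q
            ∂(surf (m + 1)) := by
        refine lintegral_mono fun e => ?_
        rw [← ENNReal.mul_rpow_of_nonneg _ _ hq0.le]
        exact ENNReal.rpow_le_rpow (hpt e) hq0.le
    _ = ENNReal.ofReal D ^ q * ∫⁻ e in S, (⨆ k, ballAvg (2 * (3 * δ)) H (qs k) e) ^ q
            ∂(surf (m + 1)) :=
        lintegral_const_mul' _ _ (ENNReal.rpow_ne_top_of_nonneg hq0.le ENNReal.ofReal_ne_top)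
    _ ≤ ENNReal.ofReal D ^ q * (3 ^ q * (3 * ((nsh κ : ℝ≥0∞) * (4 * (m + 1) * 2 ^ q * K)))) := by
        gcongr
    _ = ENNReal.ofReal D ^ q * 3 ^ q * 2 ^ q * (12 * (m + 1)) * (nsh κ : ℝ≥0∞) * K := by ring
    _ ≤ ENNReal.ofReal D ^ q * 3 ^ q * 2 ^ q * (12 * (m + 1)) ^ q * (nsh κ : ℝ≥0∞) * K := by
        gcongr
        have h3 : (1:ℝ≥0∞) ≤ 12 * (m + 1) := by
          calc (1:ℝ≥0∞) = 1 * 1 := (one_mul 1).symm
            _ ≤ 12 * (m + 1) := by
                gcongr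
                · norm_num
                · exact le_add_self
        calc (12 * ((m:ℝ≥0∞) + 1)) = (12 * ((m:ℝ≥0∞) + 1)) ^ (1:ℝ) := (ENNReal.rpow_one _).symm
          _ ≤ _ := ENNReal.rpow_le_rpow_of_exponent_le h3 hq1.le
    _ = _ := by
        rw [ENNReal.ofReal_mul (p := D * 6) (by positivity), ENNReal.ofReal_mul (p := D) hDpos.le,
          ENNReal.mul_rpow_of_nonneg (ENNReal.ofReal D * ENNReal.ofReal 6) _ hq0.le,
          ENNReal.mul_rpow_of_nonneg (ENNReal.ofReal D) _ hq0.le]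
        have e1 : ENNReal.ofReal 6 ^ q = 3 ^ q * 2 ^ q := by
          rw [← ENNReal.mul_rpow_of_nonneg _ _ hq0.le]
          norm_num
        have e2 : ENNReal.ofReal (12 * ((m:ℝ) + 1)) = 12 * (m + 1) := by
          rw [ENNReal.ofReal_mul (by norm_num), ENNReal.ofReal_add (by positivity) (by norm_num)]
          simp
        rw [e1, e2]
        ring

/-- **MS-14 (steep directions, `q > n`).** -/
theorem s_strong (h9 : S_chain) (h10 : S_smooth) (h11 : S_sigma) (h12 : S_line) : S_strong := by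
  intro d
  obtain ⟨C, hC, H⟩ := st_gen h9 h10 (d + 1)
  refine ⟨C, hC, ?_⟩
  intro Cv Λ hV hM E m hE hm hvol θ q κ δ hθ hq hκ hδ hδ1
  obtain ⟨E', hE'E, hE's, hE'd⟩ := h11 (d + 2) E hE.1 hvol
  have hE'm : MeasurableSet E' := by
    obtain ⟨Kc, hKc, hU⟩ := hE's
    rw [← hU]
    exact MeasurableSet.iUnion fun n => (hKc n).measurableSet
  have hq1 : 1 < q := by
    have h1 : (0:ℝ) ≤ d := by positivity
    have h2 : 0 ≤ 2 * (θ * ((d + 1) * d)) := by positivity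
    have h3 : 2 ≤ rr d θ := by unfold rr; linarith
    linarith
  have hL := h12 d Cv Λ hV hM E m hE hm E' hE'E hE's θ (3 * δ) q hθ (by positivity) hq
  exact H (EuclideanSpace.single (1 : Fin (d + 2)) (1:ℝ)) (by simp) E E' hE'm hE'E hE'd q κ δ
    (ENNReal.ofReal (q / (q - rr d θ)) * (KW d (3 * δ) θ * Λ * m)) hq1 hκ hδ hδ1 hL

end Pool.Agent.NH82.MS
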