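import Pool.Agent.NH82.MS.Stm

set_option autoImplicit false

open MeasureTheory Set ENNReal NNReal Metric

namespace Pool.Agent.NH82.MS

open Pool.Agent.TH539 (phi measurable_phi lintegral_phi lintegral_kernel)

/-- the integral of a product of functions of one coordinate each -/
theorem tr_prod (d : ℕ) : ∀ f : Fin d → ℝ → ℝ≥0∞, (∀ j, Measurable (f j)) →
    ∫⁻ s : Fin d → ℝ, ∏ j, f j (s j) = ∏ j, ∫⁻ x, f j x := by
  induction d with
  | zero =>
    intro f _
    simp only [Finset.univ_eq_empty, Finset.prod_empty, lintegral_const, one_mul]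
    rw [volume_pi, Measure.pi_of_empty (fun _ : Fin 0 => (volume : Measure ℝ)) (fun i => i.elim0)]
    simp
  | succ d ih =>
    intro f hf
    have h := volume_preserving_piFinSuccAbove (fun _ : Fin (d + 1) => ℝ) 0
    have hmeas : Measurable fun s : Fin d → ℝ => ∏ j : Fin d, f (Fin.succAbove 0 j) (s j) :=
      Finset.measurable_prod _ fun j _ => (hf _).comp (measurable_pi_apply j)
    have hm2 : Measurable fun p : ℝ × (Fin d → ℝ) =>
        f 0 p.1 * ∏ j : Fin d, f (Fin.succAbove 0 j) (p.2 j) :=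
      ((hf 0).comp measurable_fst).mul (hmeas.comp measurable_snd)
    calc ∫⁻ s : Fin (d + 1) → ℝ, ∏ j, f j (s j)
        = ∫⁻ s : Fin (d + 1) → ℝ, (fun p : ℝ × (Fin d → ℝ) =>
            f 0 p.1 * ∏ j : Fin d, f (Fin.succAbove 0 j) (p.2 j))
            (MeasurableEquiv.piFinSuccAbove (fun _ : Fin (d + 1) => ℝ) 0 s) := by
          refine lintegral_congr fun s => ?_
          rw [Fin.prod_univ_succAbove _ 0]
          rfl
      _ = ∫⁻ p : ℝ × (Fin d → ℝ), f 0 p.1 * ∏ j : Fin d, f (Fin.succAbove 0 j) (p.2 j) :=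
          h.lintegral_comp hm2
      _ = ∫⁻ x, ∫⁻ s : Fin d → ℝ, f 0 x * ∏ j : Fin d, f (Fin.succAbove 0 j) (s j) := by
          rw [Measure.volume_eq_prod, lintegral_prod _ hm2.aemeasurable]
      _ = ∫⁻ x, f 0 x * ∏ j : Fin d, ∫⁻ y, f (Fin.succAbove 0 j) y := by
          refine lintegral_congr fun x => ?_
          rw [lintegral_const_mul _ hmeas, ih _ fun j => hf _]
      _ = _ := by
          rw [lintegral_mul_const _ (hf 0), Fin.prod_univ_succAbove _ 0]

theorem tr_off (d : ℕ) (θ : ℝ) (hθ : 0 < θ) (h : ℝ → ℝ≥0∞) (hh : Measurable h)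
    (i : Fin (d + 1)) (j₀ : Fin d) :
    ∫⁻ t : Fin (d + 1) → ℝ, h (t (i.succAbove j₀)) *
        ∏ j : Fin d, phi θ (t i - t (i.succAbove j)) =
      (∫⁻ x, h x) * ENNReal.ofReal (2 / θ) ^ d := by
  have hv := volume_preserving_piFinSuccAbove (fun _ : Fin (d + 1) => ℝ) i
  have hm2 : Measurable fun p : ℝ × (Fin d → ℝ) => h (p.2 j₀) * ∏ j, phi θ (p.1 - p.2 j) := by
    refine (hh.comp ((measurable_pi_apply j₀).comp measurable_snd)).mul
      (Finset.measurable_prod _ fun j _ => ?_)
    exact (measurable_phi θ).comp (by fun_prop)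
  have hm3 : Measurable fun p : ℝ × ℝ => h p.2 * phi θ (p.1 - p.2) :=
    (hh.comp measurable_snd).mul ((measurable_phi θ).comp (by fun_prop))
  calc ∫⁻ t : Fin (d + 1) → ℝ, h (t (i.succAbove j₀)) *
        ∏ j : Fin d, phi θ (t i - t (i.succAbove j))
      = ∫⁻ s : Fin (d + 1) → ℝ,
          (fun p : ℝ × (Fin d → ℝ) => h (p.2 j₀) * ∏ j, phi θ (p.1 - p.2 j))
            (MeasurableEquiv.piFinSuccAbove (fun _ : Fin (d + 1) => ℝ) i s) := by
        refine lintegral_congr fun s => ?_
        rfl
    _ = ∫⁻ p : ℝ × (Fin d → ℝ), h (p.2 j₀) * ∏ j, phi θ (p.1 - p.2 j) := hv.lintegral_comp hm2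
    _ = ∫⁻ x, ∫⁻ s : Fin d → ℝ, h (s j₀) * ∏ j, phi θ (x - s j) := by
        rw [Measure.volume_eq_prod, lintegral_prod _ hm2.aemeasurable]
    _ = ∫⁻ x, (∫⁻ y, h y * phi θ (x - y)) * ENNReal.ofReal (2 / θ) ^ (d - 1) := by
        refine lintegral_congr fun x => ?_
        have hφx : Measurable fun y => phi θ (x - y) := (measurable_phi θ).comp (by fun_prop)
        have e1 : ∀ s : Fin d → ℝ, h (s j₀) * ∏ j, phi θ (x - s j) =
            ∏ j, (if j = j₀ then fun y => h y * phi θ (x - y) else fun y => phi θ (x - y))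
              (s j) := by
          intro s
          rw [← Finset.mul_prod_erase _ _ (Finset.mem_univ j₀),
            ← Finset.mul_prod_erase _ _ (Finset.mem_univ j₀), if_pos rfl, mul_assoc]
          congr 2
          refine Finset.prod_congr rfl fun j hj => ?_
          rw [if_neg (Finset.ne_of_mem_erase hj)]
        rw [lintegral_congr e1, tr_prod d, ← Finset.mul_prod_erase _ _ (Finset.mem_univ j₀),
          if_pos rfl]
        · congr 1
          rw [Finset.prod_congr rfl (g := fun _ => ENNReal.ofReal (2 / θ)), Finset.prod_const,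
            Finset.card_erase_of_mem (Finset.mem_univ j₀), Finset.card_univ, Fintype.card_fin]
          intro j hj
          rw [if_neg (Finset.ne_of_mem_erase hj),
            lintegral_sub_left_eq_self (fun y => phi θ y) x, lintegral_phi hθ]
        · intro j
          split_ifs
          · exact hh.mul hφx
          · exact hφx
    _ = (∫⁻ x, ∫⁻ y, h y * phi θ (x - y)) * ENNReal.ofReal (2 / θ) ^ (d - 1) := by
        refine lintegral_mul_const _ ?_
        exact hm3.lintegral_prod_right'
    _ = (∫⁻ y, ∫⁻ x, h y * phi θ (x - y)) * ENNReal.ofReal (2 / θ) ^ (d - 1) := by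
        rw [lintegral_lintegral_swap hm3.aemeasurable]
    _ = (∫⁻ y, h y * ENNReal.ofReal (2 / θ)) * ENNReal.ofReal (2 / θ) ^ (d - 1) := by
        congr 1
        refine lintegral_congr fun y => ?_
        have hφy : Measurable fun x => phi θ (x - y) := (measurable_phi θ).comp (by fun_prop)
        rw [lintegral_const_mul _ hφy, lintegral_sub_right_eq_self (fun x => phi θ x) y,
          lintegral_phi hθ]
    _ = (∫⁻ x, h x) * ENNReal.ofReal (2 / θ) ^ d := by
        rw [lintegral_mul_const _ hh, mul_assoc, ← pow_succ']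
        congr 2
        have := j₀.pos
        omega

theorem s_tree : S_tree := by
  intro d θ hθ h hh i k
  by_cases hk : k = i
  · subst hk
    exact lintegral_kernel hθ hh k
  · obtain ⟨j₀, rfl⟩ := Fin.exists_succAbove_eq hk
    exact tr_off d θ hθ h hh i j₀

end Pool.Agent.NH82.MS
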