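import Pool.Agent.NH82.MS.Stm

set_option autoImplicit false

/-!
# MS-4: measurability of the set of tuples (helper56)
-/

open MeasureTheory Set ENNReal NNReal Metric
open scoped Pointwise

namespace Pool.Agent.NH82.MS

theorem s_tupmeas : S_tupmeas := by
  intro d Z hZ
  obtain ⟨K, hK, hKZ⟩ := hZ
  set C : ℕ → Set (ℝ × (Fin d → ℝ)) := accumulate K with hC
  have hCc : ∀ m, IsClosed (C m) := fun m => by
    rw [hC]
    unfold accumulate
    exact (Set.finite_Iic m).isClosed_biUnion fun i _ => (hK i).isClosed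
  have hCm : Monotone C := monotone_accumulate
  have hCZ : ⋃ m, C m = Z := by rw [hC, iUnion_accumulate, hKZ]
  have h1 : tupZ Z = {p | ∀ i k, |p.2 i - p.2 k| ≤ 1} ∩
      ⋃ m, Prod.snd '' {x : (Fin d → ℝ) × ((Fin d → ℝ) × (Fin (d + 1) → ℝ)) |
        ∀ i, (x.2.2 i, x.1 + x.2.2 i • x.2.1) ∈ C m} := by
    ext p
    unfold tupZ
    simp only [mem_ofPred_eq, mem_inter_iff, mem_iUnion, mem_image, Prod.exists]
    refine and_congr_right fun _ => ?_
    constructor
    · rintro ⟨q, hq⟩
      have h2 : ∀ i, ∃ m, (p.2 i, q + p.2 i • p.1) ∈ C m := fun i => by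
        have := hq i
        rwa [← hCZ, mem_iUnion] at this
      choose m hm using h2
      refine ⟨Finset.univ.sup m, q, p.1, p.2, fun i => ?_, rfl⟩
      exact hCm (Finset.le_sup (Finset.mem_univ i)) (hm i)
    · rintro ⟨m, q, w, t, h2, rfl⟩
      refine ⟨q, fun i => ?_⟩
      rw [← hCZ, mem_iUnion]
      exact ⟨m, h2 i⟩
  rw [h1]
  refine MeasurableSet.inter ?_ (MeasurableSet.iUnion fun m => ?_)
  · simp only [ofPred_forall]
    refine MeasurableSet.iInter fun i => MeasurableSet.iInter fun k => ?_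
    exact (isClosed_le (by fun_prop) continuous_const).measurableSet
  · have h2 : IsClosed {x : (Fin d → ℝ) × ((Fin d → ℝ) × (Fin (d + 1) → ℝ)) |
        ∀ i, (x.2.2 i, x.1 + x.2.2 i • x.2.1) ∈ C m} := by
      simp only [ofPred_forall]
      exact isClosed_iInter fun i => (hCc m).preimage (by fun_prop)
    obtain ⟨L, hL, hLe⟩ := (isSigmaCompact_univ.of_isClosed_subset h2 (subset_univ _)).image continuous_snd
    rw [← hLe]
    exact MeasurableSet.iUnion fun n => (hL n).isClosed.measurableSet
end Pool.Agent.NH82.MS
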