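import Pool.Agent.NH82.MS.Stm

set_option autoImplicit false

open MeasureTheory Set ENNReal NNReal Metric
open scoped Pointwise

namespace Pool.Agent.NH82.MS

open Pool.Agent.TH539 (ker phi qq measurable_ker measurable_phi ker_le)
open Pool.Agent.TH539.SA (Vel)

variable {d : ℕ}

/-- The upper bound for fixed heights. -/
lemma up_fixed {Cv : ℝ≥0∞ → Set (Fin d → ℝ) → Prop} {Λ : ℝ≥0∞} (hC : Vel d Λ Cv)
    {Z : Set (ℝ × (Fin d → ℝ))} {θ : ℝ} (hθ : 0 < θ) {m : ℝ → ℝ≥0∞} {t : Fin (d + 1) → ℝ}
    (hcov : ∀ i, Cv (m (t i)) {y | (t i, y) ∈ Z}) :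
    ker θ t * volume {v | (v, t) ∈ tupZ Z} ≤ 4 ^ d * (d:ℝ≥0∞) ^ d * Λ *
      ∑ k, m (t k) * ∏ j : Fin d, phi θ (t k - t (k.succAbove j)) := by
  by_cases hinj : Function.Injective t
  swap
  · -- the kernel vanishes
    have : ker θ t = 0 := by
      unfold ker
      simp only [Function.Injective, not_forall] at hinj
      obtain ⟨i, k, hik, hne⟩ := hinj
      obtain ⟨j, hj⟩ := Fin.exists_succAbove_eq (Ne.symm hne)
      refine Finset.prod_eq_zero (Finset.mem_univ i) (Finset.prod_eq_zero (Finset.mem_univ j) ?_)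
      rw [hj, hik, sub_self, abs_zero, ENNReal.ofReal_zero, ENNReal.zero_rpow_of_pos hθ]
    rw [this, zero_mul]; exact zero_le
  rcases ({v | (v, t) ∈ tupZ Z} : Set (Fin d → ℝ)).eq_empty_or_nonempty with he | ⟨v0, hv0⟩
  · rw [he, measure_empty, mul_zero]; exact zero_le
  have hdist : ∀ i k, |t i - t k| ≤ 1 := hv0.1
  have hsub : {v | (v, t) ∈ tupZ Z} ⊆
      {v : Fin d → ℝ | ∃ q : Fin d → ℝ, ∀ i, q + t i • v ∈ {y | (t i, y) ∈ Z}} := by
    intro v hv
    exact hv.2
  have h1 := (measure_mono hsub).trans (hC t hinj (fun i => m (t i)) _ hcov)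
  calc ker θ t * volume {v | (v, t) ∈ tupZ Z}
      ≤ ker θ t * (4 ^ d * (d:ℝ≥0∞) ^ d * Λ *
        ∑ i, m (t i) * ∏ j : Fin d, (ENNReal.ofReal |t i - t (i.succAbove j)|)⁻¹) := by
        gcongr
    _ = 4 ^ d * (d:ℝ≥0∞) ^ d * Λ *
        ∑ i, m (t i) * (ker θ t * ∏ j : Fin d, (ENNReal.ofReal |t i - t (i.succAbove j)|)⁻¹) := by
        rw [mul_left_comm, Finset.mul_sum (a := ker θ t)]
        congr 1
        refine Finset.sum_congr rfl fun i _ => ?_
        ring
    _ ≤ _ := by
        gcongr with k _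
        calc ker θ t * ∏ j : Fin d, (ENNReal.ofReal |t k - t (k.succAbove j)|)⁻¹
            ≤ (∏ j : Fin d, ENNReal.ofReal |t k - t (k.succAbove j)| ^ θ) *
              ∏ j : Fin d, (ENNReal.ofReal |t k - t (k.succAbove j)|)⁻¹ := by
              gcongr
              exact ker_le hθ.le hdist k
          _ = ∏ j : Fin d, (ENNReal.ofReal |t k - t (k.succAbove j)| ^ θ *
              (ENNReal.ofReal |t k - t (k.succAbove j)|)⁻¹) := by
              rw [Finset.prod_mul_distrib]
          _ = _ := by
              refine Finset.prod_congr rfl fun j _ => ?_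
              set x := t k - t (k.succAbove j) with hx
              have hx0 : 0 < |x| := by
                rw [abs_pos, hx, sub_ne_zero]
                intro h
                exact (Fin.succAbove_ne k j) (hinj h).symm
              have hx1 : x ∈ Icc (-1:ℝ) 1 := abs_le.1 (hdist _ _)
              unfold phi
              rw [indicator_of_mem hx1, ENNReal.ofReal_rpow_of_pos hx0,
                ← ENNReal.ofReal_inv_of_pos hx0, ← ENNReal.ofReal_mul (by positivity)]
              congr 1
              rw [Real.rpow_sub_one hx0.ne', div_eq_mul_inv]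

lemma up_measSel {κ : ℝ → ℝ≥0∞} (hκ : Measurable κ) (k : Fin (d + 1)) :
    MeasurableSet (Sel κ k) := by
  have : Sel κ k = ⋂ j, {t : Fin (d + 1) → ℝ | κ (t j) ≤ κ (t k)} := by
    ext t; simp [Sel]
  rw [this]
  exact MeasurableSet.iInter fun j => measurableSet_le (hκ.comp (measurable_pi_apply j))
    (hκ.comp (measurable_pi_apply k))

/-- Separation of the coordinate with index `k`. -/
lemma up_split (k : Fin (d + 1)) {G : (Fin (d + 1) → ℝ) → ℝ≥0∞} (hG : Measurable G)
    {h : ℝ → ℝ≥0∞} (hh : Measurable h) :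
    ∫⁻ s, h s * ∫⁻ t' : Fin d → ℝ, G (k.insertNth s t') = ∫⁻ t, h (t k) * G t := by
  have hp := volume_preserving_piFinSuccAbove (fun _ : Fin (d + 1) => ℝ) k
  have hGm : Measurable fun p : ℝ × (Fin d → ℝ) =>
      G ((MeasurableEquiv.piFinSuccAbove (fun _ : Fin (d + 1) => ℝ) k).symm p) :=
    hG.comp (MeasurableEquiv.measurable _)
  have hm : Measurable fun p : ℝ × (Fin d → ℝ) => h p.1 *
      G ((MeasurableEquiv.piFinSuccAbove (fun _ : Fin (d + 1) => ℝ) k).symm p) :=
    (hh.comp measurable_fst).mul hGm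
  calc ∫⁻ s, h s * ∫⁻ t' : Fin d → ℝ, G (k.insertNth s t')
      = ∫⁻ s, ∫⁻ t' : Fin d → ℝ, h s *
          G ((MeasurableEquiv.piFinSuccAbove (fun _ : Fin (d + 1) => ℝ) k).symm (s, t')) := by
        refine lintegral_congr fun s => ?_
        have e : Measurable fun t' : Fin d → ℝ =>
            G ((MeasurableEquiv.piFinSuccAbove (fun _ : Fin (d + 1) => ℝ) k).symm (s, t')) :=
          hGm.comp (measurable_const.prodMk measurable_id)
        rw [lintegral_const_mul _ e]
        rfl
    _ = ∫⁻ p : ℝ × (Fin d → ℝ), h p.1 *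
          G ((MeasurableEquiv.piFinSuccAbove (fun _ : Fin (d + 1) => ℝ) k).symm p) :=
        (lintegral_prod _ hm.aemeasurable).symm
    _ = ∫⁻ t, (fun p : ℝ × (Fin d → ℝ) => h p.1 *
          G ((MeasurableEquiv.piFinSuccAbove (fun _ : Fin (d + 1) => ℝ) k).symm p))
          (MeasurableEquiv.piFinSuccAbove (fun _ : Fin (d + 1) => ℝ) k t) :=
        (hp.lintegral_comp hm).symm
    _ = _ := by
        refine lintegral_congr fun t => ?_
        simp only [MeasurableEquiv.symm_apply_apply]
        rfl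

theorem s_up (h3 : S_tree) : S_up := by
  intro d Cv Λ hC θ hθ Z hZ κ hκ hcov h hh k
  have hSel := up_measSel (d := d) hκ k
  have hT : MeasurableSet (tupZ Z ∩ (Prod.snd ⁻¹' Sel κ k)) := hZ.inter (measurable_snd hSel)
  have hF : Measurable fun p : (Fin d → ℝ) × (Fin (d + 1) → ℝ) =>
      (tupZ Z ∩ (Prod.snd ⁻¹' Sel κ k)).indicator (fun p => ker θ p.2) p :=
    ((measurable_ker θ).comp measurable_snd).indicator hT
  have hae : ∀ᵐ t : Fin (d + 1) → ℝ, ∀ i, Cv (κ (t i)) {y | (t i, y) ∈ Z} := by
    rw [Filter.eventually_all]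
    intro i
    exact (Measure.tendsto_eval_ae_ae (μ := fun _ : Fin (d + 1) => (volume : Measure ℝ))
      (i := i)).eventually hcov
  have hprod : ∀ i : Fin (d + 1), Measurable fun t : Fin (d + 1) → ℝ =>
      ∏ j : Fin d, phi θ (t i - t (i.succAbove j)) := fun i =>
    Finset.measurable_prod _ fun j _ => (measurable_phi θ).comp (by fun_prop)
  calc ∫⁻ w : Fin d → ℝ, ∫⁻ s, h s * WW θ Z κ k w s
      = ∫⁻ w : Fin d → ℝ, ∫⁻ t : Fin (d + 1) → ℝ, h (t k) *
          (tupZ Z ∩ (Prod.snd ⁻¹' Sel κ k)).indicator (fun p => ker θ p.2) (w, t) := by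
        refine lintegral_congr fun w => ?_
        exact up_split k (G := fun t => (tupZ Z ∩ (Prod.snd ⁻¹' Sel κ k)).indicator
          (fun p => ker θ p.2) (w, t)) (hF.comp (measurable_const.prodMk measurable_id)) hh
    _ = ∫⁻ t : Fin (d + 1) → ℝ, ∫⁻ w : Fin d → ℝ, h (t k) *
          (tupZ Z ∩ (Prod.snd ⁻¹' Sel κ k)).indicator (fun p => ker θ p.2) (w, t) :=
        lintegral_lintegral_swap
          (((hh.comp ((measurable_pi_apply k).comp measurable_snd)).mul hF).aemeasurable)
    _ ≤ ∫⁻ t : Fin (d + 1) → ℝ, 4 ^ d * (d:ℝ≥0∞) ^ d * Λ *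
          ∑ i, (h (t k) * κ (t k)) * ∏ j : Fin d, phi θ (t i - t (i.succAbove j)) := by
        refine lintegral_mono_ae ?_
        filter_upwards [hae] with t ht
        have e0 : Measurable fun w : Fin d → ℝ =>
            (tupZ Z ∩ (Prod.snd ⁻¹' Sel κ k)).indicator (fun p => ker θ p.2) (w, t) :=
          hF.comp (measurable_id.prodMk measurable_const)
        rw [lintegral_const_mul _ e0]
        by_cases hts : t ∈ Sel κ k
        · have hsec : MeasurableSet {v | (v, t) ∈ tupZ Z} :=
            hZ.preimage (measurable_prodMk_right (y := t))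
          have e : (fun v => (tupZ Z ∩ (Prod.snd ⁻¹' Sel κ k)).indicator
              (fun p => ker θ p.2) (v, t)) =
              {v | (v, t) ∈ tupZ Z}.indicator (fun _ => ker θ t) := by
            funext v
            by_cases hv : (v, t) ∈ tupZ Z
            · rw [indicator_of_mem (show (v, t) ∈ tupZ Z ∩ (Prod.snd ⁻¹' Sel κ k) from ⟨hv, hts⟩),
                indicator_of_mem (show v ∈ {v | (v, t) ∈ tupZ Z} from hv)]
            · rw [indicator_of_notMem (fun h => hv h.1),
                indicator_of_notMem (show v ∉ {v | (v, t) ∈ tupZ Z} from hv)]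
          rw [e, lintegral_indicator hsec, setLIntegral_const]
          calc h (t k) * (ker θ t * volume {v | (v, t) ∈ tupZ Z})
              ≤ h (t k) * (4 ^ d * (d:ℝ≥0∞) ^ d * Λ *
                ∑ i, κ (t i) * ∏ j : Fin d, phi θ (t i - t (i.succAbove j))) :=
                mul_le_mul' le_rfl (up_fixed hC hθ ht)
            _ ≤ h (t k) * (4 ^ d * (d:ℝ≥0∞) ^ d * Λ *
                ∑ i, κ (t k) * ∏ j : Fin d, phi θ (t i - t (i.succAbove j))) := by
                gcongr with i _
                exact hts i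
            _ = _ := by
                rw [mul_left_comm, Finset.mul_sum (a := h (t k))]
                congr 1
                refine Finset.sum_congr rfl fun i _ => ?_
                ring
        · have e : (fun v => (tupZ Z ∩ (Prod.snd ⁻¹' Sel κ k)).indicator
              (fun p => ker θ p.2) (v, t)) = fun _ => 0 := by
            funext v
            exact indicator_of_notMem (fun h => hts h.2) _
          rw [e, lintegral_zero, mul_zero]
          exact zero_le
    _ = 4 ^ d * (d:ℝ≥0∞) ^ d * Λ *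
          ∑ i : Fin (d + 1), ∫⁻ t : Fin (d + 1) → ℝ,
            (h (t k) * κ (t k)) * ∏ j : Fin d, phi θ (t i - t (i.succAbove j)) := by
        have hmk : ∀ i : Fin (d + 1), Measurable fun t : Fin (d + 1) → ℝ =>
            (h (t k) * κ (t k)) * ∏ j : Fin d, phi θ (t i - t (i.succAbove j)) := fun i =>
          ((hh.comp (measurable_pi_apply k)).mul (hκ.comp (measurable_pi_apply k))).mul (hprod i)
        rw [lintegral_const_mul _ (Finset.measurable_sum _ fun i _ => hmk i),
          lintegral_finsetSum _ fun i _ => hmk i]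
    _ = _ := by
        have h4 := fun i => h3 d θ hθ (fun s => h s * κ s) (hh.mul hκ) i k
        simp only [h4]
        rw [Finset.sum_const, Finset.card_univ, Fintype.card_fin, nsmul_eq_mul]
        push_cast
        ring

end Pool.Agent.NH82.MS
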