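import Pool.Agent.NH82.MS.Meas

set_option autoImplicit false

/-!
MS-7: the weak type estimate.
-/

open MeasureTheory Set ENNReal NNReal Metric
open scoped Pointwise

namespace Pool.Agent.NH82.MS

open Pool.Agent.TH539 (ker phi qq ballAvg kakeyaMax nsh surf pt tube measurable_ker)
open Pool.Agent.TH539.SA (Vel)

variable {d : ℕ}

/-- The planar function. -/
noncomputable def wk_G (θ lam : ℝ) (Y : Set (ℝ × ℝ)) (Z : Set (ℝ × (Fin d → ℝ))) (κ : ℝ → ℝ≥0∞)
    (k : Fin (d + 1)) (w : Fin d → ℝ) (z : ℝ × ℝ) : ℝ≥0∞ :=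
  Y.indicator 1 z * min 1 ((ENNReal.ofReal lam ^ d)⁻¹ * WW θ Z κ k w z.1)

lemma wk_G_le_one {θ lam : ℝ} {Y : Set (ℝ × ℝ)} {Z : Set (ℝ × (Fin d → ℝ))} {κ : ℝ → ℝ≥0∞}
    {k : Fin (d + 1)} {w : Fin d → ℝ} (z : ℝ × ℝ) : wk_G θ lam Y Z κ k w z ≤ 1 := by
  unfold wk_G
  calc Y.indicator 1 z * min 1 ((ENNReal.ofReal lam ^ d)⁻¹ * WW θ Z κ k w z.1) ≤ 1 * 1 := by
        gcongr
        · by_cases h : z ∈ Y
          · rw [indicator_of_mem h]; exact le_rfl
          · rw [indicator_of_notMem h]; exact zero_le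
        · exact min_le_left _ _
    _ = 1 := one_mul 1

lemma wk_G_meas {θ lam : ℝ} {Y : Set (ℝ × ℝ)} (hY : MeasurableSet Y) {Z : Set (ℝ × (Fin d → ℝ))}
    (hZ : MeasurableSet (tupZ Z)) {κ : ℝ → ℝ≥0∞} (hκ : Measurable κ) (k : Fin (d + 1)) :
    Measurable fun p : (Fin d → ℝ) × (ℝ × ℝ) => wk_G θ lam Y Z κ k p.1 p.2 := by
  unfold wk_G
  have h1 : Measurable fun p : (Fin d → ℝ) × (ℝ × ℝ) => Y.indicator (1 : ℝ × ℝ → ℝ≥0∞) p.2 :=
    (measurable_one.indicator hY).comp measurable_snd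
  have h2 : Measurable fun p : (Fin d → ℝ) × (ℝ × ℝ) => WW θ Z κ k p.1 p.2.1 :=
    (ms_measurable_WW hZ hκ θ k).comp (by fun_prop :
      Measurable fun p : (Fin d → ℝ) × (ℝ × ℝ) => (p.1, p.2.1))
  exact h1.mul (measurable_const.min (h2.const_mul _))

lemma wk_KK {θ lam ρ : ℝ} (hlam : 0 < lam) {Y : Set (ℝ × ℝ)} {Z : Set (ℝ × (Fin d → ℝ))}
    {κ : ℝ → ℝ≥0∞} (k : Fin (d + 1)) (w : Fin d → ℝ) (b c u : ℝ) :
    ∫⁻ s in Icc (c - 1 / 2) (c + 1 / 2), sm ρ (Y.indicator 1) (s, b + s * u) *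
      min (ENNReal.ofReal lam ^ d) (WW θ Z κ k w s) =
    ENNReal.ofReal lam ^ d * KK ρ (wk_G θ lam Y Z κ k w) b c u := by
  have h0 : ENNReal.ofReal lam ^ d ≠ 0 := by
    have : ENNReal.ofReal lam ≠ 0 := by simpa using hlam
    exact pow_ne_zero _ this
  have ht : ENNReal.ofReal lam ^ d ≠ ∞ := ENNReal.pow_ne_top ENNReal.ofReal_ne_top
  unfold KK
  rw [← lintegral_const_mul' _ _ ht]
  refine lintegral_congr fun s => ?_
  have h1 : min (ENNReal.ofReal lam ^ d) (WW θ Z κ k w s) =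
      ENNReal.ofReal lam ^ d * min 1 ((ENNReal.ofReal lam ^ d)⁻¹ * WW θ Z κ k w s) := by
    rw [mul_min, mul_one, ← mul_assoc, ENNReal.mul_inv_cancel h0 ht, one_mul]
  have h2 : sm ρ (wk_G θ lam Y Z κ k w) (s, b + s * u) =
      sm ρ (Y.indicator 1) (s, b + s * u) *
        min 1 ((ENNReal.ofReal lam ^ d)⁻¹ * WW θ Z κ k w s) := by
    unfold sm wk_G
    rw [mul_assoc, ← lintegral_mul_const' _ _ (ne_top_of_le_ne_top ENNReal.one_ne_top (min_le_left _ _))]
  rw [h1, h2]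
  ring

lemma wk_sq_sum (x : Fin (d + 1) → ℝ≥0∞) : (∑ k, x k) ^ 2 ≤ (d + 1) * ∑ k, x k ^ 2 := by
  have h := ENNReal.inner_le_Lp_mul_Lq (Finset.univ : Finset (Fin (d + 1))) (fun _ => (1:ℝ≥0∞)) x
    (p := 2) (q := 2) (by constructor <;> norm_num)
  simp only [one_mul, ENNReal.one_rpow, Finset.sum_const, Finset.card_univ, Fintype.card_fin,
    nsmul_eq_mul, mul_one] at h
  calc (∑ k, x k) ^ 2 ≤ ((((d + 1 : ℕ) : ℝ≥0∞)) ^ (1 / (2:ℝ)) * (∑ k, x k ^ (2:ℝ)) ^ (1 / (2:ℝ))) ^ 2 := by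
        gcongr
    _ = (d + 1) * ∑ k, x k ^ 2 := by
        rw [mul_pow, ← ENNReal.rpow_natCast, ← ENNReal.rpow_natCast, ← ENNReal.rpow_mul,
          ← ENNReal.rpow_mul]
        norm_num

/-- **MS-7.** -/
theorem s_weak (h1 : S_planar) (h4 : S_tupmeas) (h5 : S_up) (h6 : S_point) : S_weak := by
  intro d Cv Λ hV θ ρ hθ hρ Y hY Z hZ κ hκ hcov b₁ b₂ c hb₁ hb₂ hc lam hlam hlam1
  have hZt := h4 d Z hZ
  have hZm : MeasurableSet Z := ms_sigma_meas hZ
  set E : ℝ≥0∞ := ENNReal.ofReal lam ^ d with hE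
  have hlE : ENNReal.ofReal lam ≠ 0 := by simpa using hlam
  have hE0 : E ≠ 0 := pow_ne_zero _ hlE
  have hEt : E ≠ ∞ := ENNReal.pow_ne_top ENNReal.ofReal_ne_top
  set X : ℝ≥0∞ := ENNReal.ofReal (lam / (2 * d + 1)) ^ (qq d θ) with hX
  set S : ℝ≥0∞ := ENNReal.ofReal (8 * Real.log (1 + 1 / ρ)) with hS
  set h : ℝ → ℝ≥0∞ := fun t => volume {y : ℝ | (t, y) ∈ Y} with hh
  have hhm : Measurable h := measurable_measure_prodMk_left hY
  set B : ℝ≥0∞ := (d + 1) * 4 ^ d * (d:ℝ≥0∞) ^ d * Λ * ENNReal.ofReal (2 / θ) ^ d *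
    ∫⁻ s, h s * κ s with hB
  set G : Fin (d + 1) → (Fin d → ℝ) → ℝ × ℝ → ℝ≥0∞ := fun k w => wk_G θ lam Y Z κ k w with hG
  -- the majorant
  set f : ℝ × (Fin d → ℝ) → ℝ≥0∞ := fun v =>
    E ^ 2 * ((d + 1) * ∑ k, KK ρ (G k v.2) (b₁ v) (c v) v.1 ^ 2) with hf
  have hKKm : ∀ k, Measurable fun v : ℝ × (Fin d → ℝ) => KK ρ (G k v.2) (b₁ v) (c v) v.1 := by
    intro k
    unfold KK
    have e1 : Measurable fun p : (ℝ × (Fin d → ℝ)) × ℝ =>
        ((p.1.2, (p.2, b₁ p.1 + p.2 * p.1.1)) : (Fin d → ℝ) × (ℝ × ℝ)) := by fun_prop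
    have e2 : Measurable fun p : (Fin d → ℝ) × (ℝ × ℝ) => sm ρ (fun z => wk_G θ lam Y Z κ k p.1 z) p.2 :=
      ms_measurable_sm (wk_G_meas hY hZt hκ k)
    exact ms_measurable_window hc (e2.comp e1)
  have hfm : Measurable f := by
    refine Measurable.const_mul (Measurable.const_mul ?_ _) _
    exact Finset.measurable_sum _ fun k _ => (hKKm k).pow_const 2
  -- pointwise
  have hpt : ∀ v : ℝ × (Fin d → ℝ), ENNReal.ofReal lam ≤ LL ρ Y Z b₁ b₂ c v → X ^ 2 ≤ f v := by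
    intro v hv
    have hPm : Measurable fun t : ℝ => sm ρ (Y.indicator (1 : ℝ × ℝ → ℝ≥0∞)) (t, b₁ v + t * v.1) := by
      have e2 : Measurable fun p : Unit × (ℝ × ℝ) =>
          sm ρ (fun z => Y.indicator (1 : ℝ × ℝ → ℝ≥0∞) z) p.2 :=
        ms_measurable_sm ((measurable_one.indicator hY).comp measurable_snd)
      exact e2.comp (by fun_prop : Measurable fun t : ℝ => ((), (t, b₁ v + t * v.1)))
    have hP1 : ∀ t : ℝ, sm ρ (Y.indicator (1 : ℝ × ℝ → ℝ≥0∞)) (t, b₁ v + t * v.1) ≤ 1 := by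
      intro t
      refine ms_sm_le hρ (fun z => ?_) _
      by_cases hz : z ∈ Y
      · rw [indicator_of_mem hz]; exact le_rfl
      · rw [indicator_of_notMem hz]; exact zero_le
    have h7 := h6 d θ hθ.le Z hZm hZt κ hκ
      (fun t => sm ρ (Y.indicator (1 : ℝ × ℝ → ℝ≥0∞)) (t, b₁ v + t * v.1)) hPm hP1 (b₂ v) v.2 (c v)
      lam hlam hv
    simp_rw [wk_KK hlam] at h7
    rw [← Finset.mul_sum] at h7
    calc X ^ 2 ≤ (E * ∑ k, KK ρ (G k v.2) (b₁ v) (c v) v.1) ^ 2 := by gcongr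
      _ = E ^ 2 * (∑ k, KK ρ (G k v.2) (b₁ v) (c v) v.1) ^ 2 := mul_pow _ _ _
      _ ≤ _ := by
          simp only [hf]
          gcongr
          exact wk_sq_sum _
  -- the integral of the majorant
  set Q : Set (ℝ × (Fin d → ℝ)) := {v | |v.1| ≤ 2} with hQ
  have hQm : MeasurableSet Q := by
    have : Measurable fun v : ℝ × (Fin d → ℝ) => |v.1| := by fun_prop
    exact measurableSet_le this measurable_const
  have hQp : Q = Icc (-2 : ℝ) 2 ×ˢ (univ : Set (Fin d → ℝ)) := by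
    ext v
    simp only [hQ, mem_ofPred_eq, mem_prod, mem_Icc, mem_univ, and_true, abs_le]
  have hint : ∀ k, ∫⁻ v in Q, KK ρ (G k v.2) (b₁ v) (c v) v.1 ^ 2 ≤ S * (E⁻¹ * B) := by
    intro k
    have hsq : Measurable fun v : ℝ × (Fin d → ℝ) => KK ρ (G k v.2) (b₁ v) (c v) v.1 ^ 2 :=
      (hKKm k).pow_const 2
    calc ∫⁻ v in Q, KK ρ (G k v.2) (b₁ v) (c v) v.1 ^ 2
        = ∫⁻ w : Fin d → ℝ, ∫⁻ u in Icc (-2 : ℝ) 2,
            KK ρ (G k w) (b₁ (u, w)) (c (u, w)) u ^ 2 := by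
          rw [hQp, Measure.volume_eq_prod, ← Measure.prod_restrict, Measure.restrict_univ,
            lintegral_prod_symm _ hsq.aemeasurable]
      _ ≤ ∫⁻ w : Fin d → ℝ, S * ∫⁻ z, G k w z ^ 2 := by
          refine lintegral_mono fun w => ?_
          have hGw : Measurable (G k w) :=
            (wk_G_meas hY hZt hκ k).comp (measurable_prodMk_left (x := w))
          exact h1 ρ hρ (G k w) hGw (fun z => wk_G_le_one z) (fun u => b₁ (u, w)) (fun u => c (u, w))
            (hb₁.comp measurable_prodMk_right) (hc.comp measurable_prodMk_right)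
      _ ≤ ∫⁻ w : Fin d → ℝ, S * ∫⁻ s, h s * (E⁻¹ * WW θ Z κ k w s) := by
          refine lintegral_mono fun w => ?_
          gcongr
          have hGw : Measurable (G k w) :=
            (wk_G_meas hY hZt hκ k).comp (measurable_prodMk_left (x := w))
          calc ∫⁻ z, G k w z ^ 2 ≤ ∫⁻ z, G k w z := by
                refine lintegral_mono fun z => ?_
                have : G k w z ≤ 1 := wk_G_le_one z
                calc G k w z ^ 2 = G k w z * G k w z := sq _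
                  _ ≤ G k w z * 1 := by gcongr
                  _ = _ := mul_one _
            _ = ∫⁻ s, ∫⁻ y, G k w (s, y) := by
                rw [Measure.volume_eq_prod, lintegral_prod _ hGw.aemeasurable]
            _ ≤ ∫⁻ s, h s * (E⁻¹ * WW θ Z κ k w s) := by
                refine lintegral_mono fun s => ?_
                have hYs : MeasurableSet {y : ℝ | (s, y) ∈ Y} := hY.preimage measurable_prodMk_left
                calc ∫⁻ y, G k w (s, y)
                    = ∫⁻ y, {y : ℝ | (s, y) ∈ Y}.indicator 1 y *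
                        min 1 ((ENNReal.ofReal lam ^ d)⁻¹ * WW θ Z κ k w s) := by
                      refine lintegral_congr fun y => ?_
                      simp only [hG, wk_G]
                      congr 1
                  _ = volume {y : ℝ | (s, y) ∈ Y} *
                        min 1 ((ENNReal.ofReal lam ^ d)⁻¹ * WW θ Z κ k w s) := by
                      rw [lintegral_mul_const' _ _
                        (ne_top_of_le_ne_top ENNReal.one_ne_top (min_le_left _ _)),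
                        lintegral_indicator_one hYs]
                  _ ≤ _ := by
                      gcongr
                      exact min_le_right _ _
      _ = S * (E⁻¹ * ∫⁻ w : Fin d → ℝ, ∫⁻ s, h s * WW θ Z κ k w s) := by
          rw [lintegral_const_mul' _ _ ENNReal.ofReal_ne_top]
          congr 1
          rw [← lintegral_const_mul' _ _ (ENNReal.inv_ne_top.2 hE0)]
          refine lintegral_congr fun w => ?_
          rw [← lintegral_const_mul' _ _ (ENNReal.inv_ne_top.2 hE0)]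
          refine lintegral_congr fun s => ?_
          ring
      _ ≤ _ := by
          gcongr
          exact h5 d Cv Λ hV θ hθ Z hZt κ hκ hcov h hhm k
  have hfint : ∫⁻ v in Q, f v ≤ E ^ 2 * ((d + 1) * ((d + 1) * (S * (E⁻¹ * B)))) := by
    have hm : ∀ k ∈ (Finset.univ : Finset (Fin (d + 1))), Measurable fun v : ℝ × (Fin d → ℝ) =>
        KK ρ (G k v.2) (b₁ v) (c v) v.1 ^ 2 := fun k _ => (hKKm k).pow_const 2
    have hd1 : ((d:ℝ≥0∞) + 1) ≠ ∞ := by finiteness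
    simp only [hf]
    rw [lintegral_const_mul' _ _ (ENNReal.pow_ne_top hEt), lintegral_const_mul' _ _ hd1,
      lintegral_finsetSum _ hm]
    gcongr
    calc ∑ k, ∫⁻ v in Q, KK ρ (G k v.2) (b₁ v) (c v) v.1 ^ 2
        ≤ ∑ _k : Fin (d + 1), S * (E⁻¹ * B) := Finset.sum_le_sum fun k _ => hint k
      _ = _ := by
          rw [Finset.sum_const, Finset.card_univ, Fintype.card_fin, nsmul_eq_mul]
          push_cast
          ring
  -- Markov
  have hA : X ^ 2 * volume {v : ℝ × (Fin d → ℝ) | |v.1| ≤ 2 ∧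
      ENNReal.ofReal lam ≤ LL ρ Y Z b₁ b₂ c v} ≤ ∫⁻ v in Q, f v := by
    calc X ^ 2 * volume {v : ℝ × (Fin d → ℝ) | |v.1| ≤ 2 ∧
          ENNReal.ofReal lam ≤ LL ρ Y Z b₁ b₂ c v}
        ≤ X ^ 2 * (volume.restrict Q) {v | X ^ 2 ≤ f v} := by
          refine mul_le_mul' le_rfl ?_
          rw [Measure.restrict_apply (measurableSet_le measurable_const hfm)]
          refine measure_mono ?_
          rintro v ⟨hv1, hv2⟩
          exact ⟨hpt v hv2, hv1⟩
      _ ≤ _ := mul_meas_ge_le_lintegral hfm _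
  -- the algebra
  have hn0 : (2 * (d:ℝ≥0∞) + 1) ≠ 0 := by positivity
  have hnt : (2 * (d:ℝ≥0∞) + 1) ≠ ∞ := by finiteness
  have hqq : 0 < qq d θ := by unfold qq; positivity
  have hXe : (2 * (d:ℝ≥0∞) + 1) ^ (2 * qq d θ) * X ^ 2 = ENNReal.ofReal lam ^ (rr d θ) * E := by
    have e1 : ENNReal.ofReal (lam / (2 * d + 1)) = ENNReal.ofReal lam / (2 * d + 1) := by
      rw [ENNReal.ofReal_div_of_pos (by positivity)]
      congr 1
      rw [ENNReal.ofReal_add (by positivity) (by positivity), ENNReal.ofReal_mul (by norm_num)]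
      simp
    have e2 : X ^ 2 = (ENNReal.ofReal lam / (2 * d + 1)) ^ (2 * qq d θ) := by
      rw [hX, e1, ← ENNReal.rpow_natCast, ← ENNReal.rpow_mul]
      congr 1
      push_cast
      ring
    rw [e2, ← ENNReal.mul_rpow_of_nonneg _ _ (by positivity), ENNReal.mul_div_cancel hn0 hnt, hE,
      ← ENNReal.rpow_natCast, ← ENNReal.rpow_add _ _ hlE ENNReal.ofReal_ne_top]
    congr 1
    unfold rr qq
    ring
  set V := volume {v : ℝ × (Fin d → ℝ) | |v.1| ≤ 2 ∧
      ENNReal.ofReal lam ≤ LL ρ Y Z b₁ b₂ c v} with hVdef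
  have hmain : E * (ENNReal.ofReal lam ^ (rr d θ) * V) ≤
      E * ((2 * (d:ℝ≥0∞) + 1) ^ (2 * qq d θ) * ((d + 1) * ((d + 1) * (S * B)))) := by
    calc E * (ENNReal.ofReal lam ^ (rr d θ) * V)
        = (ENNReal.ofReal lam ^ (rr d θ) * E) * V := by ring
      _ = (2 * (d:ℝ≥0∞) + 1) ^ (2 * qq d θ) * (X ^ 2 * V) := by rw [← hXe]; ring
      _ ≤ (2 * (d:ℝ≥0∞) + 1) ^ (2 * qq d θ) *
          (E ^ 2 * ((d + 1) * ((d + 1) * (S * (E⁻¹ * B))))) := by
          exact mul_le_mul' le_rfl (hA.trans hfint)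
      _ = E * (E * E⁻¹) * ((2 * (d:ℝ≥0∞) + 1) ^ (2 * qq d θ) * ((d + 1) * ((d + 1) * (S * B)))) := by
          ring
      _ = _ := by rw [ENNReal.mul_inv_cancel hE0 hEt, mul_one]
  have hfin := (ENNReal.mul_le_mul_iff_right hE0 hEt).1 hmain
  refine hfin.trans (le_of_eq ?_)
  rw [hB, KW]
  ring

end Pool.Agent.NH82.MS
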