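import Pool.Agent.NH82.MS.Planar
import Pool.Agent.NH82.MS.Kerlow
import Pool.Agent.NH82.MS.Tree
import Pool.Agent.NH82.MS.TupMeas
import Pool.Agent.NH82.MS.Up
import Pool.Agent.NH82.MS.Point
import Pool.Agent.NH82.MS.Weak
import Pool.Agent.NH82.MS.Layer
import Pool.Agent.NH82.MS.Line
import Pool.Agent.NH82.MS.Chain
import Pool.Agent.NH82.MS.Smooth
import Pool.Agent.NH82.MS.SigRot
import Pool.Agent.NH82.MS.Strong
import Pool.Agent.NH82.MS.SetCrit
import Pool.Agent.NH82.MS.FunCrit

set_option autoImplicit false

/-!
Assembly of project MS.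
-/

namespace Pool.Agent.NH82.MS

/-- The weak type estimate. -/
theorem f_weak : S_weak := s_weak s_planar s_tupmeas (s_up s_tree) (s_point s_kerlow)

/-- Lines and mixed sets. -/
theorem f_line : S_line := s_line (s_R f_weak)

/-- Sets, `q > n`. -/
theorem f_strong : S_strong := s_strong s_chain s_smooth s_sigma f_line

/-- Sets, critical exponent. -/
theorem f_setCrit : S_setCrit := s_setCrit f_strong

/-- Functions, critical exponent. -/
theorem f_funCrit : S_funCrit := s_funCrit s_rot f_setCrit

end Pool.Agent.NH82.MS
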