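import Pool.Agent.NH82.MS.Stm

set_option autoImplicit false

/-!
Measurability lemmas for project MS.
-/

open MeasureTheory Set ENNReal NNReal Metric
open scoped Pointwise

namespace Pool.Agent.NH82.MS

open Pool.Agent.TH539 (ker phi qq ballAvg kakeyaMax nsh surf pt tube measurable_ker)

variable {d : ℕ}

lemma ms_sigma_meas {X : Type*} [TopologicalSpace X] [T2Space X] [MeasurableSpace X] [BorelSpace X]
    {Z : Set X} (hZ : IsSigmaCompact Z) : MeasurableSet Z := by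
  obtain ⟨K, hK, rfl⟩ := hZ
  exact MeasurableSet.iUnion fun n => (hK n).measurableSet

lemma ms_measurable_Sel {κ : ℝ → ℝ≥0∞} (hκ : Measurable κ) (k : Fin (d + 1)) :
    MeasurableSet (Sel κ k : Set (Fin (d + 1) → ℝ)) := by
  have : (Sel κ k : Set (Fin (d + 1) → ℝ)) = ⋂ j, {t | κ (t j) ≤ κ (t k)} := by
    ext t; simp [Sel]
  rw [this]
  exact MeasurableSet.iInter fun j =>
    measurableSet_le (hκ.comp (measurable_pi_apply j)) (hκ.comp (measurable_pi_apply k))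

lemma ms_measurable_insertNth (k : Fin (d + 1)) :
    Measurable fun p : ℝ × (Fin d → ℝ) => (k.insertNth p.1 p.2 : Fin (d + 1) → ℝ) :=
  (MeasurableEquiv.piFinSuccAbove (fun _ : Fin (d + 1) => ℝ) k).symm.measurable

/-- The integrand of `WW`. -/
lemma ms_measurable_F {Z : Set (ℝ × (Fin d → ℝ))} (hZ : MeasurableSet (tupZ Z))
    {κ : ℝ → ℝ≥0∞} (hκ : Measurable κ) (θ : ℝ) (k : Fin (d + 1)) :
    Measurable ((tupZ Z ∩ (Prod.snd ⁻¹' Sel κ k)).indicator
      (fun p : (Fin d → ℝ) × (Fin (d + 1) → ℝ) => ker θ p.2)) :=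
  ((measurable_ker θ).comp measurable_snd).indicator
    (hZ.inter (measurable_snd (ms_measurable_Sel hκ k)))

lemma ms_measurable_WW {Z : Set (ℝ × (Fin d → ℝ))} (hZ : MeasurableSet (tupZ Z))
    {κ : ℝ → ℝ≥0∞} (hκ : Measurable κ) (θ : ℝ) (k : Fin (d + 1)) :
    Measurable fun p : (Fin d → ℝ) × ℝ => WW θ Z κ k p.1 p.2 := by
  unfold WW
  have h1 : Measurable fun p : ((Fin d → ℝ) × ℝ) × (Fin d → ℝ) =>
      ((p.1.1, k.insertNth p.1.2 p.2) : (Fin d → ℝ) × (Fin (d + 1) → ℝ)) :=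
    (measurable_fst.comp measurable_fst).prodMk
      ((ms_measurable_insertNth k).comp ((measurable_snd.comp measurable_fst).prodMk measurable_snd))
  exact ((ms_measurable_F hZ hκ θ k).comp h1).lintegral_prod_right'

/-- Integrals over windows. -/
lemma ms_measurable_window {X : Type*} [MeasurableSpace X] {c : X → ℝ} (hc : Measurable c)
    {Φ : X × ℝ → ℝ≥0∞} (hΦ : Measurable Φ) :
    Measurable fun v : X => ∫⁻ t in Icc (c v - 1 / 2) (c v + 1 / 2), Φ (v, t) := by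
  have hS : MeasurableSet {p : X × ℝ | c p.1 - 1 / 2 ≤ p.2 ∧ p.2 ≤ c p.1 + 1 / 2} := by
    have e1 : Measurable fun p : X × ℝ => c p.1 := hc.comp measurable_fst
    exact (measurableSet_le (e1.sub_const _) measurable_snd).inter
      (measurableSet_le measurable_snd (e1.add_const _))
  have h1 : ∀ v : X, ∫⁻ t in Icc (c v - 1 / 2) (c v + 1 / 2), Φ (v, t) =
      ∫⁻ t, {p : X × ℝ | c p.1 - 1 / 2 ≤ p.2 ∧ p.2 ≤ c p.1 + 1 / 2}.indicator Φ (v, t) := by
    intro v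
    rw [← lintegral_indicator measurableSet_Icc]
    refine lintegral_congr fun t => ?_
    by_cases h : t ∈ Icc (c v - 1 / 2) (c v + 1 / 2)
    · rw [indicator_of_mem h, indicator_of_mem
        (show (v, t) ∈ {p : X × ℝ | c p.1 - 1 / 2 ≤ p.2 ∧ p.2 ≤ c p.1 + 1 / 2} from h)]
    · rw [indicator_of_notMem h, indicator_of_notMem
        (show (v, t) ∉ {p : X × ℝ | c p.1 - 1 / 2 ≤ p.2 ∧ p.2 ≤ c p.1 + 1 / 2} from h)]
  simp_rw [h1]
  exact (hΦ.indicator hS).lintegral_prod_right'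

lemma ms_measurable_sm {ρ : ℝ} {X : Type*} [MeasurableSpace X] {G : X × (ℝ × ℝ) → ℝ≥0∞}
    (hG : Measurable G) :
    Measurable fun p : X × (ℝ × ℝ) => sm ρ (fun z => G (p.1, z)) p.2 := by
  unfold sm
  refine Measurable.const_mul ?_ _
  have h1 : Measurable fun p : (X × (ℝ × ℝ)) × ℝ => G (p.1.1, (p.1.2.1, p.1.2.2 + p.2)) :=
    hG.comp (by fun_prop)
  exact h1.lintegral_prod_right' (ν := volume.restrict (Icc (-ρ) ρ))

lemma ms_sm_le {ρ : ℝ} (hρ : 0 < ρ) {G : ℝ × ℝ → ℝ≥0∞} (hG : ∀ z, G z ≤ 1) (z : ℝ × ℝ) :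
    sm ρ G z ≤ 1 := by
  unfold sm
  calc (ENNReal.ofReal (2 * ρ))⁻¹ * ∫⁻ β in Icc (-ρ) ρ, G (z.1, z.2 + β)
      ≤ (ENNReal.ofReal (2 * ρ))⁻¹ * ∫⁻ _β in Icc (-ρ) ρ, 1 := by
        gcongr with β
        exact hG _
    _ = (ENNReal.ofReal (2 * ρ))⁻¹ * ENNReal.ofReal (2 * ρ) := by
        rw [setLIntegral_const, Real.volume_Icc, one_mul]
        congr 2
        ring
    _ = 1 := ENNReal.inv_mul_cancel (by simpa using hρ) ENNReal.ofReal_ne_top

lemma ms_sm_mono {ρ : ℝ} {G H : ℝ × ℝ → ℝ≥0∞} (h : ∀ z, G z ≤ H z) (z : ℝ × ℝ) :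
    sm ρ G z ≤ sm ρ H z := by
  unfold sm
  gcongr with β
  exact h _

end Pool.Agent.NH82.MS
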