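import Pool.Agent.NH82.MS.Stm

/-!
# Project MS (MP_5168f5_an), MS-1: the planar Kakeya maximal estimate for bounded functions
-/

set_option autoImplicit false

open MeasureTheory Set ENNReal NNReal Metric
open scoped Pointwise

namespace Pool.Agent.NH82.MS

/-- indicator of `[-h, h]` -/
noncomputable def pl_I (h x : ℝ) : ℝ≥0∞ := (Icc (-h) h).indicator 1 x

@[fun_prop]
theorem pl_I_meas (h : ℝ) : Measurable (pl_I h) :=
  measurable_one.indicator measurableSet_Icc

theorem pl_I_le (h x : ℝ) : pl_I h x ≤ 1 := by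
  unfold pl_I
  exact indicator_le_self' (by simp) x

theorem pl_I_of {h x : ℝ} (hx : |x| ≤ h) : pl_I h x = 1 := by
  unfold pl_I
  rw [indicator_of_mem (show x ∈ Icc (-h) h from abs_le.1 hx)]
  rfl

theorem pl_I_not {h x : ℝ} (hx : ¬ |x| ≤ h) : pl_I h x = 0 := by
  unfold pl_I
  rw [indicator_of_notMem]
  exact fun hh => hx (abs_le.2 hh)

theorem pl_lint (h : ℝ) (f : ℝ → ℝ≥0∞) :
    ∫⁻ x in Icc (-h) h, f x = ∫⁻ x, pl_I h x * f x := by
  rw [← lintegral_indicator measurableSet_Icc]
  apply lintegral_congr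
  intro x
  unfold pl_I
  by_cases hx : x ∈ Icc (-h) h
  · rw [indicator_of_mem hx, indicator_of_mem hx]; simp
  · rw [indicator_of_notMem hx, indicator_of_notMem hx, zero_mul]

theorem pl_I_int (h : ℝ) (a : ℝ) : ∫⁻ x, pl_I h (x - a) = ENNReal.ofReal (2 * h) := by
  rw [lintegral_sub_right_eq_self (fun x => pl_I h x) a]
  have := pl_lint h (fun _ => 1)
  simp only [mul_one] at this
  rw [← this]
  simp only [lintegral_const, Measure.restrict_apply_univ, Real.volume_Icc, one_mul]
  congr 1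
  ring

/-- the tube -/
noncomputable def pl_tau (ρ b c u : ℝ) (z : ℝ × ℝ) : ℝ≥0∞ :=
  pl_I (1 / 2) (z.1 - c) * pl_I ρ (z.2 - (b + z.1 * u))

theorem pl_tau_meas (ρ : ℝ) (b c : ℝ → ℝ) (hb : Measurable b) (hc : Measurable c) :
    Measurable fun p : ℝ × (ℝ × ℝ) => pl_tau ρ (b p.1) (c p.1) p.1 p.2 := by
  unfold pl_tau
  exact ((pl_I_meas _).comp (by fun_prop)).mul ((pl_I_meas _).comp (by fun_prop))

theorem pl_tau_meas' (ρ b c u : ℝ) : Measurable (pl_tau ρ b c u) := by
  unfold pl_tau
  exact ((pl_I_meas _).comp (by fun_prop)).mul ((pl_I_meas _).comp (by fun_prop))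

theorem pl_KK (ρ : ℝ) (G : ℝ × ℝ → ℝ≥0∞) (hG : Measurable G) (b c u : ℝ) :
    KK ρ G b c u = ∫⁻ z, G z * ((ENNReal.ofReal (2 * ρ))⁻¹ * pl_tau ρ b c u z) := by
  have h1 : ∀ t, sm ρ G (t, b + t * u) =
      ∫⁻ y, G (t, y) * ((ENNReal.ofReal (2 * ρ))⁻¹ * pl_I ρ (y - (b + t * u))) := by
    intro t
    unfold sm
    rw [pl_lint, ← lintegral_sub_right_eq_self _ (b + t * u), ← lintegral_const_mul]
    · apply lintegral_congr
      intro y
      show _ * (pl_I ρ (y - (b + t * u)) * G (t, b + t * u + (y - (b + t * u)))) = _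
      rw [add_sub_cancel]
      ring
    · exact ((pl_I_meas _).comp (by fun_prop)).mul (hG.comp (by fun_prop))
  unfold KK
  simp only [h1]
  rw [Measure.volume_eq_prod, lintegral_prod _ (by
    exact (hG.mul (measurable_const.mul (pl_tau_meas' ρ b c u))).aemeasurable)]
  rw [← lintegral_indicator measurableSet_Icc]
  apply lintegral_congr
  intro t
  by_cases ht : t ∈ Icc (c - 1 / 2) (c + 1 / 2)
  · rw [indicator_of_mem ht]
    apply lintegral_congr
    intro y
    unfold pl_tau
    rw [pl_I_of (x := t - c) (by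
      rw [abs_le]; exact ⟨by linarith [ht.1], by linarith [ht.2]⟩), one_mul]
  · rw [indicator_of_notMem ht]
    symm
    rw [lintegral_eq_zero_iff (by
      exact (hG.comp (by fun_prop)).mul (measurable_const.mul
        ((pl_tau_meas' ρ b c u).comp (by fun_prop))))]
    apply Filter.Eventually.of_forall
    intro y
    show G (t, y) * (_ * pl_tau ρ b c u (t, y)) = 0
    unfold pl_tau
    rw [pl_I_not (x := t - c) (fun h => ht (by
      rw [abs_le] at h; exact ⟨by linarith [h.1], by linarith [h.2]⟩))]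
    simp

/-- the area of the intersection of two tubes -/
theorem pl_area (ρ : ℝ) (hρ : 0 < ρ) (b c u b' c' u' : ℝ) :
    ∫⁻ z, pl_tau ρ b c u z * pl_tau ρ b' c' u' z ≤
      ENNReal.ofReal (2 * ρ) * (ENNReal.ofReal (2 * ρ) * ENNReal.ofReal (4 / (4 * ρ + |u - u'|))) := by
  have h1 : ∫⁻ z, pl_tau ρ b c u z * pl_tau ρ b' c' u' z ≤
      ENNReal.ofReal (2 * ρ) *
        ∫⁻ t, pl_I (1 / 2) (t - c) * pl_I (2 * ρ) ((b - b') + t * (u - u')) := by
    have hmm : Measurable fun z : ℝ × ℝ => pl_tau ρ b c u z * pl_tau ρ b' c' u' z :=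
      (pl_tau_meas' ρ b c u).mul (pl_tau_meas' ρ b' c' u')
    rw [Measure.volume_eq_prod, lintegral_prod _ hmm.aemeasurable,
      ← lintegral_const_mul]
    · apply lintegral_mono
      intro t
      calc ∫⁻ y, pl_tau ρ b c u (t, y) * pl_tau ρ b' c' u' (t, y)
          ≤ ∫⁻ y, (pl_I (1 / 2) (t - c) * pl_I (2 * ρ) ((b - b') + t * (u - u'))) *
              pl_I ρ (y - (b + t * u)) := by
            apply lintegral_mono
            intro y
            show (pl_I (1 / 2) (t - c) * pl_I ρ (y - (b + t * u))) *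
              (pl_I (1 / 2) (t - c') * pl_I ρ (y - (b' + t * u'))) ≤ _
            have h2 : pl_I ρ (y - (b + t * u)) * pl_I ρ (y - (b' + t * u')) ≤
                pl_I (2 * ρ) ((b - b') + t * (u - u')) * pl_I ρ (y - (b + t * u)) := by
              by_cases h3 : |y - (b + t * u)| ≤ ρ
              · by_cases h4 : |y - (b' + t * u')| ≤ ρ
                · rw [pl_I_of h3, pl_I_of h4, pl_I_of]
                  rw [abs_le] at h3 h4 ⊢
                  constructor <;> nlinarith [h3.1, h3.2, h4.1, h4.2]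
                · rw [pl_I_not h4]; simp
              · rw [pl_I_not h3]; simp
            calc (pl_I (1 / 2) (t - c) * pl_I ρ (y - (b + t * u))) *
                  (pl_I (1 / 2) (t - c') * pl_I ρ (y - (b' + t * u')))
                = pl_I (1 / 2) (t - c) * pl_I (1 / 2) (t - c') *
                    (pl_I ρ (y - (b + t * u)) * pl_I ρ (y - (b' + t * u'))) := by ring
              _ ≤ pl_I (1 / 2) (t - c) * 1 *
                    (pl_I (2 * ρ) ((b - b') + t * (u - u')) * pl_I ρ (y - (b + t * u))) := by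
                  gcongr
                  exact pl_I_le _ _
              _ = _ := by ring
        _ = ENNReal.ofReal (2 * ρ) *
            (pl_I (1 / 2) (t - c) * pl_I (2 * ρ) ((b - b') + t * (u - u'))) := by
            have hmy : Measurable fun y : ℝ => pl_I ρ (y - (b + t * u)) := by fun_prop
            rw [lintegral_const_mul _ hmy, pl_I_int, mul_comm]
    · fun_prop
  refine h1.trans ?_
  gcongr
  rw [← ENNReal.ofReal_mul (by positivity)]
  rcases le_total |u - u'| (4 * ρ) with h2 | h2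
  · calc ∫⁻ t, pl_I (1 / 2) (t - c) * pl_I (2 * ρ) ((b - b') + t * (u - u'))
        ≤ ∫⁻ t, pl_I (1 / 2) (t - c) := by
          apply lintegral_mono
          intro t
          exact (mul_le_mul_right (pl_I_le _ _) _).trans (by simp)
      _ = ENNReal.ofReal (2 * (1 / 2)) := pl_I_int _ _
      _ ≤ _ := by
          apply ENNReal.ofReal_le_ofReal
          rw [show 2 * ρ * (4 / (4 * ρ + |u - u'|)) = (2 * ρ * 4) / (4 * ρ + |u - u'|) by ring,
            le_div_iff₀ (by positivity)]
          linarith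
  · have hx : 0 < |u - u'| := by linarith
    have hx0 : u - u' ≠ 0 := abs_pos.1 hx
    calc ∫⁻ t, pl_I (1 / 2) (t - c) * pl_I (2 * ρ) ((b - b') + t * (u - u'))
        ≤ ∫⁻ t, pl_I (2 * ρ / |u - u'|) (t - (-(b - b') / (u - u'))) := by
          apply lintegral_mono
          intro t
          show pl_I (1 / 2) (t - c) * pl_I (2 * ρ) ((b - b') + t * (u - u')) ≤
            pl_I (2 * ρ / |u - u'|) (t - (-(b - b') / (u - u')))
          by_cases h3 : |(b - b') + t * (u - u')| ≤ 2 * ρ
          · rw [pl_I_of h3, pl_I_of (h := 2 * ρ / |u - u'|), mul_one]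
            · exact pl_I_le _ _
            · rw [le_div_iff₀ hx, ← abs_mul]
              have : (t - -(b - b') / (u - u')) * (u - u') = (b - b') + t * (u - u') := by
                field_simp
                ring
              rw [this]
              exact h3
          · rw [pl_I_not h3]; simp
      _ = ENNReal.ofReal (2 * (2 * ρ / |u - u'|)) := pl_I_int _ _
      _ ≤ _ := by
          apply ENNReal.ofReal_le_ofReal
          rw [show 2 * (2 * ρ / |u - u'|) = (4 * ρ) / |u - u'| by ring,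
            show 2 * ρ * (4 / (4 * ρ + |u - u'|)) = (8 * ρ) / (4 * ρ + |u - u'|) by ring,
            div_le_div_iff₀ hx (by positivity)]
          nlinarith

theorem pl_int (ρ : ℝ) (hρ : 0 < ρ) :
    ∫ x in (0 : ℝ)..4, 4 / (4 * ρ + |x|) = 4 * Real.log (1 + 1 / ρ) := by
  have h1 : ∫ x in (0 : ℝ)..4, 4 / (4 * ρ + |x|) = ∫ x in (0 : ℝ)..4, 4 / (4 * ρ + x) := by
    apply intervalIntegral.integral_congr
    intro x hx
    rw [uIcc_of_le (by norm_num)] at hx
    simp only [abs_of_nonneg hx.1]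
  rw [h1]
  have h2 : ∀ x ∈ uIcc (0 : ℝ) 4, HasDerivAt (fun x => 4 * Real.log (4 * ρ + x))
      (4 / (4 * ρ + x)) x := by
    intro x hx
    rw [uIcc_of_le (by norm_num)] at hx
    have h3 : 4 * ρ + x ≠ 0 := by have := hx.1; positivity
    have h4 := (((hasDerivAt_id x).const_add (4 * ρ)).log h3).const_mul 4
    have h5 : 4 / (4 * ρ + x) = 4 * (1 / (4 * ρ + id x)) := by
      simp only [id]
      ring
    rw [h5]
    exact h4
  rw [intervalIntegral.integral_eq_sub_of_hasDerivAt h2]
  · rw [← mul_sub, ← Real.log_div (by positivity) (by positivity)]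
    congr 2
    field_simp
    ring
  · apply ContinuousOn.intervalIntegrable
    intro x hx
    rw [uIcc_of_le (by norm_num)] at hx
    have h3 : 4 * ρ + x ≠ 0 := by have := hx.1; positivity
    exact (continuousAt_const.div (by fun_prop) h3).continuousWithinAt

theorem pl_cont (ρ : ℝ) (hρ : 0 < ρ) : Continuous fun x : ℝ => 4 / (4 * ρ + |x|) := by
  refine continuous_const.div (by fun_prop) fun x => ?_
  positivity

theorem pl_schur (ρ : ℝ) (hρ : 0 < ρ) (u : ℝ) (hu : u ∈ Icc (-2 : ℝ) 2) :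
    ∫⁻ v in Icc (-2 : ℝ) 2, ENNReal.ofReal (4 / (4 * ρ + |u - v|)) ≤
      ENNReal.ofReal (8 * Real.log (1 + 1 / ρ)) := by
  have h1 : ∫⁻ v in Icc (-2 : ℝ) 2, ENNReal.ofReal (4 / (4 * ρ + |u - v|)) ≤
      ∫⁻ x in Icc (-4 : ℝ) 4, ENNReal.ofReal (4 / (4 * ρ + |x|)) := by
    rw [pl_lint, pl_lint, ← lintegral_sub_left_eq_self _ u]
    apply lintegral_mono
    intro x
    show pl_I 2 (u - x) * ENNReal.ofReal (4 / (4 * ρ + |u - (u - x)|)) ≤
      pl_I 4 x * ENNReal.ofReal (4 / (4 * ρ + |x|))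
    rw [show u - (u - x) = x by ring]
    by_cases h2 : |u - x| ≤ 2
    · rw [pl_I_of (h := 4)]
      · gcongr
        exact pl_I_le _ _
      · rw [abs_le] at h2 ⊢
        constructor <;> linarith [h2.1, h2.2, hu.1, hu.2]
    · rw [pl_I_not h2]; simp
  refine h1.trans (le_of_eq ?_)
  rw [← ofReal_integral_eq_lintegral_ofReal]
  · congr 1
    rw [integral_Icc_eq_integral_Ioc, ← intervalIntegral.integral_of_le (by norm_num),
      ← intervalIntegral.integral_add_adjacent_intervals (b := 0)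
        ((pl_cont ρ hρ).intervalIntegrable _ _) ((pl_cont ρ hρ).intervalIntegrable _ _), pl_int ρ hρ]
    have h3 := intervalIntegral.integral_comp_neg (a := 0) (b := 4)
      (fun x : ℝ => 4 / (4 * ρ + |x|))
    simp only [abs_neg, neg_zero] at h3
    rw [← h3, pl_int ρ hρ]
    ring
  · exact (pl_cont ρ hρ).integrableOn_Icc
  · exact Filter.Eventually.of_forall fun x => by positivity

theorem pl_amgm (a b : ℝ≥0∞) (ha : a ≠ ∞) (hb : b ≠ ∞) : 2 * (a * b) ≤ a ^ 2 + b ^ 2 := by
  lift a to ℝ≥0 using ha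
  lift b to ℝ≥0 using hb
  have := two_mul_le_add_sq a b
  rw [mul_assoc] at this
  exact_mod_cast this

theorem pl_kernel (ρ : ℝ) (hρ : 0 < ρ) (K : ℝ → ℝ≥0∞) (hK : Measurable K) (hK1 : ∀ u, K u ≤ 1) :
    ∫⁻ u in Icc (-2 : ℝ) 2, ∫⁻ v in Icc (-2 : ℝ) 2,
      K u * K v * ENNReal.ofReal (4 / (4 * ρ + |u - v|)) ≤
      ENNReal.ofReal (8 * Real.log (1 + 1 / ρ)) * ∫⁻ u in Icc (-2 : ℝ) 2, K u ^ 2 := by
  have hkm : Measurable fun p : ℝ × ℝ => ENNReal.ofReal (4 / (4 * ρ + |p.1 - p.2|)) := by
    fun_prop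
  have hkm' : ∀ u : ℝ, Measurable fun v : ℝ => ENNReal.ofReal (4 / (4 * ρ + |u - v|)) := by
    intro u
    fun_prop
  have hA : ∫⁻ u in Icc (-2 : ℝ) 2, ∫⁻ v in Icc (-2 : ℝ) 2,
      K u ^ 2 * ENNReal.ofReal (4 / (4 * ρ + |u - v|)) ≤
      ENNReal.ofReal (8 * Real.log (1 + 1 / ρ)) * ∫⁻ u in Icc (-2 : ℝ) 2, K u ^ 2 := by
    rw [← lintegral_const_mul _ (hK.pow_const 2)]
    apply setLIntegral_mono' measurableSet_Icc
    intro u hu
    rw [lintegral_const_mul _ (hkm' u), mul_comm]
    gcongr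
    exact pl_schur ρ hρ u hu
  have hB : ∫⁻ u in Icc (-2 : ℝ) 2, ∫⁻ v in Icc (-2 : ℝ) 2,
      K v ^ 2 * ENNReal.ofReal (4 / (4 * ρ + |u - v|)) ≤
      ENNReal.ofReal (8 * Real.log (1 + 1 / ρ)) * ∫⁻ u in Icc (-2 : ℝ) 2, K u ^ 2 := by
    rw [lintegral_lintegral_swap]
    · have h1 : ∀ u v : ℝ, ENNReal.ofReal (4 / (4 * ρ + |u - v|)) =
          ENNReal.ofReal (4 / (4 * ρ + |v - u|)) := by
        intro u v
        rw [abs_sub_comm]
      simp only [h1] at hA ⊢
      refine le_trans (le_of_eq ?_) hA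
      apply lintegral_congr
      intro u
      apply lintegral_congr
      intro v
      rw [h1]
    · exact (((hK.comp measurable_snd).pow_const 2).mul hkm).aemeasurable
  have hC : 2 * (∫⁻ u in Icc (-2 : ℝ) 2, ∫⁻ v in Icc (-2 : ℝ) 2,
      K u * K v * ENNReal.ofReal (4 / (4 * ρ + |u - v|))) ≤
      2 * (ENNReal.ofReal (8 * Real.log (1 + 1 / ρ)) * ∫⁻ u in Icc (-2 : ℝ) 2, K u ^ 2) := by
    calc 2 * (∫⁻ u in Icc (-2 : ℝ) 2, ∫⁻ v in Icc (-2 : ℝ) 2,
          K u * K v * ENNReal.ofReal (4 / (4 * ρ + |u - v|)))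
        = ∫⁻ u in Icc (-2 : ℝ) 2, ∫⁻ v in Icc (-2 : ℝ) 2,
          2 * (K u * K v) * ENNReal.ofReal (4 / (4 * ρ + |u - v|)) := by
          rw [← lintegral_const_mul]
          · apply lintegral_congr
            intro u
            rw [← lintegral_const_mul]
            · apply lintegral_congr
              intro v
              ring
            · exact (measurable_const.mul hK).mul (hkm' u)
          · exact Measurable.lintegral_prod_right'
              (f := fun p : ℝ × ℝ => K p.1 * K p.2 * ENNReal.ofReal (4 / (4 * ρ + |p.1 - p.2|)))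
              (((hK.comp measurable_fst).mul (hK.comp measurable_snd)).mul hkm)
      _ ≤ ∫⁻ u in Icc (-2 : ℝ) 2, ∫⁻ v in Icc (-2 : ℝ) 2,
          (K u ^ 2 * ENNReal.ofReal (4 / (4 * ρ + |u - v|)) +
            K v ^ 2 * ENNReal.ofReal (4 / (4 * ρ + |u - v|))) := by
          apply lintegral_mono
          intro u
          apply lintegral_mono
          intro v
          show 2 * (K u * K v) * ENNReal.ofReal (4 / (4 * ρ + |u - v|)) ≤
            K u ^ 2 * ENNReal.ofReal (4 / (4 * ρ + |u - v|)) +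
              K v ^ 2 * ENNReal.ofReal (4 / (4 * ρ + |u - v|))
          rw [← add_mul]
          gcongr
          exact pl_amgm _ _ ((hK1 u).trans_lt one_lt_top).ne ((hK1 v).trans_lt one_lt_top).ne
      _ = (∫⁻ u in Icc (-2 : ℝ) 2, ∫⁻ v in Icc (-2 : ℝ) 2,
            K u ^ 2 * ENNReal.ofReal (4 / (4 * ρ + |u - v|))) +
          ∫⁻ u in Icc (-2 : ℝ) 2, ∫⁻ v in Icc (-2 : ℝ) 2,
            K v ^ 2 * ENNReal.ofReal (4 / (4 * ρ + |u - v|)) := by
          rw [← lintegral_add_left]
          · apply lintegral_congr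
            intro u
            rw [lintegral_add_left]
            exact measurable_const.mul (hkm' u)
          · exact Measurable.lintegral_prod_right'
              (f := fun p : ℝ × ℝ => K p.1 ^ 2 * ENNReal.ofReal (4 / (4 * ρ + |p.1 - p.2|)))
              (((hK.comp measurable_fst).pow_const 2).mul hkm)
      _ ≤ _ := by
          rw [two_mul]
          exact add_le_add hA hB
  exact (ENNReal.mul_le_mul_iff_right (by norm_num) (by norm_num)).1 hC

theorem s_planar : S_planar := by
  intro ρ hρ G hG hG1 b c hb hc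
  set w : ℝ≥0∞ := (ENNReal.ofReal (2 * ρ))⁻¹ with hw
  have hw0 : ENNReal.ofReal (2 * ρ) ≠ 0 := by
    rw [Ne, ENNReal.ofReal_eq_zero]; linarith
  have hwt : ENNReal.ofReal (2 * ρ) ≠ ∞ := ENNReal.ofReal_ne_top
  obtain ⟨T, hT⟩ : ∃ T : ℝ × (ℝ × ℝ) → ℝ≥0∞, T = fun p => pl_tau ρ (b p.1) (c p.1) p.1 p.2 :=
    ⟨_, rfl⟩
  have hTm : Measurable T := by rw [hT]; exact pl_tau_meas ρ b c hb hc
  have hTa : ∀ u v, ∫⁻ z, T (u, z) * T (v, z) ≤ ENNReal.ofReal (2 * ρ) *
      (ENNReal.ofReal (2 * ρ) * ENNReal.ofReal (4 / (4 * ρ + |u - v|))) := by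
    intro u v
    rw [hT]
    exact pl_area ρ hρ (b u) (c u) u (b v) (c v) v
  set K : ℝ → ℝ≥0∞ := fun u => KK ρ G (b u) (c u) u with hKdef
  have hK : ∀ u, K u = ∫⁻ z, G z * (w * T (u, z)) := fun u => by
    rw [hT]
    exact pl_KK ρ G hG (b u) (c u) u
  have hKm : Measurable K := by
    have : K = fun u => ∫⁻ z, G z * (w * T (u, z)) := funext hK
    rw [this]
    exact Measurable.lintegral_prod_right' (f := fun p : ℝ × (ℝ × ℝ) => G p.2 * (w * T (p.1, p.2)))
      (by fun_prop)
  have hK1 : ∀ u, K u ≤ 1 := by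
    intro u
    show KK ρ G (b u) (c u) u ≤ 1
    unfold KK
    have h1 : ∀ z, sm ρ G z ≤ 1 := by
      intro z
      unfold sm
      calc (ENNReal.ofReal (2 * ρ))⁻¹ * ∫⁻ β in Icc (-ρ) ρ, G (z.1, z.2 + β)
          ≤ (ENNReal.ofReal (2 * ρ))⁻¹ * ∫⁻ β in Icc (-ρ) ρ, 1 := by
            gcongr
            exact hG1 _
        _ = (ENNReal.ofReal (2 * ρ))⁻¹ * ENNReal.ofReal (2 * ρ) := by
            simp only [lintegral_const, Measure.restrict_apply_univ, Real.volume_Icc, one_mul]
            congr 2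
            ring
        _ = 1 := ENNReal.inv_mul_cancel hw0 hwt
        _ ≤ 1 := le_rfl
    calc ∫⁻ t in Icc (c u - 1 / 2) (c u + 1 / 2), sm ρ G (t, b u + t * u)
        ≤ ∫⁻ t in Icc (c u - 1 / 2) (c u + 1 / 2), 1 := by
          gcongr
          exact h1 _
      _ = 1 := by
          simp only [lintegral_const, Measure.restrict_apply_univ, Real.volume_Icc, one_mul]
          rw [← ENNReal.ofReal_one]
          congr 1
          ring
      _ ≤ 1 := le_rfl
  set X : ℝ≥0∞ := ∫⁻ u in Icc (-2 : ℝ) 2, K u ^ 2 with hX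
  have hXt : X ≠ ∞ := by
    have h1 : X ≤ ∫⁻ u in Icc (-2 : ℝ) 2, 1 := by
      apply lintegral_mono
      intro u
      exact pow_le_one' (hK1 u) 2
    refine (h1.trans_lt ?_).ne
    simp
  set S : ℝ≥0∞ := ENNReal.ofReal (8 * Real.log (1 + 1 / ρ)) with hS
  set H : ℝ × ℝ → ℝ≥0∞ := fun z => ∫⁻ u in Icc (-2 : ℝ) 2, K u * (w * T (u, z)) with hH
  have hHm : Measurable H := by
    exact Measurable.lintegral_prod_left' (f := fun p : ℝ × (ℝ × ℝ) => K p.1 * (w * T (p.1, p.2)))
      (by fun_prop)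
  have e1 : X = ∫⁻ z, G z * H z := by
    calc X = ∫⁻ u in Icc (-2 : ℝ) 2, ∫⁻ z, K u * (G z * (w * T (u, z))) := by
            apply lintegral_congr
            intro u
            have hm0 : Measurable fun z => G z * (w * T (u, z)) := by fun_prop
            rw [lintegral_const_mul _ hm0, ← hK u, sq]
      _ = ∫⁻ z, ∫⁻ u in Icc (-2 : ℝ) 2, K u * (G z * (w * T (u, z))) := by
            apply lintegral_lintegral_swap
            have hm0 : Measurable fun p : ℝ × (ℝ × ℝ) =>
              K p.1 * (G p.2 * (w * T (p.1, p.2))) := by fun_prop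
            exact hm0.aemeasurable
      _ = ∫⁻ z, G z * H z := by
            apply lintegral_congr
            intro z
            rw [hH]
            simp only
            rw [← lintegral_const_mul]
            · apply lintegral_congr
              intro u
              ring
            · fun_prop
  have e2 : ∫⁻ z, H z ^ 2 ≤ S * X := by
    calc ∫⁻ z, H z ^ 2
        = ∫⁻ z, ∫⁻ u in Icc (-2 : ℝ) 2, ∫⁻ v in Icc (-2 : ℝ) 2,
            (K u * (w * T (u, z))) * (K v * (w * T (v, z))) := by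
          apply lintegral_congr
          intro z
          have hm1 : Measurable fun u => K u * (w * T (u, z)) := by fun_prop
          rw [sq]
          show (∫⁻ u in Icc (-2 : ℝ) 2, K u * (w * T (u, z))) * H z = _
          rw [← lintegral_mul_const _ hm1]
          apply lintegral_congr
          intro u
          show K u * (w * T (u, z)) * (∫⁻ v in Icc (-2 : ℝ) 2, K v * (w * T (v, z))) = _
          rw [← lintegral_const_mul _ hm1]
      _ = ∫⁻ u in Icc (-2 : ℝ) 2, ∫⁻ z, ∫⁻ v in Icc (-2 : ℝ) 2,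
            (K u * (w * T (u, z))) * (K v * (w * T (v, z))) := by
          apply lintegral_lintegral_swap
          apply Measurable.aemeasurable
          have hm3 : Measurable fun p : ((ℝ × ℝ) × ℝ) × ℝ =>
              (K p.1.2 * (w * T (p.1.2, p.1.1))) * (K p.2 * (w * T (p.2, p.1.1))) := by
            fun_prop
          exact hm3.lintegral_prod_right'
      _ = ∫⁻ u in Icc (-2 : ℝ) 2, ∫⁻ v in Icc (-2 : ℝ) 2, ∫⁻ z,
            (K u * (w * T (u, z))) * (K v * (w * T (v, z))) := by
          apply lintegral_congr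
          intro u
          apply lintegral_lintegral_swap
          apply Measurable.aemeasurable
          have hm4 : Measurable fun p : (ℝ × ℝ) × ℝ =>
              (K u * (w * T (u, p.1))) * (K p.2 * (w * T (p.2, p.1))) := by
            fun_prop
          exact hm4
      _ ≤ ∫⁻ u in Icc (-2 : ℝ) 2, ∫⁻ v in Icc (-2 : ℝ) 2,
            K u * K v * ENNReal.ofReal (4 / (4 * ρ + |u - v|)) := by
          apply lintegral_mono
          intro u
          apply lintegral_mono
          intro v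
          show ∫⁻ z, (K u * (w * T (u, z))) * (K v * (w * T (v, z))) ≤ _
          calc ∫⁻ z, (K u * (w * T (u, z))) * (K v * (w * T (v, z)))
              = K u * K v * (w * (w * ∫⁻ z, T (u, z) * T (v, z))) := by
                have hm5 : Measurable fun z => T (u, z) * T (v, z) := by fun_prop
                rw [← lintegral_const_mul _ hm5, ← lintegral_const_mul _ (hm5.const_mul w),
                  ← lintegral_const_mul _ ((hm5.const_mul w).const_mul w)]
                apply lintegral_congr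
                intro z
                ring
            _ ≤ K u * K v * (w * (w * (ENNReal.ofReal (2 * ρ) * (ENNReal.ofReal (2 * ρ) *
                  ENNReal.ofReal (4 / (4 * ρ + |u - v|)))))) := by
                gcongr
                exact hTa u v
            _ = K u * K v * ((w * ENNReal.ofReal (2 * ρ)) * (w * ENNReal.ofReal (2 * ρ)) *
                  ENNReal.ofReal (4 / (4 * ρ + |u - v|))) := by ring
            _ = K u * K v * ENNReal.ofReal (4 / (4 * ρ + |u - v|)) := by
                rw [hw, ENNReal.inv_mul_cancel hw0 hwt, one_mul, one_mul]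
      _ ≤ S * X := pl_kernel ρ hρ K hKm hK1
  have e3 : X ≤ (∫⁻ z, G z ^ (2 : ℝ)) ^ (1 / (2 : ℝ)) * (∫⁻ z, H z ^ (2 : ℝ)) ^ (1 / (2 : ℝ)) := by
    rw [e1]
    exact ENNReal.lintegral_mul_le_Lp_mul_Lq volume (by
      rw [Real.holderConjugate_iff]; norm_num) hG.aemeasurable hHm.aemeasurable
  have e4 : X * X ≤ (∫⁻ z, G z ^ 2) * (∫⁻ z, H z ^ 2) := by
    have h1 := mul_le_mul' e3 e3
    refine h1.trans (le_of_eq ?_)
    have h2 : ∀ a : ℝ≥0∞, a ^ (1 / (2 : ℝ)) * a ^ (1 / (2 : ℝ)) = a := by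
      intro a
      rw [← ENNReal.rpow_add_of_nonneg _ _ (by norm_num) (by norm_num)]
      norm_num
    rw [mul_mul_mul_comm, h2, h2]
    simp only [ENNReal.rpow_two]
  have e5 : X * X ≤ (S * ∫⁻ z, G z ^ 2) * X := by
    calc X * X ≤ (∫⁻ z, G z ^ 2) * (∫⁻ z, H z ^ 2) := e4
      _ ≤ (∫⁻ z, G z ^ 2) * (S * X) := by gcongr
      _ = _ := by ring
  rcases eq_or_ne X 0 with h0 | h0
  · rw [h0]; exact zero_le
  · exact (ENNReal.mul_le_mul_iff_left h0 hXt).1 e5

end Pool.Agent.NH82.MS
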