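import Pool.Agent.TH539.GMax

set_option autoImplicit false

/-!
# Project MS (MP_5168f5_an): Kakeya maximal estimates for sets with mixed slices

Definitions and the statements of the steps.  Heights are `t`, the other coordinates are `(y, z)`
with `y` real and `z : Fin d → ℝ`; the full dimension is `d + 2`.
-/

open MeasureTheory Set ENNReal NNReal Metric
open scoped Pointwise

namespace Pool.Agent.NH82.MS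

open Pool.Agent.TH539 (ker phi qq ballAvg kakeyaMax nsh surf pt tube)
open Pool.Agent.TH539.SA (Vel)

/-! ## Planar part -/

/-- Average in the coordinate `y`. -/
noncomputable def sm (ρ : ℝ) (G : ℝ × ℝ → ℝ≥0∞) (z : ℝ × ℝ) : ℝ≥0∞ :=
  (ENNReal.ofReal (2 * ρ))⁻¹ * ∫⁻ β in Icc (-ρ) ρ, G (z.1, z.2 + β)

/-- Average over the planar tube with slope `u`, offset `b`, heights centred at `c`. -/
noncomputable def KK (ρ : ℝ) (G : ℝ × ℝ → ℝ≥0∞) (b c u : ℝ) : ℝ≥0∞ :=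
  ∫⁻ t in Icc (c - 1 / 2) (c + 1 / 2), sm ρ G (t, b + t * u)

/-- **MS-1 (planar Kakeya maximal estimate, bounded functions).**
Proof (Cordoba).  `K u := KK ρ G (b u) (c u) u ≤ 1`, `U := Icc (-2) 2`.  With
`τ u (t, y) = 1` if `|t - c u| ≤ 1/2` and `|y - b u - t u| ≤ ρ`, else `0`, we have
`K u = ∫∫ G (t, y) (2ρ)⁻¹ τ u (t, y)`.  Hence (Tonelli)
`X := ∫_U K u ^ 2 = ∫∫ G H`, `H := ∫_U K u (2ρ)⁻¹ τ u du`, and by Cauchy-Schwarz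
`X ^ 2 ≤ (∫∫ G^2) (∫∫ H^2)`,
`∫∫ H^2 = ∫_U ∫_U K u K u' (2ρ)⁻² |T_u ∩ T_u'|`.  For fixed `t` the two `y`-intervals have length
`2ρ` and meet only if `|(b u - b u') + t (u - u')| ≤ 2ρ`, so
`|T_u ∩ T_u'| ≤ 2ρ min 1 (4ρ/|u-u'|)` and the kernel is
`k (u - u') ≤ min (1/(2ρ)) (2/|u-u'|) ≤ 4/(4ρ + |u-u'|)`.  By `K K' ≤ (K^2 + K'^2)/2` and symmetry
`∫∫ H^2 ≤ S X` with `S = ∫_{|x| ≤ 4} 4/(4ρ+|x|) dx = 8 log (1 + 1/ρ)`.  So `X^2 ≤ S X ∫∫ G^2`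
and `X ≤ 4 < ∞` gives the claim. -/
def S_planar : Prop :=
  ∀ (ρ : ℝ), 0 < ρ → ∀ (G : ℝ × ℝ → ℝ≥0∞), Measurable G → (∀ z, G z ≤ 1) →
    ∀ (b c : ℝ → ℝ), Measurable b → Measurable c →
    ∫⁻ u in Icc (-2 : ℝ) 2, KK ρ G (b u) (c u) u ^ 2 ≤
      ENNReal.ofReal (8 * Real.log (1 + 1 / ρ)) * ∫⁻ z, G z ^ 2

/-! ## Tuples of heights -/

/-- **MS-2 (lower bound for the kernel integral).**
Proof.  As `TH539.exists_pieces` (Cell.lean) with the measure `ν` in place of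
`volume (G ∩ ·)`: the function `F x = ν (Ioc a x)` (as a real number) is continuous (it is
1-Lipschitz because `ν ≤ volume`), `F a = 0`, `F b = ν univ ≥ lam`
(`ν` has no atoms); choose `x_0 < ... < x_{2d+1}` with
`F x_j = j lam/(2d+1)`; `P i = Ioc x_{2i} x_{2i+1}` has `ν`-measure `lam/(2d+1) = g`, and points of
`P i`, `P k`, `i ≠ k`, differ by at least `g` as `ν ≤ volume`.  Then use `TH539.ker_ge` on
`Set.pi univ P` and `Measure.pi_pi`, as in `TH539.hts_lower` (Restr.lean). -/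
def S_kerlow : Prop :=
  ∀ (d : ℕ) (θ : ℝ), 0 ≤ θ → ∀ (ν : Measure ℝ) (a b : ℝ), ν ≤ volume.restrict (Icc a b) →
    ∀ lam : ℝ, 0 < lam → ENNReal.ofReal lam ≤ ν univ →
    ENNReal.ofReal (lam / (2 * d + 1)) ^ (qq d θ) ≤
      ∫⁻ t : Fin (d + 1) → ℝ, ker θ t ∂(Measure.pi fun _ => ν)

/-- **MS-3 (integral of the star kernel with a weight at any vertex).**
Proof.  For `i = k` this is `TH539.lintegral_kernel`.  In general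
(`volume_preserving_piFinSuccAbove` at `i`) the integral is
`∫_x ∫_{s : Fin d → ℝ} h (s j₀) ∏_j φ (x - s j)` with `k = i.succAbove j₀`, and
`∏_j` factorises: `∫_x (∫ φ)^(d-1) ∫_y h y φ (x - y)`; one may do a second
`piFinSuccAbove` at `j₀`. -/
def S_tree : Prop :=
  ∀ (d : ℕ) (θ : ℝ), 0 < θ → ∀ (h : ℝ → ℝ≥0∞), Measurable h → ∀ i k : Fin (d + 1),
    ∫⁻ t : Fin (d + 1) → ℝ, h (t k) * ∏ j : Fin d, phi θ (t i - t (i.succAbove j)) =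
      (∫⁻ x, h x) * ENNReal.ofReal (2 / θ) ^ d

variable {d : ℕ}

/-- The pairs `(w, t)` such that some line with velocity `w` meets `Z` at all heights `t i`, which
are at distance at most one of each other. -/
def tupZ (Z : Set (ℝ × (Fin d → ℝ))) : Set ((Fin d → ℝ) × (Fin (d + 1) → ℝ)) :=
  {p | (∀ i k, |p.2 i - p.2 k| ≤ 1) ∧ ∃ q : Fin d → ℝ, ∀ i, (p.2 i, q + p.2 i • p.1) ∈ Z}

/-- The tuples at which `κ` is largest at index `k`. -/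
def Sel (κ : ℝ → ℝ≥0∞) (k : Fin (d + 1)) : Set (Fin (d + 1) → ℝ) := {t | ∀ j, κ (t j) ≤ κ (t k)}

/-- The weight. -/
noncomputable def WW (θ : ℝ) (Z : Set (ℝ × (Fin d → ℝ))) (κ : ℝ → ℝ≥0∞) (k : Fin (d + 1))
    (w : Fin d → ℝ) (s : ℝ) : ℝ≥0∞ :=
  ∫⁻ t' : Fin d → ℝ, (tupZ Z ∩ (Prod.snd ⁻¹' Sel κ k)).indicator (fun p => ker θ p.2)
    (w, k.insertNth s t')

/-- **MS-4 (measurability).**
Proof.  `Z = ⋃ m, C m` with compact `C m` increasing in `m` (take finite unions).  The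
set of `(w, t)` with `∃ q, ∀ i, (t i, q + t i • w) ∈ Z` is `⋃ m` of the sets with `C m` in place of
`Z` (finitely many `i`, monotone), which are the images under `(q, (w, t)) ↦ (w, t)` of closed
sets; a closed set in a `σ`-compact space is `σ`-compact, its image is `σ`-compact, hence
measurable. -/
def S_tupmeas : Prop :=
  ∀ (d : ℕ) (Z : Set (ℝ × (Fin d → ℝ))), IsSigmaCompact Z → MeasurableSet (tupZ Z)

/-- **MS-5 (upper bound for the weights).**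
Proof.  By Tonelli and `volume_preserving_piFinSuccAbove` at `k` the left side is
`∫_t h (t k) 1_Sel (t) ker θ t |{w : (w, t) ∈ tupZ Z}|`.  As in `TH539.Gen.tup_upper` (GMax.lean)
`ker θ t |{w : (w, t) ∈ tupZ Z}| ≤ 4^d d^d Λ ∑ i, κ (t i) ∏_j φ (t i - t (i.succAbove j))` for a.e. `t`,
and on `Sel κ k` we have `κ (t i) ≤ κ (t k)`.  Then MS-3 with weight `h κ`. -/
def S_up : Prop :=
  ∀ (d : ℕ) (Cv : ℝ≥0∞ → Set (Fin d → ℝ) → Prop) (Λ : ℝ≥0∞), Vel d Λ Cv →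
    ∀ (θ : ℝ), 0 < θ → ∀ (Z : Set (ℝ × (Fin d → ℝ))), MeasurableSet (tupZ Z) →
    ∀ (κ : ℝ → ℝ≥0∞), Measurable κ → (∀ᵐ t : ℝ, Cv (κ t) {z | (t, z) ∈ Z}) →
    ∀ (h : ℝ → ℝ≥0∞), Measurable h → ∀ k : Fin (d + 1),
    ∫⁻ w : Fin d → ℝ, ∫⁻ s, h s * WW θ Z κ k w s ≤
      (d + 1) * 4 ^ d * (d:ℝ≥0∞) ^ d * Λ * ENNReal.ofReal (2 / θ) ^ d * ∫⁻ s, h s * κ s

/-- **MS-6 (pointwise lower bound).**
Proof.  Let `I = Icc (c - 1/2) (c + 1/2)`, `p t = Z.indicator 1 (t, b + t • w) * P t ≤ 1`,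
`L = ∫_I p ∈ [lam, 1]`, `ν = (lam / L) • (volume.restrict I).withDensity p`, a measure of mass
`lam`, `ν ≤ volume.restrict I`, `ν ≤ (volume.restrict I).withDensity P`,
and `ν`-a.e. `t` is in `I` with `(t, b + t • w) ∈ Z`.  By MS-2
`ofReal (lam/(2d+1)) ^ qq ≤ ∫ ker θ dν^(d+1)`; every `t` is in `Sel κ k` for some `k`, so this is at
most `∑ k, ∫ 1_{Sel κ k} ker θ dν^(d+1) = ∑ k, ∫_s ∫_{t'} (1_{Sel κ k} ker θ) (k.insertNth s t') dν^d dν`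
(`measurePreserving_piFinSuccAbove`).  For `ν`-a.e. `s` the inner
integral is at most `ν univ ^ d = lam ^ d` (`ker θ ≤ 1` if all gaps are at most one) and at
most `WW θ Z κ k w s` (`ν ≤ volume`, and a.e. tuple with `s` gives a point of `tupZ Z`, take `q = b`). -/
def S_point : Prop :=
  ∀ (d : ℕ) (θ : ℝ), 0 ≤ θ → ∀ (Z : Set (ℝ × (Fin d → ℝ))), MeasurableSet Z →
    MeasurableSet (tupZ Z) → ∀ (κ : ℝ → ℝ≥0∞), Measurable κ →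
    ∀ (P : ℝ → ℝ≥0∞), Measurable P → (∀ t, P t ≤ 1) → ∀ (b w : Fin d → ℝ) (c lam : ℝ), 0 < lam →
    ENNReal.ofReal lam ≤ ∫⁻ t in Icc (c - 1 / 2) (c + 1 / 2),
      Z.indicator 1 (t, b + t • w) * P t →
    ENNReal.ofReal (lam / (2 * d + 1)) ^ (qq d θ) ≤
      ∑ k : Fin (d + 1), ∫⁻ s in Icc (c - 1 / 2) (c + 1 / 2),
        P s * min (ENNReal.ofReal lam ^ d) (WW θ Z κ k w s)

/-! ## The restricted estimate for mixed sets -/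

/-- The smoothed length, for velocity `v = (u, w)`. -/
noncomputable def LL (ρ : ℝ) (Y : Set (ℝ × ℝ)) (Z : Set (ℝ × (Fin d → ℝ)))
    (b₁ : ℝ × (Fin d → ℝ) → ℝ) (b₂ : ℝ × (Fin d → ℝ) → (Fin d → ℝ)) (c : ℝ × (Fin d → ℝ) → ℝ)
    (v : ℝ × (Fin d → ℝ)) : ℝ≥0∞ :=
  ∫⁻ t in Icc (c v - 1 / 2) (c v + 1 / 2),
    Z.indicator 1 (t, b₂ v + t • v.2) * sm ρ (Y.indicator 1) (t, b₁ v + t * v.1)

/-- The weak type exponent. -/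
noncomputable def rr (d : ℕ) (θ : ℝ) : ℝ := (d + 2) + 2 * (θ * ((d + 1) * d))

/-- The constant. -/
noncomputable def KW (d : ℕ) (ρ θ : ℝ) : ℝ≥0∞ :=
  (d + 1) ^ 3 * ENNReal.ofReal (8 * Real.log (1 + 1 / ρ)) * 4 ^ d * (d:ℝ≥0∞) ^ d *
    ENNReal.ofReal (2 / θ) ^ d * (2 * d + 1) ^ (2 * qq d θ)

/-- **MS-7 (weak type).**
Proof.  Fix `w`.  For `u` with `lam ≤ LL (u, w)` MS-6 with `P s = sm ρ (Y.indicator 1) (s, b₁ + s u)`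
gives `(lam/(2d+1))^qq ≤ ∑ k, KK ρ G_k (b₁ (u,w)) (c (u,w)) u` where
`G_k (t, y) = 1_Y (t, y) min (lam^d) (WW θ Z κ k w t)`, `G_k = lam^d G'_k`, `G'_k ≤ 1`.
Chebyshev, `(∑_k x_k)^2 ≤ (d+1) ∑ x_k^2` and MS-1 for `G'_k`, `∫∫ G'_k^2 ≤ ∫∫ G'_k ≤ lam^(-d) ∫_t |Y_t| WW k w t`; then
integrate over `w` and use MS-5 with `h t = |Y_t|`. -/
def S_weak : Prop :=
  ∀ (d : ℕ) (Cv : ℝ≥0∞ → Set (Fin d → ℝ) → Prop) (Λ : ℝ≥0∞), Vel d Λ Cv →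
    ∀ (θ ρ : ℝ), 0 < θ → 0 < ρ → ∀ (Y : Set (ℝ × ℝ)), MeasurableSet Y →
    ∀ (Z : Set (ℝ × (Fin d → ℝ))), IsSigmaCompact Z →
    ∀ (κ : ℝ → ℝ≥0∞), Measurable κ → (∀ᵐ t : ℝ, Cv (κ t) {z | (t, z) ∈ Z}) →
    ∀ (b₁ : ℝ × (Fin d → ℝ) → ℝ) (b₂ : ℝ × (Fin d → ℝ) → (Fin d → ℝ)) (c : ℝ × (Fin d → ℝ) → ℝ),
    Measurable b₁ → Measurable b₂ → Measurable c → ∀ lam : ℝ, 0 < lam → lam ≤ 1 →
    ENNReal.ofReal lam ^ (rr d θ) *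
      volume {v : ℝ × (Fin d → ℝ) | |v.1| ≤ 2 ∧ ENNReal.ofReal lam ≤ LL ρ Y Z b₁ b₂ c v} ≤
      KW d ρ θ * Λ * ∫⁻ t, volume {y : ℝ | (t, y) ∈ Y} * κ t

/-- **MS-8 (restricted strong type).**
Proof.  Layer cake: `LL ≤ 1`, and
`∫ LL^q = q ∫_0^1 lam^(q-1) |{LL > lam}| dlam ≤ q ∫_0^1 lam^(q-1-rr) dlam * K = q/(q-rr) K`. -/
def S_R : Prop :=
  ∀ (d : ℕ) (Cv : ℝ≥0∞ → Set (Fin d → ℝ) → Prop) (Λ : ℝ≥0∞), Vel d Λ Cv →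
    ∀ (θ ρ : ℝ), 0 < θ → 0 < ρ → ∀ (Y : Set (ℝ × ℝ)), MeasurableSet Y →
    ∀ (Z : Set (ℝ × (Fin d → ℝ))), IsSigmaCompact Z →
    ∀ (κ : ℝ → ℝ≥0∞), Measurable κ → (∀ᵐ t : ℝ, Cv (κ t) {z | (t, z) ∈ Z}) →
    ∀ (b₁ : ℝ × (Fin d → ℝ) → ℝ) (b₂ : ℝ × (Fin d → ℝ) → (Fin d → ℝ)) (c : ℝ × (Fin d → ℝ) → ℝ),
    Measurable b₁ → Measurable b₂ → Measurable c → ∀ q : ℝ, rr d θ < q →
    ∫⁻ v in {v : ℝ × (Fin d → ℝ) | |v.1| ≤ 2}, LL ρ Y Z b₁ b₂ c v ^ q ≤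
      ENNReal.ofReal (q / (q - rr d θ)) *
        (KW d ρ θ * Λ * ∫⁻ t, volume {y : ℝ | (t, y) ∈ Y} * κ t)

/-! ## From lines to the maximal function -/

/-- A bound for all scalings of the heights and all measurable choices of lines. -/
def LineBound (m : ℕ) (H : EuclideanSpace ℝ (Fin (m + 1)) → ℝ≥0∞) (p : ℝ) (K : ℝ≥0∞) : Prop :=
  ∀ τ : ℝ, 0 < τ → ∀ (b : (Fin m → ℝ) → (Fin m → ℝ)) (c : (Fin m → ℝ) → ℝ),
    Measurable b → Measurable c →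
    ∫⁻ v in {v : Fin m → ℝ | ∀ i, |v i| ≤ 2},
      (∫⁻ t in Icc (c v - 1 / 2) (c v + 1 / 2), H (pt (τ * t, b v + t • v))) ^ p ≤
      K * ENNReal.ofReal τ⁻¹

/-- **MS-9 (from lines to averages over balls of segments).**
Proof.  Copy of `TH539.Gen.half_shell, full_shell, steep_seg, steep_long, steep_ballAvg, steep_iSup`
(GMax.lean) with `strong_lines` replaced by the hypothesis `LineBound`.  In `half_shell` the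
slopes `w` which occur satisfy `|w i| ≤ ‖pt (τ, w)‖ ≤ 2`. -/
def S_chain : Prop :=
  ∀ (m : ℕ) (H : EuclideanSpace ℝ (Fin (m + 1)) → ℝ≥0∞) (p : ℝ) (K : ℝ≥0∞), Measurable H →
    1 < p → LineBound m H p K → ∀ (κ ρ : ℝ), 0 < κ → 0 < ρ →
    ∀ q : ℕ → EuclideanSpace ℝ (Fin (m + 1)),
    ∫⁻ e in {e : sphere (0 : EuclideanSpace ℝ (Fin (m + 1))) 1 |
      κ ≤ |(e : EuclideanSpace ℝ (Fin (m + 1))) 0|},
        (⨆ k, ballAvg ρ H (q k) e) ^ p ∂(surf (m + 1)) ≤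
      3 ^ p * (3 * ((nsh κ : ℝ≥0∞) * (4 * (m + 1) * 2 ^ p * K)))

/-- Average in the direction `e₁`. -/
noncomputable def smv {m : ℕ} (e₁ : EuclideanSpace ℝ (Fin (m + 1))) (ρ : ℝ)
    (F : EuclideanSpace ℝ (Fin (m + 1)) → ℝ≥0∞) (x : EuclideanSpace ℝ (Fin (m + 1))) : ℝ≥0∞ :=
  (ENNReal.ofReal (2 * ρ))⁻¹ * ∫⁻ β in Icc (-ρ) ρ, F (x + β • e₁)

/-- **MS-10 (ball averages of `F` and of its smoothing).**
Proof.  With `G x = ∫_s F (a + x + s e)`: for `|β| ≤ ρ`,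
`∫_{|x'| ≤ ρ} G x' ≤ ∫_{|x| ≤ 2ρ} G (x + β e₁)` (substitute `x = x' - β e₁`), average over `β`, Tonelli, and
`|B (2ρ)| = 2^(m+1) |B ρ|`. -/
def S_smooth : Prop :=
  ∀ (m : ℕ) (e₁ : EuclideanSpace ℝ (Fin (m + 1))), ‖e₁‖ ≤ 1 → ∀ ρ : ℝ, 0 < ρ →
    ∀ F : EuclideanSpace ℝ (Fin (m + 1)) → ℝ≥0∞, Measurable F → ∀ a e,
    ballAvg ρ F a e ≤ 2 ^ (m + 1) * ballAvg (2 * ρ) (smv e₁ ρ F) a e

/-- **MS-11 (inner regularity).**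
Proof.  Compact `K j ⊆ E` with `volume (E \ K j) < 1/(j+1)` (`MeasurableSet.exists_isCompact_diff_lt`),
`E' = ⋃ j, K j`. -/
def S_sigma : Prop :=
  ∀ (m : ℕ) (E : Set (EuclideanSpace ℝ (Fin m))), MeasurableSet E → volume E ≠ ∞ →
    ∃ E' ⊆ E, IsSigmaCompact E' ∧ volume (E \ E') = 0

/-! ## Sets and functions -/

/-- Monotone classes. -/
def Mono (Cv : ℝ≥0∞ → Set (Fin d → ℝ) → Prop) : Prop :=
  ∀ (m m' : ℝ≥0∞) (B B' : Set (Fin d → ℝ)), Cv m B → m ≤ m' → B' ⊆ B → Cv m' B'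

/-- A set with mixed slices, of size at most `m`. -/
def MSet (Cv : ℝ≥0∞ → Set (Fin d → ℝ) → Prop) (m : ℝ≥0∞)
    (E : Set (EuclideanSpace ℝ (Fin (d + 2)))) : Prop :=
  MeasurableSet E ∧ ∃ g : ℝ → ℝ≥0∞, Measurable g ∧ ∫⁻ t, g t ≤ m ∧
    ∀ᵐ t : ℝ, ∃ (A : Set ℝ) (B : Set (Fin d → ℝ)) (μ : ℝ≥0∞), Cv μ B ∧ volume A * μ ≤ g t ∧
      ∀ x ∈ E, x 0 = t → x 1 ∈ A ∧ (fun i : Fin d => x i.succ.succ) ∈ B

/-- **MS-12 (lines for mixed sets).**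
Proof.  `∫ g < ∞` may be assumed.  `Y = {(x 0, x 1) : x ∈ E'}`, `Z = {(x 0, z(x)) : x ∈ E'}` are
`σ`-compact, `smv e₁ ρ 1_E' (pt (t, (y, z))) ≤ 1_Z (t, z) * sm ρ 1_Y (t, y)`.  Let
`κ t = ∞` if `|Y_t| = 0`, else `g t / |Y_t|`; then `|Y_t| κ t ≤ g t`, and
`Cv (κ t) Z_t` for a.e. `t`.  For the scaled heights use `Y^τ = {(t, y) : (τ t, y) ∈ Y}` etc.
Then MS-8; here `e₁` is the coordinate vector of the coordinate `y`. -/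
def S_line : Prop :=
  ∀ (d : ℕ) (Cv : ℝ≥0∞ → Set (Fin d → ℝ) → Prop) (Λ : ℝ≥0∞), Vel d Λ Cv → Mono Cv →
    ∀ (E : Set (EuclideanSpace ℝ (Fin (d + 2)))) (m : ℝ≥0∞), MSet Cv m E → m ≠ ∞ →
    ∀ E' : Set (EuclideanSpace ℝ (Fin (d + 2))), E' ⊆ E → IsSigmaCompact E' →
    ∀ (θ ρ q : ℝ), 0 < θ → 0 < ρ → rr d θ < q →
    LineBound (d + 1) (smv (EuclideanSpace.single (1 : Fin (d + 2)) (1:ℝ)) ρ (E'.indicator 1)) q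
      (ENNReal.ofReal (q / (q - rr d θ)) * (KW d ρ θ * Λ * m))

/-- **MS-13 (rotations).**
Proof.  `R` is a measure preserving equivalence and `tube δ e a = R ⁻¹' tube δ (R e) (R a)`, so
`kakeyaMax δ (f ∘ R) e = kakeyaMax δ f (R e)`; the measure `Measure.toSphere` is invariant under `R`
(`Measure.toSphere_apply'`, `R` maps cones to cones). -/
def S_rot : Prop :=
  ∀ (m : ℕ) (R : EuclideanSpace ℝ (Fin (m + 1)) ≃ₗᵢ[ℝ] EuclideanSpace ℝ (Fin (m + 1)))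
    (f : EuclideanSpace ℝ (Fin (m + 1)) → ℝ) (δ : ℝ) (n : ℕ),
    ∫⁻ e : sphere (0 : EuclideanSpace ℝ (Fin (m + 1))) 1, kakeyaMax δ (fun x => f (R x)) e ^ n
      ∂(surf (m + 1)) =
    ∫⁻ e : sphere (0 : EuclideanSpace ℝ (Fin (m + 1))) 1, kakeyaMax δ f e ^ n ∂(surf (m + 1))

/-- **MS-14 (steep directions, `q > n`).**
Proof.  Replace `E` by `E'` of MS-11.  `TH539.kakeya_le_iSup`, MS-10 with `ρ = 3δ`, MS-12, MS-9 with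
the radius `6δ`; constants as in `TH539.Gen.kakeya_strong`. -/
def S_strong : Prop :=
  ∀ d : ℕ, ∃ C : ℝ, 0 < C ∧
    ∀ (Cv : ℝ≥0∞ → Set (Fin d → ℝ) → Prop) (Λ : ℝ≥0∞), Vel d Λ Cv → Mono Cv →
    ∀ (E : Set (EuclideanSpace ℝ (Fin (d + 2)))) (m : ℝ≥0∞), MSet Cv m E → m ≠ ∞ → volume E ≠ ∞ →
    ∀ (θ q κ δ : ℝ), 0 < θ → rr d θ < q → 0 < κ → 0 < δ → δ ≤ 1 →
    ∫⁻ e in {e : sphere (0 : EuclideanSpace ℝ (Fin (d + 2))) 1 |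
      κ ≤ |(e : EuclideanSpace ℝ (Fin (d + 2))) 0|},
        kakeyaMax δ (E.indicator 1) e ^ q ∂(surf (d + 2)) ≤
      ENNReal.ofReal C ^ q * (nsh κ : ℝ≥0∞) *
        (ENNReal.ofReal (q / (q - rr d θ)) * (KW d (3 * δ) θ * Λ * m))

/-- **MS-15 (critical exponent for sets).**
Proof.  Let `n = d + 2`, `L = 1 + log (1/δ)`, `V = volume E ≤ m` (product of slices), `m < ∞` and `V > 0` may be
assumed.  If `V < δ^n`: `kakeyaMax ≤ c δ^(1-n) V`, so `kakeyaMax^n ≤ c^n V`.  Otherwise as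
`TH539.Gen.crit` with `A = V^(1/n) ≥ δ`, `η = 1/L`, `q = n + η`, `θ = η/(4 (d+1) d)` (so
`rr d θ = n + η/2`), `κ = δ^(n-1)`: `x^n ≤ A^n + A^(-η) x^q` (`TH539.pow_le_add_rpow`), `A^(-η) ≤ δ^(-η) ≤ 3`
(`TH539.exp_bound`), MS-14, and near the equator `TH539.kakeya_trivial`, `TH539.surf_equator`. -/
def S_setCrit : Prop :=
  ∀ d : ℕ, 1 ≤ d → ∃ C : ℝ, 0 < C ∧
    ∀ (Cv : ℝ≥0∞ → Set (Fin d → ℝ) → Prop) (Λ : ℝ≥0∞), Vel d Λ Cv → Mono Cv →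
    (∀ m B, Cv m B → volume B ≤ m) → 1 ≤ Λ →
    ∀ (E : Set (EuclideanSpace ℝ (Fin (d + 2)))) (m : ℝ≥0∞), MSet Cv m E →
    ∀ δ : ℝ, 0 < δ → δ < 1 →
    ∫⁻ e : sphere (0 : EuclideanSpace ℝ (Fin (d + 2))) 1,
        kakeyaMax δ (E.indicator 1) e ^ (d + 2) ∂(surf (d + 2)) ≤
      ENNReal.ofReal (C * (1 + Real.log (1 / δ)) ^ (d + 3)) * (Λ * m)

/-- The class of functions. -/
def MFun (Cv : ℝ≥0∞ → Set (Fin d → ℝ) → Prop) (K : ℕ) (M : ℝ≥0∞)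
    (f : EuclideanSpace ℝ (Fin (d + 2)) → ℝ) : Prop :=
  ∀ r : ℝ, 0 < r → ∃ (E : Fin K → Set (EuclideanSpace ℝ (Fin (d + 2))))
    (R : Fin K → (EuclideanSpace ℝ (Fin (d + 2)) ≃ₗᵢ[ℝ] EuclideanSpace ℝ (Fin (d + 2))))
    (m : Fin K → ℝ≥0∞), (∀ k, MSet Cv (m k) (E k)) ∧
    {x | r < |f x|} ⊆ ⋃ k, (R k) ⁻¹' (E k) ∧ ∑ k, m k ≤ M * volume {x | r < |f x|}

/-- **MS-16 (critical exponent for functions).**
Proof.  `I = ∫ |f|^n`, `0 < I < ∞`, `A = I^(1/n)`; `TH539.split_le` truncates at `A/δ`;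
`min |f| (A/δ) ≤ A + ∑_{j ≤ J} A 2^(j+1) 1_{|f| > A 2^j}`, `J = ⌈log₂ (1/δ)⌉`; so
`kakeyaMax δ f ≤ (c + 1) A + ∑_{j ≤ J} ∑_k A 2^(j+1) kakeyaMax δ 1_{(R j k)⁻¹ E j k}`, a sum of `T = 1 + (J+1) K` terms,
`(∑ x)^n ≤ T^(n-1) ∑ x^n`, MS-13, MS-15 and `∑_j (A 2^j)^n |{|f| > A 2^j}| ≤ 2 ∫ |f|^n`. -/
def S_funCrit : Prop :=
  ∀ d : ℕ, 1 ≤ d → ∃ C : ℝ, 0 < C ∧
    ∀ (Cv : ℝ≥0∞ → Set (Fin d → ℝ) → Prop) (Λ : ℝ≥0∞), Vel d Λ Cv → Mono Cv →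
    (∀ m B, Cv m B → volume B ≤ m) → 1 ≤ Λ →
    ∀ (f : EuclideanSpace ℝ (Fin (d + 2)) → ℝ) (K : ℕ) (M : ℝ≥0∞), Measurable f → 1 ≤ K → 1 ≤ M →
    MFun Cv K M f → ∀ δ : ℝ, 0 < δ → δ < 1 →
    ∫⁻ e : sphere (0 : EuclideanSpace ℝ (Fin (d + 2))) 1, kakeyaMax δ f e ^ (d + 2)
      ∂(surf (d + 2)) ≤
      ENNReal.ofReal (C * (1 + Real.log (1 / δ)) ^ (2 * d + 4)) *
        ((K:ℝ≥0∞) ^ (d + 1) * Λ * M * ∫⁻ x, ‖f x‖ₑ ^ (d + 2))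

end Pool.Agent.NH82.MS
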